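import Pool.Agent.Q148.PS.Fin

set_option autoImplicit false

/-! # All multipliers at once -/

namespace Pool.Agent.Q148.PS

open Finset MeasureTheory Pool.Agent.Q148.CN

open Classical in
/-- the number of exceptions up to `X` -/
noncomputable def Nx (P : ℕ → Prop) (X : ℕ) : ℕ := ((range (X + 1)).filter (fun x => ¬ P x)).card

lemma dyadic (P : ℕ → Prop) (C δ Y₀ : ℝ) (hC : 0 < C) (hδ0 : 0 ≤ δ) (hδ : δ ≤ 1 / 2) (hY₀ : 1 ≤ Y₀)
    (h : ∀ Y : ℝ, Y₀ ≤ Y → ∀ S : Finset ℕ, (∀ x ∈ S, Y / 4 ≤ (x : ℝ) ∧ (x : ℝ) + 1 ≤ Y ∧ ¬ P x) →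
      (S.card : ℝ) ≤ C * Y ^ (1 - δ)) :
    ∃ C₁ : ℝ, 0 < C₁ ∧ ∀ X : ℕ, (Nx P X : ℝ) ≤ C₁ * ((X : ℝ) + 1) ^ (1 - δ) := by
  classical
  refine ⟨Y₀ + 4 * C + 5, by linarith, ?_⟩
  intro X
  induction X using Nat.strong_induction_on with
  | _ X ih =>
    have hX0 : (0 : ℝ) ≤ X := by positivity
    have hpow1 : 1 ≤ ((X : ℝ) + 1) ^ (1 - δ) := Real.one_le_rpow (by linarith) (by linarith)
    by_cases hsmall : (X : ℝ) + 1 < Y₀ ∨ X < 4
    · have h1 : (Nx P X : ℝ) ≤ X + 1 := by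
        unfold Nx
        have := Finset.card_filter_le (range (X + 1)) (fun x => ¬ P x)
        rw [Finset.card_range] at this
        exact_mod_cast this
      have h2 : (X : ℝ) + 1 ≤ Y₀ + 4 * C + 5 := by
        rcases hsmall with h3 | h3
        · linarith
        · have : (X : ℝ) < 4 := by exact_mod_cast h3
          linarith
      calc (Nx P X : ℝ) ≤ (Y₀ + 4 * C + 5) * 1 := by linarith
        _ ≤ _ := by gcongr
    · push Not at hsmall
      obtain ⟨h1, h2⟩ := hsmall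
      have hX4 : (4 : ℝ) ≤ X := by exact_mod_cast h2
      set S : Finset ℕ := (range (X + 1)).filter (fun x => ¬ P x ∧ (X + 1) / 4 < x) with hS
      have h3 : Nx P X ≤ Nx P ((X + 1) / 4) + S.card := by
        unfold Nx
        have hsub : (range (X + 1)).filter (fun x => ¬ P x) ⊆
            ((range ((X + 1) / 4 + 1)).filter (fun x => ¬ P x)) ∪ S := by
          intro x hx
          rw [Finset.mem_filter, Finset.mem_range] at hx
          rw [Finset.mem_union, Finset.mem_filter, hS, Finset.mem_filter, Finset.mem_range,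
            Finset.mem_range]
          by_cases hx2 : x < (X + 1) / 4 + 1
          · exact Or.inl ⟨hx2, hx.2⟩
          · exact Or.inr ⟨hx.1, hx.2, by omega⟩
        exact (Finset.card_le_card hsub).trans (Finset.card_union_le _ _)
      have h4 : (S.card : ℝ) ≤ C * ((X : ℝ) + 1) ^ (1 - δ) := by
        apply h ((X : ℝ) + 1) h1 S
        intro x hx
        rw [hS, Finset.mem_filter, Finset.mem_range] at hx
        obtain ⟨h5, h6, h7⟩ := hx
        refine ⟨?_, ?_, h6⟩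
        · have h8 : X + 1 ≤ 4 * x := by omega
          have h9 : (X : ℝ) + 1 ≤ 4 * x := by exact_mod_cast h8
          linarith
        · have h8 : x + 1 ≤ X + 1 := by omega
          exact_mod_cast h8
      have h5 := ih ((X + 1) / 4) (by omega)
      have h6 : (((X + 1) / 4 : ℕ) : ℝ) ≤ ((X : ℝ) + 1) / 4 := by
        have := @Nat.cast_div_le ℝ _ _ _ (X + 1) 4
        push_cast at this
        exact this
      have h7 : (Nx P X : ℝ) ≤ Nx P ((X + 1) / 4) + S.card := by exact_mod_cast h3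
      have h8 : ((((X + 1) / 4 : ℕ) : ℝ) + 1) ^ (1 - δ) ≤ 3 / 4 * ((X : ℝ) + 1) ^ (1 - δ) := by
        calc ((((X + 1) / 4 : ℕ) : ℝ) + 1) ^ (1 - δ) ≤ ((1 / 2) * ((X : ℝ) + 1)) ^ (1 - δ) := by
              apply Real.rpow_le_rpow (by positivity) (by linarith) (by linarith)
          _ = (1 / 2) ^ (1 - δ) * ((X : ℝ) + 1) ^ (1 - δ) := by
              rw [Real.mul_rpow (by norm_num) (by linarith)]
          _ ≤ 3 / 4 * ((X : ℝ) + 1) ^ (1 - δ) := by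
              gcongr
              calc (1 / 2 : ℝ) ^ (1 - δ) ≤ (1 / 2 : ℝ) ^ (1 / 2 : ℝ) :=
                    Real.rpow_le_rpow_of_exponent_ge (by norm_num) (by norm_num) (by linarith)
                _ = Real.sqrt (1 / 2) := by rw [Real.sqrt_eq_rpow]
                _ ≤ 3 / 4 := by
                    rw [Real.sqrt_le_left (by norm_num)]
                    norm_num
      have h9 : (Y₀ + 4 * C + 5) * ((((X + 1) / 4 : ℕ) : ℝ) + 1) ^ (1 - δ) ≤
          (Y₀ + 4 * C + 5) * (3 / 4 * ((X : ℝ) + 1) ^ (1 - δ)) := by gcongr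
      have h10 : (Y₀ + 4 * C + 5) * (3 / 4 * ((X : ℝ) + 1) ^ (1 - δ)) +
          C * ((X : ℝ) + 1) ^ (1 - δ) ≤ (Y₀ + 4 * C + 5) * ((X : ℝ) + 1) ^ (1 - δ) := by
        have : 0 ≤ (Y₀ + 5) * ((X : ℝ) + 1) ^ (1 - δ) := by positivity
        nlinarith
      linarith

lemma PK2_mono (B W W' R : ℕ) (θ : ℝ) (x : ℕ) (hW : W ∣ W') (h : PK2 B W' R θ x) :
    PK2 B W R θ x := by
  obtain ⟨m, h1, h2⟩ := h
  exact ⟨m, h1.of_dvd hW, h2⟩

theorem main2 (θ : ℝ) (hθ : 11 / 21 < θ) : ∃ R : ℕ, ∃ δ : ℝ, 0 < δ ∧ ∀ M K : ℕ, 1 ≤ M →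
    ∃ C : ℝ, ∀ X : ℝ, 1 ≤ X →
      (({x : ℕ | (x : ℝ) ≤ X ∧ ¬ ∀ B ≤ K, Squarefree B → PK2 B M R θ x}).ncard : ℝ) ≤
        C * X ^ (1 - δ) := by
  classical
  obtain ⟨E0, zmin, hloc⟩ := loc
  -- the choice of E
  have hθ0 : 0 < θ - 11 / 21 := by linarith
  obtain ⟨E1, hE1⟩ := exists_nat_gt ((28 * E0 + 4 : ℝ) / (7 * (θ - 11 / 21)))
  set E : ℕ := E1 + (36 * E0 + 7) with hE
  have hE7 : 7 ≤ E := by omega
  have hEr : (7 : ℝ) ≤ E := by exact_mod_cast hE7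
  have hE1r : (E1 : ℝ) ≤ E := by exact_mod_cast (by omega : E1 ≤ E)
  have hEθ : 11 / 21 + (28 * E0 + 4 : ℝ) / (7 * E) < θ := by
    have h1 : (28 * E0 + 4 : ℝ) / (7 * (θ - 11 / 21)) < E := lt_of_lt_of_le hE1 hE1r
    rw [div_lt_iff₀ (by positivity)] at h1
    have h2 : (28 * E0 + 4 : ℝ) / (7 * E) < θ - 11 / 21 := by
      rw [div_lt_iff₀ (by positivity)]
      linarith
    linarith
  refine ⟨4 * E, 1 / (14 * E : ℝ), by positivity, ?_⟩
  have hδ : (1 : ℝ) / (14 * E) ≤ 1 / 2 := by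
    rw [div_le_div_iff₀ (by positivity) (by norm_num)]
    linarith
  have hδ0 : (0 : ℝ) ≤ 1 / (14 * E) := by positivity
  intro M K hM
  set z0 : ℕ := zmin + M + K + 2 with hz0
  set W : ℕ := z0.factorial with hW
  have hW2 : 2 ≤ W := by
    calc 2 = Nat.factorial 2 := rfl
      _ ≤ z0.factorial := Nat.factorial_le (by omega)
  have h2W : 2 ∣ W := Nat.dvd_factorial (by norm_num) (by omega)
  have hMW : M ∣ W := Nat.dvd_factorial (by omega) (by omega)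
  have hWp : ∀ p : ℕ, p.Prime → (p ≤ z0 ↔ p ∣ W) := by
    intro p hp
    exact (hp.dvd_factorial).symm
  have hB : ∀ B ∈ (Icc 1 K).filter Squarefree, ∃ C₁ : ℝ, 0 < C₁ ∧
      ∀ X : ℕ, (Nx (PK2 B M (4 * E) θ) X : ℝ) ≤ C₁ * ((X : ℝ) + 1) ^ (1 - 1 / (14 * E : ℝ)) := by
    intro B hBm
    rw [Finset.mem_filter, Finset.mem_Icc] at hBm
    have hBW : B ∣ W := Nat.dvd_factorial (by omega) (by omega)
    obtain ⟨C, hC, Y₀, hY₀, hblock⟩ := block2 E0 B W E θ hBm.2 (by omega) hEθ hW2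
      (hloc z0 B W E (by omega) hBm.2 hBW h2W hW2 hWp (by omega))
    apply dyadic (PK2 B M (4 * E) θ) C _ Y₀ hC hδ0 hδ hY₀
    intro Y hY S hS
    apply hblock Y hY S
    intro x hx
    obtain ⟨h1, h2, h3⟩ := hS x hx
    exact ⟨h1, h2, fun h4 => h3 (PK2_mono B M W (4 * E) θ x hMW h4)⟩
  choose! Cf hCf0 hCf using hB
  refine ⟨2 * ∑ B ∈ (Icc 1 K).filter Squarefree, Cf B, ?_⟩
  intro X hX
  have hX0 : 0 < X := by linarith
  have hsub : {x : ℕ | (x : ℝ) ≤ X ∧ ¬ ∀ B ≤ K, Squarefree B → PK2 B M (4 * E) θ x} ⊆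
      (((Icc 1 K).filter Squarefree).biUnion (fun B => (range (⌊X⌋₊ + 1)).filter
        (fun x => ¬ PK2 B M (4 * E) θ x)) : Finset ℕ) := by
    intro x hx
    obtain ⟨h1, h2⟩ := hx
    push Not at h2
    obtain ⟨B, hB1, hB2, hB3⟩ := h2
    rw [Finset.mem_coe, Finset.mem_biUnion]
    refine ⟨B, ?_, ?_⟩
    · rw [Finset.mem_filter, Finset.mem_Icc]
      exact ⟨⟨Nat.one_le_iff_ne_zero.mpr hB2.ne_zero, hB1⟩, hB2⟩
    · rw [Finset.mem_filter, Finset.mem_range, Nat.lt_succ_iff, Nat.le_floor_iff hX0.le]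
      exact ⟨h1, hB3⟩
  have h1 : (({x : ℕ | (x : ℝ) ≤ X ∧ ¬ ∀ B ≤ K, Squarefree B →
      PK2 B M (4 * E) θ x}).ncard : ℝ) ≤ ∑ B ∈ (Icc 1 K).filter Squarefree,
        ((Nx (PK2 B M (4 * E) θ) ⌊X⌋₊ : ℕ) : ℝ) := by
    have h2 := Set.ncard_le_ncard hsub (Finset.finite_toSet _)
    rw [Set.ncard_coe_finset] at h2
    have h3 := h2.trans Finset.card_biUnion_le
    have h4 : ∑ B ∈ (Icc 1 K).filter Squarefree, ((range (⌊X⌋₊ + 1)).filter
        (fun x => ¬ PK2 B M (4 * E) θ x)).card =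
        ∑ B ∈ (Icc 1 K).filter Squarefree, Nx (PK2 B M (4 * E) θ) ⌊X⌋₊ := by
      apply Finset.sum_congr rfl
      intro B _
      unfold Nx
      congr
    rw [h4] at h3
    exact_mod_cast h3
  refine h1.trans ?_
  have hf : (⌊X⌋₊ : ℝ) ≤ X := Nat.floor_le hX0.le
  have h2 : ((⌊X⌋₊ : ℝ) + 1) ^ (1 - 1 / (14 * E : ℝ)) ≤ 2 * X ^ (1 - 1 / (14 * E : ℝ)) := by
    calc ((⌊X⌋₊ : ℝ) + 1) ^ (1 - 1 / (14 * E : ℝ)) ≤ (2 * X) ^ (1 - 1 / (14 * E : ℝ)) := by
          apply Real.rpow_le_rpow (by positivity) (by linarith) (by linarith)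
      _ = 2 ^ (1 - 1 / (14 * E : ℝ)) * X ^ (1 - 1 / (14 * E : ℝ)) := by
          rw [Real.mul_rpow (by norm_num) hX0.le]
      _ ≤ 2 ^ (1 : ℝ) * X ^ (1 - 1 / (14 * E : ℝ)) := by
          gcongr
          · norm_num
          · linarith
      _ = _ := by rw [Real.rpow_one]
  calc ∑ B ∈ (Icc 1 K).filter Squarefree, ((Nx (PK2 B M (4 * E) θ) ⌊X⌋₊ : ℕ) : ℝ) ≤
      ∑ B ∈ (Icc 1 K).filter Squarefree, Cf B * (2 * X ^ (1 - 1 / (14 * E : ℝ))) := by
        apply Finset.sum_le_sum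
        intro B hBm
        refine (hCf B hBm ⌊X⌋₊).trans ?_
        have := hCf0 B hBm
        gcongr
    _ = _ := by
        rw [← Finset.sum_mul]
        ring

end Pool.Agent.Q148.PS
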