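import Pool.Agent.Q148.PS.Mf

set_option autoImplicit false

/-! # The exceptional set -/

namespace Pool.Agent.Q148.PS

open Finset MeasureTheory Pool.Agent.Q148.CN Pool.Agent.Y882

/-- a near integer gives a value of the cubic form in a short interval -/
lemma approx2 {B W T L : ℕ} {Z : ℝ} (h : Par B W T L Z) (t : ℕ) (ht : t ∈ Ioc T (2 * T)) (x : ℝ)
    (hx : x ∈ Set.Icc Z (2 * Z)) (Δ : ℝ) (hΔ : 1 / (L : ℝ) ≤ Δ) (hΔ1 : Δ ≤ 1) (m : ℤ)
    (hm : |(gt B W t x - 1) / W - m| ≤ Δ) :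
    ∃ u : ℕ, (u : ℤ) = 1 + W * m ∧ vv B W t < u ∧ (u : ℝ) ≤ 3 * Z ∧
      |gt B W t x - u| ≤ W * Δ ∧
      |(u : ℝ) ^ 3 - (vv B W t) ^ 2 * u - x ^ 3| ≤ 28 * W * Z ^ 2 * Δ := by
  have hZ0 := h.hZ0
  have hx0 : 0 < x := lt_of_lt_of_le hZ0 hx.1
  have hW : (2 : ℝ) ≤ W := by exact_mod_cast h.hW
  have hL : (2 : ℝ) ≤ L := by exact_mod_cast h.hL
  have hLT : (L : ℝ) ≤ T := by exact_mod_cast h.hLT
  have hT1 : 1 ≤ T := by
    have h1 := h.hL
    have h2 := h.hLT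
    omega
  have hΔ0 : 0 < Δ := lt_of_lt_of_le (by positivity) hΔ
  have hWZ := h.hWZ
  have hw := vv_two B W T t Z ht hT1 hZ0 h.hZ h.hT0
  have hv0 := vv_nonneg B W t
  set v : ℝ := vv B W t with hv
  set s : ℝ := v ^ 2 / x ^ 2 with hs
  set w : ℝ := 1 + s / 3 - s ^ 3 / 81 + s ^ 4 / 243 with hwdef
  have hs0 : 0 ≤ s := by rw [hs]; positivity
  have hsZ : s ≤ v ^ 2 / Z ^ 2 := by
    rw [hs]
    have := hx.1
    gcongr
  have hZ400 : v ^ 2 / Z ^ 2 ≤ 1 / 400 := by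
    rw [div_le_div_iff₀ (by positivity) (by norm_num)]
    linarith
  have hs1 : s ≤ 1 / 400 := hsZ.trans hZ400
  have hgt : gt B W t x = x * w := by
    unfold gt ph
    rw [← hv, hwdef, hs]
    field_simp
    ring
  rw [hgt] at hm ⊢
  set G : ℝ := x * w with hG
  set U : ℝ := 1 + W * m with hU
  have hUG : |G - U| ≤ W * Δ := by
    have h1 : G - U = W * ((G - 1) / W - m) := by
      rw [hU]
      field_simp
      ring
    rw [h1, abs_mul, abs_of_pos (by linarith : (0 : ℝ) < W)]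
    gcongr
  have hUG' := abs_le.mp hUG
  have hWΔ : W * Δ ≤ W := by nlinarith
  have p3 : s ^ 3 ≤ s := by
    have : s ^ 2 ≤ 1 := pow_le_one₀ hs0 (by linarith)
    nlinarith
  have p4 : s ^ 4 ≤ s := by
    have : s ^ 3 ≤ 1 := pow_le_one₀ hs0 (by linarith)
    nlinarith
  have q3 : 0 ≤ s ^ 3 := by positivity
  have q4 : 0 ≤ s ^ 4 := by positivity
  have hw1 : 1 ≤ w := by rw [hwdef]; linarith
  have hw2 : w ≤ 1 + 1 / 400 := by rw [hwdef]; linarith
  have hGx : x ≤ G := by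
    rw [hG]
    nlinarith
  have hGZ : G ≤ 2 * Z * (1 + 1 / 400) := by
    rw [hG]
    have := hx.2
    gcongr
  have hxZ := hx.1
  have hU3 : U ≤ 3 * Z := by linarith
  have hUpos : 0 < U := by linarith
  have hmpos : 0 ≤ 1 + (W : ℤ) * m := by
    have : (0 : ℝ) < ((1 + (W : ℤ) * m : ℤ) : ℝ) := by
      push_cast
      exact hUpos
    have h2 : (0 : ℤ) < 1 + (W : ℤ) * m := by exact_mod_cast this
    exact h2.le
  obtain ⟨u, hu⟩ := Int.eq_ofNat_of_zero_le hmpos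
  have huU : (u : ℝ) = U := by
    rw [hU]
    have : ((1 + (W : ℤ) * m : ℤ) : ℝ) = ((u : ℤ) : ℝ) := by rw [hu]
    push_cast at this
    exact this.symm
  have hvZ : v ≤ Z / 20 := by
    have : v ^ 2 ≤ (Z / 20) ^ 2 := by
      calc v ^ 2 ≤ Z ^ 2 / 400 := hw
        _ = _ := by ring
    exact le_of_pow_le_pow_left₀ (by norm_num) (by positivity) this
  refine ⟨u, by rw [hu], ?_, ?_, ?_, ?_⟩
  · rw [huU]
    linarith
  · rw [huU]
    exact hU3
  · rw [huU]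
    exact hUG
  · rw [huU]
    have h3 : G ^ 3 - v ^ 2 * G = x ^ 3 + x ^ 3 * (w ^ 3 - s * w - 1) := by
      rw [hG, hs]
      field_simp
      ring
    have hr1 : 0 ≤ x ^ 3 * (w ^ 3 - s * w - 1) := by
      have h2 := (rho s hs0 (by linarith)).1
      rw [← hwdef] at h2
      positivity
    have hr2 : x ^ 3 * (w ^ 3 - s * w - 1) ≤ Z ^ 2 * W * Δ := by
      have h2 := (rho s hs0 (by linarith)).2
      rw [← hwdef] at h2
      have h4 := h.err ht
      rw [← hv] at h4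
      have h5 : x ^ 3 * (w ^ 3 - s * w - 1) ≤ (2 * Z) ^ 3 * ((v ^ 2 / Z ^ 2) ^ 6 / 100) := by
        have h6 : x ^ 3 ≤ (2 * Z) ^ 3 := by
          have := hx.2
          gcongr
        have h7 : s ^ 6 ≤ (v ^ 2 / Z ^ 2) ^ 6 := by gcongr
        calc x ^ 3 * (w ^ 3 - s * w - 1) ≤ x ^ 3 * (s ^ 6 / 100) := by gcongr
          _ ≤ _ := by gcongr
      have h6 : (2 * Z) ^ 3 * ((v ^ 2 / Z ^ 2) ^ 6 / 100) =
          (8 / 100) * Z ^ 2 * (Z * (v ^ 2 / Z ^ 2) ^ 6) := by ring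
      have h7 : (8 / 100) * Z ^ 2 * (Z * (v ^ 2 / Z ^ 2) ^ 6) ≤ (8 / 100) * Z ^ 2 * (1 / T) := by
        gcongr
      have h8 : (8 / 100) * Z ^ 2 * (1 / (T : ℝ)) ≤ Z ^ 2 * W * Δ := by
        calc (8 / 100) * Z ^ 2 * (1 / (T : ℝ)) ≤ (8 / 100) * Z ^ 2 * (1 / L) := by gcongr
          _ ≤ (8 / 100) * Z ^ 2 * Δ := by gcongr
          _ = (8 / 100) * (Z ^ 2 * Δ) := by ring
          _ ≤ W * (Z ^ 2 * Δ) := by
              gcongr
              linarith
          _ = _ := by ring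
      linarith
    have h2 : (U ^ 3 - v ^ 2 * U) - (G ^ 3 - v ^ 2 * G) =
        (U - G) * (U ^ 2 + U * G + G ^ 2 - v ^ 2) := by ring
    have hG3 : G ≤ 3 * Z := by linarith
    have hG0 : 0 < G := by linarith
    have h4 : |U ^ 2 + U * G + G ^ 2 - v ^ 2| ≤ 27 * Z ^ 2 := by
      have h5 : U ^ 2 ≤ (3 * Z) ^ 2 := by gcongr
      have h6 : U * G ≤ (3 * Z) * (3 * Z) := by gcongr
      have h7 : G ^ 2 ≤ (3 * Z) ^ 2 := by gcongr
      have h8 : 0 ≤ v ^ 2 := by positivity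
      have h9 : v ^ 2 ≤ G ^ 2 := by
        have : v ≤ G := by linarith
        gcongr
      have h10 : 0 ≤ U ^ 2 := by positivity
      have h11 : 0 ≤ U * G := mul_nonneg hUpos.le hG0.le
      rw [abs_le]
      constructor
      · nlinarith
      · nlinarith
    have h5 : |(U ^ 3 - v ^ 2 * U) - (G ^ 3 - v ^ 2 * G)| ≤ W * Δ * (27 * Z ^ 2) := by
      rw [h2, abs_mul, abs_sub_comm]
      gcongr
    have h6 := abs_le.mp h5
    rw [abs_le]
    constructor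
    · nlinarith
    · nlinarith

/-- the pair `(u, t)` does not lead to a squarefree number, because of a prime above `D` -/
def BadP2 (D B W u t : ℕ) : Prop :=
  ∃ p : ℕ, p.Prime ∧ D < p ∧ ((p ∣ u ∧ p ∣ t) ∨ ((p ^ 2 : ℕ) : ℤ) ∣ (u : ℤ) - 0 ∨
    ((p ^ 2 : ℕ) : ℤ) ∣ (u : ℤ) - (B * W ^ 2 * t ^ 2 : ℤ) ∨
    ((p ^ 2 : ℕ) : ℤ) ∣ (u : ℤ) - (-(B * W ^ 2 * t ^ 2) : ℤ))

open Classical in
/-- the set of bad pairs -/
noncomputable def BadS2 (D B W N T : ℕ) : Finset (ℕ × ℕ) :=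
  ((range (N + 1)) ×ˢ (Ioc T (2 * T))).filter
    (fun x => x.1 ≡ 1 [MOD W] ∧ B * W ^ 2 * x.2 ^ 2 < x.1 ∧ BadP2 D B W x.1 x.2)

lemma bad_card2 (B W N T D : ℕ) (hW : 1 ≤ W) (hD : 1 ≤ D) :
    ((BadS2 D B W N T).card : ℝ) ≤
      5 * T * N / (W * D) + 4 * T ^ 2 + 3 * T * Real.sqrt (2 * N) := by
  set R : ℕ := Nat.sqrt (2 * N) with hR
  have hsub : BadS2 D B W N T ⊆ S1 W N T D ∪ (S2 W N T D R (fun _ => 0) ∪
      (S2 W N T D R (fun t => (B * W ^ 2 * t ^ 2 : ℤ)) ∪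
        S2 W N T D R (fun t => (-(B * W ^ 2 * t ^ 2) : ℤ)))) := by
    classical
    rintro ⟨u, t⟩ hx
    unfold BadS2 at hx
    rw [Finset.mem_filter, Finset.mem_product] at hx
    obtain ⟨⟨hu, ht⟩, hmod, hlt, p, hp, hpD, hbad⟩ := hx
    simp only at hu ht hmod hlt hbad
    have hu' := Finset.mem_range.mp hu
    have ht' := Finset.mem_Ioc.mp ht
    have hp2 := hp.two_le
    have hWv : (W : ℤ) ∣ (B * W ^ 2 * t ^ 2 : ℤ) := ⟨B * W * t ^ 2, by ring⟩
    have hgen : ∀ (e : ℕ → ℤ), (W : ℤ) ∣ e t → 0 < (u : ℤ) - e t → (u : ℤ) - e t ≤ 2 * N →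
        ((p ^ 2 : ℕ) : ℤ) ∣ (u : ℤ) - e t → (u, t) ∈ S2 W N T D R e := by
      intro e h1 h2 h3 h4
      unfold S2
      rw [Finset.mem_biUnion]
      refine ⟨t, ht, ?_⟩
      rw [Finset.mem_biUnion]
      refine ⟨p, ?_, ?_⟩
      · rw [Finset.mem_Ioc]
        refine ⟨hpD, ?_⟩
        have h5 := Int.le_of_dvd h2 h4
        have h6 : p ^ 2 ≤ 2 * N := by
          have : ((p ^ 2 : ℕ) : ℤ) ≤ ((2 * N : ℕ) : ℤ) := by
            push_cast at h5 ⊢
            linarith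
          exact_mod_cast this
        rw [hR, Nat.le_sqrt]
        nlinarith
      · rw [Finset.mem_product]
        refine ⟨?_, Finset.mem_singleton_self _⟩
        unfold Aset
        rw [Finset.mem_filter]
        exact ⟨hu, hmod, h4⟩
    have hltZ : (B * W ^ 2 * t ^ 2 : ℤ) < u := by exact_mod_cast hlt
    have huN : (u : ℤ) ≤ N := by
      have : u ≤ N := by omega
      exact_mod_cast this
    have hv0 : (0 : ℤ) ≤ (B * W ^ 2 * t ^ 2 : ℤ) := by positivity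
    rw [Finset.mem_union, Finset.mem_union, Finset.mem_union]
    rcases hbad with ⟨h1, h2⟩ | h1 | h1 | h1
    · left
      unfold S1
      rw [Finset.mem_biUnion]
      refine ⟨p, ?_, ?_⟩
      · rw [Finset.mem_Ioc]
        constructor
        · exact hpD
        · have := Nat.le_of_dvd (by omega) h2
          omega
      · rw [Finset.mem_product, Finset.mem_filter]
        refine ⟨?_, ht, h2⟩
        unfold Aset
        rw [Finset.mem_filter]
        refine ⟨hu, hmod, ?_⟩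
        rw [sub_zero]
        exact_mod_cast h1
    · right; left
      apply hgen (fun _ => 0) (dvd_zero _) _ _ h1
      · linarith
      · linarith
    · right; right; left
      apply hgen (fun t => (B * W ^ 2 * t ^ 2 : ℤ)) hWv _ _ h1
      · linarith
      · linarith
    · right; right; right
      apply hgen (fun t => (-(B * W ^ 2 * t ^ 2) : ℤ)) (dvd_neg.mpr hWv) _ _ h1
      · linarith
      · linarith
  have h1 := Finset.card_le_card hsub
  have h2 : (S1 W N T D ∪ (S2 W N T D R (fun _ => 0) ∪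
      (S2 W N T D R (fun t => (B * W ^ 2 * t ^ 2 : ℤ)) ∪
        S2 W N T D R (fun t => (-(B * W ^ 2 * t ^ 2) : ℤ))))).card ≤
      (S1 W N T D).card + ((S2 W N T D R (fun _ => 0)).card +
      ((S2 W N T D R (fun t => (B * W ^ 2 * t ^ 2 : ℤ))).card +
        (S2 W N T D R (fun t => (-(B * W ^ 2 * t ^ 2) : ℤ))).card)) := by
    refine (Finset.card_union_le _ _).trans ?_
    gcongr
    refine (Finset.card_union_le _ _).trans ?_
    gcongr
    exact Finset.card_union_le _ _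
  have h3 : ((BadS2 D B W N T).card : ℝ) ≤ (S1 W N T D).card +
      ((S2 W N T D R (fun _ => 0)).card +
      ((S2 W N T D R (fun t => (B * W ^ 2 * t ^ 2 : ℤ))).card +
        (S2 W N T D R (fun t => (-(B * W ^ 2 * t ^ 2) : ℤ))).card)) := by
    exact_mod_cast h1.trans h2
  have hRr : (R : ℝ) ≤ Real.sqrt (2 * N) := by
    rw [hR]
    have := Real.nat_sqrt_le_real_sqrt (a := 2 * N)
    push_cast at this
    exact this
  have hv : ∀ t : ℕ, (W : ℤ) ∣ (B * W ^ 2 * t ^ 2 : ℤ) := fun t => ⟨B * W * t ^ 2, by ring⟩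
  have c1 := S1_card W N T D hW hD
  have c2 := S2_card W N T D R (fun _ => 0) hW hD (fun _ => dvd_zero _)
  have c3 := S2_card W N T D R (fun t => (B * W ^ 2 * t ^ 2 : ℤ)) hW hD hv
  have c4 := S2_card W N T D R (fun t => (-(B * W ^ 2 * t ^ 2) : ℤ)) hW hD
    (fun t => dvd_neg.mpr (hv t))
  have hW0 : (0 : ℝ) < W := by exact_mod_cast hW
  have hD0 : (0 : ℝ) < D := by exact_mod_cast hD
  calc ((BadS2 D B W N T).card : ℝ) ≤ (2 * T * N / (W * D) + 4 * T ^ 2) +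
        (T * (N / (W * D) + R) + (T * (N / (W * D) + R) + T * (N / (W * D) + R))) := by
        linarith
    _ = 5 * T * N / (W * D) + 4 * T ^ 2 + 3 * T * R := by ring
    _ ≤ _ := by gcongr

/-- there is a good number near `B x ^ 3` -/
def Good2 (B W z : ℕ) (H x : ℝ) : Prop :=
  ∃ m : ℕ, Squarefree (B * m) ∧ m ≡ 1 [MOD W] ∧ Cong (B * m) ∧
    (∀ p : ℕ, p.Prime → p ∣ m → z ≤ p) ∧ |((B * m : ℕ) : ℝ) - B * x ^ 3| ≤ H

lemma arith2 (B W u t z0 J : ℕ) (hB : Squarefree B) (hBW : B ∣ W) (h2 : 2 ∣ W) (hW : 1 ≤ W)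
    (ht : 1 ≤ t) (hu : u ≡ 1 [MOD W]) (hv : vn B W t < u)
    (hWp : ∀ p : ℕ, p.Prime → p ≤ z0 → p ∣ W)
    (hsift : ∀ p ∈ Pz z0 J, ¬ p ∣ u * ((u - vn B W t) * (u + vn B W t)))
    (hgood : ¬ BadP2 (2 ^ 2 ^ J - 1) B W u t) :
    ∃ m : ℕ, ((B * m : ℕ) : ℝ) = B * ((u : ℝ) ^ 3 - (vv B W t) ^ 2 * u) ∧ Squarefree (B * m) ∧
      m ≡ 1 [MOD W] ∧ Cong (B * m) ∧ (∀ p : ℕ, p.Prime → p ∣ m → 2 ^ 2 ^ J ≤ p) := by
  set v : ℕ := vn B W t with hvdef
  have hvW : W ∣ v := ⟨B * W * t ^ 2, by rw [hvdef]; unfold vn; ring⟩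
  have hle : v ≤ u := hv.le
  set m : ℕ := u * ((u - v) * (u + v)) with hm
  have hmod : m ≡ 1 [MOD W] := by
    have h1 : v ≡ 0 [MOD W] := (Nat.modEq_zero_iff_dvd).mpr hvW
    have h2 : u + v ≡ 1 [MOD W] := by
      have := hu.add h1
      simpa using this
    have hsub : (u - v) + v = u := Nat.sub_add_cancel hle
    have h3 : u - v ≡ 1 [MOD W] := by
      have h4 : (u - v) + v ≡ 1 + v [MOD W] := by
        rw [hsub]
        calc u ≡ 1 [MOD W] := hu
          _ = 1 + 0 := rfl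
          _ ≡ 1 + v [MOD W] := (Nat.ModEq.refl 1).add h1.symm
      exact Nat.ModEq.add_right_cancel' v h4
    have h5 := hu.mul (h3.mul h2)
    simpa using h5
  have hprime : ∀ p : ℕ, p.Prime → p ∣ m → 2 ^ 2 ^ J ≤ p := by
    intro p hp hpm
    by_contra hcon
    push Not at hcon
    rcases Nat.lt_or_ge z0 p with h3 | h3
    · exact hsift p ((Pz_mem z0 J p).mpr ⟨hcon, hp, h3⟩) hpm
    · have h4 := hWp p hp h3
      have h5 : m ≡ 1 [MOD p] := hmod.of_dvd h4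
      have h6 : m ≡ 0 [MOD p] := (Nat.modEq_zero_iff_dvd).mpr hpm
      have h7 : 1 ≡ 0 [MOD p] := h5.symm.trans h6
      have h8 : p ∣ 1 := (Nat.modEq_zero_iff_dvd).mp h7
      exact hp.one_lt.ne' (Nat.dvd_one.mp h8)
  have hbad : ¬ BadP B W u t := by
    rintro ⟨p, hp, hpb⟩
    have hlt : ¬ 2 ^ 2 ^ J ≤ p := by
      intro h3
      have h4 : 2 ^ 2 ^ J - 1 < p := by
        have : 1 ≤ 2 ^ 2 ^ J := Nat.one_le_two_pow
        omega
      exact hgood ⟨p, hp, h4, hpb⟩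
    apply hlt
    apply hprime p hp
    rw [hm]
    have hsq : ∀ n : ℕ, ((p ^ 2 : ℕ) : ℤ) ∣ (n : ℤ) → p ∣ n := by
      intro n hn
      have h3 : p ^ 2 ∣ n := by exact_mod_cast hn
      exact (dvd_pow_self p (by norm_num)).trans h3
    rcases hpb with ⟨h3, _⟩ | h3 | h3 | h3
    · exact Dvd.dvd.mul_right h3 _
    · rw [sub_zero] at h3
      exact Dvd.dvd.mul_right (hsq u h3) _
    · have h4 : (u : ℤ) - (B * W ^ 2 * t ^ 2 : ℤ) = ((u - v : ℕ) : ℤ) := by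
        rw [Nat.cast_sub hle, hvdef]
        unfold vn
        push_cast
        ring
      rw [h4] at h3
      exact Dvd.dvd.mul_left (Dvd.dvd.mul_right (hsq _ h3) _) _
    · have h4 : (u : ℤ) - (-(B * W ^ 2 * t ^ 2) : ℤ) = ((u + v : ℕ) : ℤ) := by
        rw [hvdef]
        unfold vn
        push_cast
        ring
      rw [h4] at h3
      exact Dvd.dvd.mul_left (Dvd.dvd.mul_left (hsq _ h3) _) _
  obtain ⟨n, hn1, hn2, hn3, hn4⟩ := arith B W u t hB hBW h2 hW ht hu hv hbad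
  have hcast : ((B * m : ℕ) : ℝ) = B * ((u : ℝ) ^ 3 - (vv B W t) ^ 2 * u) := by
    have h1 : (((u - v : ℕ)) : ℝ) = (u : ℝ) - v := by
      rw [Nat.cast_sub hle]
    rw [hm]
    push_cast
    rw [h1]
    have h2 : (v : ℝ) = vv B W t := by
      rw [hvdef]
      unfold vv vn
      push_cast
      ring
    rw [h2]
    ring
  have hnm : n = B * m := by
    have : (n : ℝ) = ((B * m : ℕ) : ℝ) := by rw [hn1, hcast]
    exact_mod_cast this
  rw [hnm] at hn2 hn4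
  exact ⟨m, hcast, hn2, hmod, hn4, hprime⟩

end Pool.Agent.Q148.PS
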