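import Pool.Agent.Q148.PS.Loc
import Pool.Agent.Q148.CN.Fin

set_option autoImplicit false

/-! # Almost prime congruent numbers in almost all short intervals -/

namespace Pool.Agent.Q148.PS

open Finset MeasureTheory Pool.Agent.Q148.CN Pool.Agent.Y882

/-- the short interval after `x` contains a squarefree congruent number `B m` with `m` almost
prime and `m ≡ 1` modulo `W` -/
def PK2 (B W R : ℕ) (θ : ℝ) (x : ℕ) : Prop :=
  ∃ m : ℕ, m ≡ 1 [MOD W] ∧ Squarefree (B * m) ∧ Cong (B * m) ∧ m.primeFactorsList.length ≤ R ∧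
    (∀ p : ℕ, p.Prime → p ∣ m → x ≤ p ^ R) ∧ x ≤ B * m ∧
    ((B * m : ℕ) : ℝ) ≤ x + (x : ℝ) ^ θ

lemma omega_le (m z R X : ℕ) (hm : m ≠ 0) (hz : 1 ≤ z) (hp : ∀ p : ℕ, p.Prime → p ∣ m → z ≤ p)
    (hmX : m < z ^ (R + 1)) (hX : X = R) : m.primeFactorsList.length ≤ X := by
  rw [hX]
  by_contra hcon
  push Not at hcon
  have h1 : z ^ m.primeFactorsList.length ≤ m := by
    have h2 : z ^ m.primeFactorsList.length ≤ m.primeFactorsList.prod := by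
      apply List.pow_card_le_prod
      intro p hpm
      exact hp p (Nat.prime_of_mem_primeFactorsList hpm) (Nat.dvd_of_mem_primeFactorsList hpm)
    rwa [Nat.prod_primeFactorsList hm] at h2
  have h3 : z ^ (R + 1) ≤ z ^ m.primeFactorsList.length := Nat.pow_le_pow_right hz hcon
  omega

lemma pow_aux (a E : ℕ) : (a ^ (2 * E)) ^ 8 = (a ^ 4) ^ (4 * E) := by
  rw [← pow_mul, ← pow_mul, show 2 * E * 8 = 4 * (4 * E) by ring]

/-- the length of the short intervals -/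
lemma H_bound (B W : ℝ) (a θ : ℝ) (hB : 1 ≤ B) (hW : 1 ≤ W) (ha0 : 0 ≤ a) (ha1 : a < 1)
    (hθ : 0 < θ - 11 / 21 - a / 7) : ∃ X₁ : ℝ, 1 ≤ X₁ ∧ ∀ (x Z τ T q H : ℝ), X₁ ≤ x → 0 < Z →
      Z ≤ x ^ (1 / 3 : ℝ) → τ = Z ^ (3 / 7 : ℝ) → 1 ≤ T → τ ≤ 2 * T → T ≤ τ → 0 ≤ q →
      q ≤ T ^ a → H = 56 * B * W * Z ^ 2 * q / T → 1 + 2 * H ≤ x ^ θ ∧ H ≤ x := by
  obtain ⟨X₁, hX₁⟩ : ∃ X₁ : ℝ, ∀ x : ℝ, X₁ ≤ x →
      224 * B * W + 1 ≤ x ^ (θ - 11 / 21 - a / 7) := by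
    have h1 := tendsto_rpow_atTop hθ
    have h2 := h1.eventually_ge_atTop (224 * B * W + 1)
    rw [Filter.eventually_atTop] at h2
    exact h2
  have hκ2 : 0 < 10 / 21 - a / 7 := by linarith
  obtain ⟨X₂, hX₂⟩ : ∃ X₂ : ℝ, ∀ x : ℝ, X₂ ≤ x → 112 * B * W ≤ x ^ (10 / 21 - a / 7) := by
    have h1 := tendsto_rpow_atTop hκ2
    have h2 := h1.eventually_ge_atTop (112 * B * W : ℝ)
    rw [Filter.eventually_atTop] at h2
    exact h2
  refine ⟨max 1 (max X₁ X₂), le_max_left _ _, ?_⟩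
  intro x Z τ T q H hx hZ0 hZx hτ hT1 hτT hTτ hq0 hq hH
  have hx1 : 1 ≤ x := (le_max_left _ _).trans hx
  have hxX : X₁ ≤ x := ((le_max_left _ _).trans (le_max_right _ _)).trans hx
  have hxX2 : X₂ ≤ x := ((le_max_right _ _).trans (le_max_right _ _)).trans hx
  have hx0 : 0 < x := by linarith
  have hTpos : 0 < T := by linarith
  have hτpos : 0 < τ := by linarith
  have h1 : q ≤ τ ^ a := hq.trans (by gcongr)
  have h2 : H ≤ 112 * B * W * (Z ^ 2 * τ ^ a / τ) := by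
    rw [hH, div_le_iff₀ hTpos]
    calc 56 * B * W * Z ^ 2 * q ≤ 56 * B * W * Z ^ 2 * τ ^ a := by gcongr
      _ = 56 * B * W * (Z ^ 2 * τ ^ a / τ) * τ := by field_simp
      _ ≤ 56 * B * W * (Z ^ 2 * τ ^ a / τ) * (2 * T) := by gcongr
      _ = _ := by ring
  have h3 : Z ^ 2 * τ ^ a / τ = Z ^ (11 / 7 + 3 * a / 7) := by
    rw [hτ, ← Real.rpow_mul hZ0.le, ← Real.rpow_natCast, ← Real.rpow_add hZ0,
      ← Real.rpow_sub hZ0]
    congr 1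
    push_cast
    ring
  have h4 : Z ^ (11 / 7 + 3 * a / 7) ≤ x ^ (11 / 21 + a / 7) := by
    calc Z ^ (11 / 7 + 3 * a / 7) ≤ (x ^ (1 / 3 : ℝ)) ^ (11 / 7 + 3 * a / 7) := by gcongr
      _ = _ := by
          rw [← Real.rpow_mul hx0.le]
          congr 1
          ring
  have h5 := hX₁ x hxX
  have h6 : 1 ≤ x ^ (11 / 21 + a / 7) := Real.one_le_rpow hx1 (by positivity)
  have h7 : x ^ θ = x ^ (θ - 11 / 21 - a / 7) * x ^ (11 / 21 + a / 7) := by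
    rw [← Real.rpow_add hx0]
    congr 1
    ring
  have h8 : H ≤ 112 * B * W * x ^ (11 / 21 + a / 7) := by
    refine h2.trans ?_
    rw [h3]
    gcongr
  constructor
  · rw [h7]
    calc 1 + 2 * H ≤ x ^ (11 / 21 + a / 7) + 2 * (112 * B * W * x ^ (11 / 21 + a / 7)) := by
          gcongr
      _ = (224 * B * W + 1) * x ^ (11 / 21 + a / 7) := by ring
      _ ≤ _ := by gcongr
  · have h9 := hX₂ x hxX2
    have h10 : x = x ^ (10 / 21 - a / 7) * x ^ (11 / 21 + a / 7) := by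
      rw [← Real.rpow_add hx0]
      have : (10 / 21 - a / 7) + (11 / 21 + a / 7) = (1 : ℝ) := by ring
      rw [this, Real.rpow_one]
    calc H ≤ 112 * B * W * x ^ (11 / 21 + a / 7) := h8
      _ ≤ x ^ (10 / 21 - a / 7) * x ^ (11 / 21 + a / 7) := by gcongr
      _ = x := h10.symm

/-- counting by measure -/
lemma pack (B : ℕ) (hB1 : 1 ≤ B) (H Y Z m : ℝ) (hH0 : 0 ≤ H) (hZ0 : 0 < Z)
    (hZ : Z = cb B (Y / 4)) (hZ3 : B * Z ^ 3 = Y / 4) (hY0 : 0 < Y) (hHY : H ≤ Y)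
    (S : Finset ℕ) (hS : ∀ x ∈ S, Y / 4 ≤ (x : ℝ) ∧ (x : ℝ) + 1 ≤ Y) (Ms : Set ℝ)
    (hMvol : volume.real (Ms ∩ Set.Ioc Z (2 * Z)) ≤ m)
    (hMs : ∀ x ∈ S, ∀ ξ ∈ Set.Icc Z (2 * Z), (x : ℝ) + H ≤ B * ξ ^ 3 → B * ξ ^ 3 ≤ x + 1 + H →
      ξ ∈ Ms) : (S.card : ℝ) ≤ m * (12 * B * Z ^ 2) := by
  have hB0 : (1 : ℝ) ≤ B := by exact_mod_cast hB1
  set f : ℕ → ℝ := fun x => cb B ((x : ℝ) + H) with hf
  set I : ℕ → Set ℝ := fun x => Set.Ioc (f x) (f (x + 1)) with hI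
  have hmonof : Monotone f := by
    intro x x' hxy
    apply cb_mono B _ _ (by positivity)
    have : (x : ℝ) ≤ x' := by exact_mod_cast hxy
    linarith
  have hdisj : (S : Set ℕ).PairwiseDisjoint I := by
    have h3 := hmonof.pairwise_disjoint_on_Ioc_succ
    intro x _ y _ hxy
    exact h3 hxy
  have hsub : (⋃ x ∈ S, I x) ⊆ Ms ∩ Set.Ioc Z (2 * Z) := by
    intro ξ hξ
    rw [Set.mem_iUnion₂] at hξ
    obtain ⟨x, hxS, hξx⟩ := hξ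
    obtain ⟨h3, h4⟩ := hS x hxS
    have hξ1 : cb B ((x : ℝ) + H) < ξ := hξx.1
    have hξ2 : ξ ≤ cb B (((x + 1 : ℕ) : ℝ) + H) := hξx.2
    have hZξ : Z < ξ := by
      rw [hZ]
      exact lt_of_le_of_lt (cb_mono B _ _ (by linarith) (by linarith)) hξ1
    have hξ0 : 0 < ξ := hZ0.trans hZξ
    have hcx := cb_cube B hB1 ((x : ℝ) + H) (by positivity)
    have hcx1 := cb_cube B hB1 (((x + 1 : ℕ) : ℝ) + H) (by positivity)
    have hl : (x : ℝ) + H ≤ B * ξ ^ 3 := by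
      rw [← hcx]
      have := cb_nonneg B ((x : ℝ) + H) (by positivity)
      gcongr
    have hr : B * ξ ^ 3 ≤ x + 1 + H := by
      calc B * ξ ^ 3 ≤ B * (cb B (((x + 1 : ℕ) : ℝ) + H)) ^ 3 := by gcongr
        _ = ((x + 1 : ℕ) : ℝ) + H := hcx1
        _ = _ := by push_cast; ring
    have hξZ : ξ ≤ 2 * Z := by
      have h6 : ξ ^ 3 ≤ (2 * Z) ^ 3 := by
        have h7 : B * ξ ^ 3 ≤ B * (2 * Z) ^ 3 := by
          calc B * ξ ^ 3 ≤ x + 1 + H := hr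
            _ ≤ 2 * Y := by linarith
            _ = 8 * (B * Z ^ 3) := by rw [hZ3]; ring
            _ = _ := by ring
        exact le_of_mul_le_mul_left h7 (by linarith)
      exact le_of_pow_le_pow_left₀ (by norm_num) (by positivity) h6
    exact ⟨hMs x hxS ξ ⟨hZξ.le, hξZ⟩ hl hr, hZξ, hξZ⟩
  have hvol : volume.real (⋃ x ∈ S, I x) = ∑ x ∈ S, volume.real (I x) := by
    apply measureReal_biUnion_finset hdisj (fun x _ => measurableSet_Ioc)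
      (fun x _ => by
        rw [hI]
        simp only
        rw [Real.volume_Ioc]
        exact ENNReal.ofReal_ne_top)
  have hlen : ∀ x ∈ S, 1 / (12 * B * Z ^ 2) ≤ volume.real (I x) := by
    intro x hxS
    obtain ⟨h3, h4⟩ := hS x hxS
    have hcx := cb_cube B hB1 ((x : ℝ) + H) (by positivity)
    have hcx1 := cb_cube B hB1 (((x + 1 : ℕ) : ℝ) + H) (by positivity)
    have ha0 := cb_nonneg B ((x : ℝ) + H) (by positivity)
    have hab : f x ≤ f (x + 1) := hmonof (Nat.le_succ x)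
    have hI2 : I x = Set.Ioc (f x) (f (x + 1)) := rfl
    rw [hI2, Real.volume_real_Ioc_of_le hab]
    have hfx : f x = cb B ((x : ℝ) + H) := rfl
    have hfx1 : f (x + 1) = cb B (((x + 1 : ℕ) : ℝ) + H) := rfl
    rw [← hfx] at hcx ha0
    rw [← hfx1] at hcx1
    clear_value f
    have hb0 : 0 ≤ f (x + 1) := ha0.trans hab
    have hb2 : f (x + 1) ≤ 2 * Z := by
      have h6 : f (x + 1) ^ 3 ≤ (2 * Z) ^ 3 := by
        have h7 : B * f (x + 1) ^ 3 ≤ B * (2 * Z) ^ 3 := by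
          calc B * f (x + 1) ^ 3 = ((x + 1 : ℕ) : ℝ) + H := hcx1
            _ = x + 1 + H := by push_cast; ring
            _ ≤ 2 * Y := by linarith
            _ = 8 * (B * Z ^ 3) := by rw [hZ3]; ring
            _ = _ := by ring
        exact le_of_mul_le_mul_left h7 (by linarith)
      exact le_of_pow_le_pow_left₀ (by norm_num) (by positivity) h6
    have hdiff : B * ((f (x + 1) - f x) * (f (x + 1) ^ 2 + f x * f (x + 1) + f x ^ 2)) = 1 := by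
      have h6 : B * ((f (x + 1) - f x) * (f (x + 1) ^ 2 + f x * f (x + 1) + f x ^ 2)) =
          B * f (x + 1) ^ 3 - B * f x ^ 3 := by ring
      rw [h6, hcx, hcx1]
      push_cast
      ring
    have hq : f (x + 1) ^ 2 + f x * f (x + 1) + f x ^ 2 ≤ 12 * Z ^ 2 := by
      have ha2 : f x ≤ 2 * Z := hab.trans hb2
      have h6 : f (x + 1) ^ 2 ≤ (2 * Z) ^ 2 := by gcongr
      have h7 : f x * f (x + 1) ≤ (2 * Z) * (2 * Z) := by gcongr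
      have h8 : f x ^ 2 ≤ (2 * Z) ^ 2 := by gcongr
      linarith
    rw [div_le_iff₀ (by positivity)]
    have hba : 0 ≤ f (x + 1) - f x := by linarith
    calc (1 : ℝ) = B * ((f (x + 1) - f x) *
          (f (x + 1) ^ 2 + f x * f (x + 1) + f x ^ 2)) := hdiff.symm
      _ ≤ B * ((f (x + 1) - f x) * (12 * Z ^ 2)) := by gcongr
      _ = _ := by ring
  have h3 : (S.card : ℝ) * (1 / (12 * B * Z ^ 2)) ≤ m := by
    calc (S.card : ℝ) * (1 / (12 * B * Z ^ 2)) = ∑ x ∈ S, 1 / (12 * (B : ℝ) * Z ^ 2) := by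
          rw [Finset.sum_const, nsmul_eq_mul]
      _ ≤ ∑ x ∈ S, volume.real (I x) := Finset.sum_le_sum hlen
      _ = volume.real (⋃ x ∈ S, I x) := hvol.symm
      _ ≤ volume.real (Ms ∩ Set.Ioc Z (2 * Z)) := by
          exact measureReal_mono hsub (ne_of_lt (lt_of_le_of_lt
            (measure_mono Set.inter_subset_right)
            (by rw [Real.volume_Ioc]; exact ENNReal.ofReal_lt_top)))
      _ ≤ _ := hMvol
  have h4 : (S.card : ℝ) = (S.card : ℝ) * (1 / (12 * B * Z ^ 2)) * (12 * B * Z ^ 2) := by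
    field_simp
  rw [h4]
  gcongr

/-- the final count -/
lemma final_count (B Y y s : ℝ) (E : ℕ) (hE : 1 ≤ E) (hB : 1 ≤ B) (hY0 : 0 < Y) (hy0 : 0 < y)
    (h6 : Y / (512 * B) ≤ y ^ (14 * E)) (h5 : s ≤ 3 * Y * (1 / y)) :
    s ≤ 3 * (512 * B) ^ (1 / (14 * E : ℝ)) * Y ^ (1 - 1 / (14 * E : ℝ)) := by
  have hE0 : (0 : ℝ) < E := by exact_mod_cast hE
  refine h5.trans ?_
  have h7 : (Y / (512 * B)) ^ (1 / (14 * E : ℝ)) ≤ y := by
    calc (Y / (512 * B)) ^ (1 / (14 * E : ℝ)) ≤ (y ^ (14 * E)) ^ (1 / (14 * E : ℝ)) := by gcongr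
      _ = y := by
          rw [← Real.rpow_natCast, ← Real.rpow_mul hy0.le]
          push_cast
          rw [mul_one_div_cancel (by positivity), Real.rpow_one]
  have h8 : 0 < (Y / (512 * B)) ^ (1 / (14 * E : ℝ)) := by positivity
  calc 3 * Y * (1 / y) ≤ 3 * Y * (1 / (Y / (512 * B)) ^ (1 / (14 * E : ℝ))) := by gcongr
    _ = 3 * (512 * B) ^ (1 / (14 * E : ℝ)) * (Y / Y ^ (1 / (14 * E : ℝ))) := by
        rw [Real.div_rpow hY0.le (by positivity)]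
        field_simp
    _ = _ := by
        rw [Real.rpow_sub hY0, Real.rpow_one]

lemma size_aux (B yn T E n : ℕ) (Y Z : ℝ) (hZ3 : B * Z ^ 3 = Y / 4)
    (hZT2 : Z ^ 3 ≤ 128 * (T : ℝ) ^ 7) (hTB : 1536 * (B : ℝ) ≤ T)
    (hiT2 : T < yn ^ (2 * E)) (hn : (n : ℝ) ≤ 3 * Y) : n < (yn ^ 4) ^ (4 * E) := by
  have h6 : (n : ℝ) ≤ (T : ℝ) ^ 8 := by
    calc (n : ℝ) ≤ 3 * Y := hn
      _ = 12 * B * Z ^ 3 := by
          have : Y = 4 * (B * Z ^ 3) := by rw [hZ3]; ring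
          rw [this]
          ring
      _ ≤ 12 * B * (128 * (T : ℝ) ^ 7) := by gcongr
      _ = (1536 * B) * (T : ℝ) ^ 7 := by ring
      _ ≤ T * (T : ℝ) ^ 7 := by gcongr
      _ = _ := by ring
  have h7 : n ≤ T ^ 8 := by exact_mod_cast h6
  have h8 : T ^ 8 < (yn ^ (2 * E)) ^ 8 := Nat.pow_lt_pow_left hiT2 (by norm_num)
  have h9 := pow_aux yn E
  exact h7.trans_lt (h8.trans_le h9.le)

lemma good_PK (B W yn T E x : ℕ) (θ H Y Z ξ : ℝ) (hB1 : 1 ≤ B) (hyn1 : 1 ≤ yn)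
    (hZ3 : B * Z ^ 3 = Y / 4) (hZT2 : Z ^ 3 ≤ 128 * (T : ℝ) ^ 7) (hTB : 1536 * (B : ℝ) ≤ T)
    (hiT2 : T < yn ^ (2 * E)) (hxY : (x : ℝ) + 1 ≤ Y) (hH1 : 1 + 2 * H ≤ (x : ℝ) ^ θ)
    (hHx : H ≤ x) (hH0 : 0 ≤ H) (hl : (x : ℝ) + H ≤ B * ξ ^ 3) (hr : B * ξ ^ 3 ≤ x + 1 + H)
    (hg : Good2 B W (yn ^ 4) H ξ) : PK2 B W (4 * E) θ x := by
  obtain ⟨m, hm1, hm2, hm3, hm4, hm5⟩ := hg
  have hm5' := abs_le.mp hm5
  have hup : ((B * m : ℕ) : ℝ) ≤ x + 1 + 2 * H := by linarith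
  have hm0 : m ≠ 0 := by
    rintro rfl
    rw [mul_zero] at hm1
    exact not_squarefree_zero hm1
  have hy4 : 1 ≤ yn ^ 4 := Nat.one_le_pow _ _ hyn1
  refine ⟨m, hm2, hm1, hm3, ?_, ?_, ?_, ?_⟩
  · apply omega_le m (yn ^ 4) (4 * E) (4 * E) hm0 hy4 hm4 _ rfl
    have h6 : m < (yn ^ 4) ^ (4 * E) := by
      apply size_aux B yn T E m Y Z hZ3 hZT2 hTB hiT2
      have h7 : (m : ℝ) ≤ ((B * m : ℕ) : ℝ) := by
        have h8 : m ≤ B * m := Nat.le_mul_of_pos_left m hB1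
        exact_mod_cast h8
      linarith
    refine h6.trans_le ?_
    exact Nat.pow_le_pow_right hy4 (by omega)
  · intro p hp hpm
    have h6 : x < (yn ^ 4) ^ (4 * E) := by
      apply size_aux B yn T E x Y Z hZ3 hZT2 hTB hiT2
      have : (0 : ℝ) ≤ x := by positivity
      linarith
    exact h6.le.trans (Nat.pow_le_pow_left (hm4 p hp hpm) _)
  · have : (x : ℝ) ≤ ((B * m : ℕ) : ℝ) := by linarith
    exact_mod_cast this
  · linarith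

lemma block2 (E0 B W E : ℕ) (θ : ℝ) (hB : Squarefree B) (hE : 36 * E0 + 7 ≤ E)
    (hθ : 11 / 21 + (28 * E0 + 4 : ℝ) / (7 * E) < θ) (hW : 2 ≤ W)
    (hloc : ∃ T₀ : ℝ, 1 ≤ T₀ ∧ ∀ (T : ℕ) (Z : ℝ), T₀ ≤ T → 0 < Z → (T : ℝ) ^ 7 ≤ Z ^ 3 →
      Z ^ 3 ≤ 128 * (T : ℝ) ^ 7 →
      ∃ i : ℕ, (2 ^ 2 ^ i) ^ E ≤ T ∧ T < (2 ^ 2 ^ i) ^ (2 * E) ∧
        ∃ Ms : Set ℝ, MeasurableSet Ms ∧
          volume.real (Ms ∩ Set.Ioc Z (2 * Z)) ≤ Z / 2 ^ 2 ^ i ∧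
          ∀ x ∈ Set.Icc Z (2 * Z), ¬ Good2 B W ((2 ^ 2 ^ i) ^ 4)
            (56 * B * W * Z ^ 2 * (2 ^ 2 ^ i) ^ (28 * E0 + 4) / T) x → x ∈ Ms) :
    ∃ C : ℝ, 0 < C ∧ ∃ Y₀ : ℝ, 1 ≤ Y₀ ∧ ∀ Y : ℝ, Y₀ ≤ Y →
      ∀ S : Finset ℕ, (∀ x ∈ S, Y / 4 ≤ x ∧ (x : ℝ) + 1 ≤ Y ∧ ¬ PK2 B W (4 * E) θ x) →
        (S.card : ℝ) ≤ C * Y ^ (1 - 1 / (14 * E : ℝ)) := by
  have hB1 : 1 ≤ B := Nat.one_le_iff_ne_zero.mpr hB.ne_zero
  have hB0 : (1 : ℝ) ≤ B := by exact_mod_cast hB1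
  have hW0 : (1 : ℝ) ≤ W := by exact_mod_cast (by omega : 1 ≤ W)
  have hE7 : 7 ≤ E := by omega
  have hE0 : (7 : ℝ) ≤ E := by exact_mod_cast hE7
  have hE1 : (36 * E0 + 7 : ℝ) ≤ E := by exact_mod_cast hE
  obtain ⟨T₀, hT₀, hasy⟩ := hloc
  obtain ⟨a, ha⟩ : ∃ a : ℝ, a = (28 * E0 + 4 : ℝ) / E := ⟨_, rfl⟩
  have ha0 : 0 ≤ a := by rw [ha]; positivity
  have ha1 : a < 1 := by
    rw [ha, div_lt_one (by linarith)]
    have : (0 : ℝ) ≤ E0 := by positivity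
    linarith
  have hθa : 0 < θ - 11 / 21 - a / 7 := by
    have : (28 * E0 + 4 : ℝ) / (7 * E) = a / 7 := by
      rw [ha]
      field_simp
    rw [this] at hθ
    linarith
  obtain ⟨X₁, hX₁, hHb⟩ := H_bound B W a θ hB0 hW0 ha0 ha1 hθa
  refine ⟨3 * (512 * B) ^ (1 / (14 * E : ℝ)), by positivity,
    4 * B * (T₀ + 1536 * B + 1) ^ 7 + 8 + 4 * X₁, ?_, ?_⟩
  · have : 0 ≤ 4 * (B : ℝ) * (T₀ + 1536 * B + 1) ^ 7 := by positivity
    linarith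
  intro Y hY S hS
  have hp1 : 0 ≤ 4 * (B : ℝ) * (T₀ + 1536 * B + 1) ^ 7 := by positivity
  have hY8 : 8 ≤ Y := by linarith
  have hYX : 4 * X₁ ≤ Y := by linarith
  obtain ⟨Z, hZ⟩ : ∃ Z : ℝ, Z = cb B (Y / 4) := ⟨_, rfl⟩
  have hZ3 : B * Z ^ 3 = Y / 4 := by rw [hZ]; exact cb_cube B hB1 _ (by linarith)
  have hZn : 0 ≤ Z := by rw [hZ]; exact cb_nonneg B _ (by linarith)
  have hZ0 : 0 < Z := by
    rcases hZn.lt_or_eq with h | h
    · exact h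
    · rw [← h] at hZ3
      norm_num at hZ3
      linarith
  obtain ⟨τ, hτ⟩ : ∃ τ : ℝ, τ = Z ^ (3 / 7 : ℝ) := ⟨_, rfl⟩
  have hτ7 : τ ^ 7 = Z ^ 3 := by
    rw [hτ, ← Real.rpow_natCast, ← Real.rpow_mul hZn]
    norm_num
  have hτ0 : 0 ≤ τ := by rw [hτ]; positivity
  have hτT : T₀ + 1536 * B + 1 ≤ τ := by
    have h3 : (T₀ + 1536 * B + 1) ^ 7 ≤ τ ^ 7 := by
      rw [hτ7]
      have h4 : 4 * B * (T₀ + 1536 * B + 1) ^ 7 ≤ 4 * (B * Z ^ 3) := by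
        rw [hZ3]
        linarith
      have h5 : (4 * (B : ℝ)) * (T₀ + 1536 * B + 1) ^ 7 ≤ (4 * B) * Z ^ 3 := by linarith
      exact le_of_mul_le_mul_left h5 (by positivity)
    exact le_of_pow_le_pow_left₀ (by norm_num) hτ0 h3
  obtain ⟨T, hT⟩ : ∃ T : ℕ, T = ⌊τ⌋₊ := ⟨_, rfl⟩
  have hTτ : (T : ℝ) ≤ τ := by rw [hT]; exact Nat.floor_le hτ0
  have hτT1 : τ < T + 1 := by rw [hT]; exact Nat.lt_floor_add_one τ
  have hTT₀ : T₀ ≤ T := by linarith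
  have hTB : 1536 * (B : ℝ) ≤ T := by linarith
  have hT1 : (1 : ℝ) ≤ T := by linarith
  have hTpos : (0 : ℝ) < T := by linarith
  have hτ2T : τ ≤ 2 * T := by linarith
  have hZT1 : (T : ℝ) ^ 7 ≤ Z ^ 3 := by
    rw [← hτ7]
    gcongr
  have hZT2 : Z ^ 3 ≤ 128 * (T : ℝ) ^ 7 := by
    rw [← hτ7]
    calc τ ^ 7 ≤ (2 * (T : ℝ)) ^ 7 := by gcongr
      _ = _ := by ring
  obtain ⟨i, hiT, hiT2, Ms, hMm, hMvol, hMs⟩ := hasy T Z hTT₀ hZ0 hZT1 hZT2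
  clear hasy
  obtain ⟨yn, hyn⟩ : ∃ yn : ℕ, yn = 2 ^ 2 ^ i := ⟨_, rfl⟩
  obtain ⟨y, hyr⟩ : ∃ y : ℝ, y = (yn : ℝ) := ⟨_, rfl⟩
  have hy : (2 : ℝ) ^ 2 ^ i = y := by rw [hyr, hyn]; push_cast; rfl
  rw [← hyn] at hiT hiT2 hMs
  rw [hy] at hMvol hMs
  have hyn1 : 1 ≤ yn := by rw [hyn]; exact Nat.one_le_two_pow
  have hy1 : 1 ≤ y := by rw [hyr]; exact_mod_cast hyn1
  have hy0 : 0 < y := by linarith
  obtain ⟨H, hH⟩ : ∃ H : ℝ, H = 56 * B * W * Z ^ 2 * y ^ (28 * E0 + 4) / T := ⟨_, rfl⟩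
  rw [← hH] at hMs
  have hH0 : 0 ≤ H := by rw [hH]; positivity
  have hq : y ^ (28 * E0 + 4) ≤ (T : ℝ) ^ a := by
    have hyT : y ≤ (T : ℝ) ^ (1 / (E : ℝ)) := by
      have h1 : y ^ E ≤ T := by
        rw [hyr]
        exact_mod_cast hiT
      have h2 : y = (y ^ E) ^ (1 / (E : ℝ)) := by
        rw [← Real.rpow_natCast, ← Real.rpow_mul hy0.le]
        rw [mul_one_div_cancel (by linarith), Real.rpow_one]
      calc y = (y ^ E) ^ (1 / (E : ℝ)) := h2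
        _ ≤ _ := by gcongr
    calc y ^ (28 * E0 + 4) ≤ ((T : ℝ) ^ (1 / (E : ℝ))) ^ (28 * E0 + 4) := by gcongr
      _ = (T : ℝ) ^ a := by
          rw [← Real.rpow_natCast, ← Real.rpow_mul hTpos.le]
          congr 1
          rw [ha]
          push_cast
          ring
  have hHx : ∀ x : ℝ, Y / 4 ≤ x → 1 + 2 * H ≤ x ^ θ ∧ H ≤ x := by
    intro x hx
    have hx0 : 0 < x := by linarith
    apply hHb x Z τ T (y ^ (28 * E0 + 4)) H (by linarith) hZ0 _ hτ hT1 hτ2T hTτ (by positivity) hq hH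
    calc Z = cb B (Y / 4) := hZ
      _ ≤ cb B x := cb_mono B _ _ (by linarith) hx
      _ = (x / B) ^ (1 / 3 : ℝ) := rfl
      _ ≤ x ^ (1 / 3 : ℝ) := by
          have : x / B ≤ x := div_le_self hx0.le hB0
          gcongr
  have hHY : H ≤ Y := by
    have := (hHx (Y / 4) (le_refl _)).2
    linarith
  have hpk := pack B hB1 H Y Z (Z / y) hH0 hZ0 hZ hZ3 (by linarith) hHY S
    (fun x hx => ⟨(hS x hx).1, (hS x hx).2.1⟩) Ms hMvol (by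
      intro x hx ξ hξ hl hr
      apply hMs ξ hξ
      intro hg
      obtain ⟨h3, h4, h5⟩ := hS x hx
      obtain ⟨h6, h7⟩ := hHx x h3
      exact h5 (good_PK B W yn T E x θ H Y Z ξ hB1 hyn1 hZ3 hZT2 hTB hiT2 h4 h6 h7 hH0 hl hr hg))
  have hY0 : 0 < Y := by linarith
  apply final_count B Y y _ E (by omega) hB0 hY0 hy0
  · have h8 : (T : ℝ) ^ 7 ≤ (y ^ (2 * E)) ^ 7 := by
      have : (T : ℝ) ≤ y ^ (2 * E) := by
        rw [hyr]
        exact_mod_cast hiT2.le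
      gcongr
    have h7 : Y = 4 * (B * Z ^ 3) := by rw [hZ3]; ring
    rw [div_le_iff₀ (by positivity)]
    calc Y = 4 * (B * Z ^ 3) := h7
      _ ≤ 4 * (B * (128 * (T : ℝ) ^ 7)) := by gcongr
      _ ≤ 4 * (B * (128 * (y ^ (2 * E)) ^ 7)) := by gcongr
      _ = y ^ (14 * E) * (512 * B) := by
          rw [← pow_mul, show 2 * E * 7 = 14 * E by ring]
          ring
  · calc (S.card : ℝ) ≤ Z / y * (12 * B * Z ^ 2) := hpk
      _ = 12 * (B * Z ^ 3) * (1 / y) := by ring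
      _ = 12 * (Y / 4) * (1 / y) := by rw [hZ3]
      _ = _ := by ring

end Pool.Agent.Q148.PS
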