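import Pool.Agent.Q148.PS.Key

set_option autoImplicit false

/-! # The integral of the function -/

namespace Pool.Agent.Q148.PS

open Finset MeasureTheory Pool.Agent.Q148.CN Pool.Agent.Y882

lemma Iset2_meas (B W : ℕ) (δ : ℝ) (q : ℕ × ℕ) : MeasurableSet (Iset2 B W δ q) := by
  unfold Iset2
  apply measurableSet_le
  · have := gt_meas B W q.2
    fun_prop
  · fun_prop

lemma gt_slope {B W T L : ℕ} {Z : ℝ} (h : Par B W T L Z) (t : ℕ) (ht : t ∈ Ioc T (2 * T))
    (x y : ℝ) (hx : Z ≤ x) (hxy : x ≤ y) (hy : y ≤ 2 * Z) :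
    gt B W t x + 1 / 2 * (y - x) ≤ gt B W t y := by
  have h1 := yt_slope h t ht x y hx hxy hy
  have hW0 : (0 : ℝ) < W := by
    have := h.hW
    exact_mod_cast (by omega : 0 < W)
  have h2 : ∀ z : ℝ, gt B W t z = W * (yt B W L t z - 2 / L) + 1 := by
    intro z
    unfold gt yt ph
    field_simp
    ring
  rw [h2 x, h2 y]
  have h3 : (W : ℝ) * (yt B W L t x + 1 / (2 * W) * (y - x)) ≤ W * yt B W L t y := by gcongr
  have h4 : (W : ℝ) * (1 / (2 * W) * (y - x)) = 1 / 2 * (y - x) := by field_simp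
  linarith

lemma Iset2_vol {B W T L : ℕ} {Z : ℝ} (h : Par B W T L Z) (δ : ℝ) (hδ : 0 ≤ δ) (q : ℕ × ℕ)
    (hq : q.2 ∈ Ioc T (2 * T)) :
    ∫ x in Set.Ioc Z (2 * Z), (Iset2 B W δ q).indicator (fun _ => (1 : ℝ)) x ≤ 8 * δ := by
  have h1 : (Iset2 B W δ q).indicator (fun _ => (1 : ℝ)) = (Iset2 B W δ q).indicator 1 := rfl
  rw [h1, integral_indicator_one (Iset2_meas B W δ q)]
  rw [measureReal_restrict_apply (Iset2_meas B W δ q)]
  by_cases hne : (Iset2 B W δ q ∩ Set.Ioc Z (2 * Z)).Nonempty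
  · obtain ⟨x₀, hx₀, hx₀'⟩ := hne
    have hsub : Iset2 B W δ q ∩ Set.Ioc Z (2 * Z) ⊆ Set.Icc (x₀ - 4 * δ) (x₀ + 4 * δ) := by
      rintro x ⟨hx, hx'⟩
      unfold Iset2 at hx hx₀
      simp only [Set.mem_ofPred_eq] at hx hx₀
      have h3 := abs_le.mp hx
      have h4 := abs_le.mp hx₀
      constructor
      · by_contra hcon
        push Not at hcon
        have h7 := gt_slope h q.2 hq x x₀ hx'.1.le (by linarith) hx₀'.2
        linarith
      · by_contra hcon
        push Not at hcon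
        have h7 := gt_slope h q.2 hq x₀ x hx₀'.1.le (by linarith) hx'.2
        linarith
    calc volume.real (Iset2 B W δ q ∩ Set.Ioc Z (2 * Z)) ≤
        volume.real (Set.Icc (x₀ - 4 * δ) (x₀ + 4 * δ)) := by
          apply measureReal_mono hsub (by rw [Real.volume_Icc]; exact ENNReal.ofReal_ne_top)
      _ = (x₀ + 4 * δ) - (x₀ - 4 * δ) := by
          rw [Real.volume_real_Icc_of_le]
          linarith
      _ = _ := by ring
  · rw [Set.not_nonempty_iff_eq_empty.mp hne]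
    rw [measureReal_empty]
    positivity

lemma wk_triv (y : ℝ) : wk 1 1 y = 1 := by
  unfold wk Dk
  simp [ex_zero]

lemma M1_int {B W T L : ℕ} {Z : ℝ} (h : Par B W T L Z) (k : ℕ) (hk : 1 ≤ k)
    (hbig : ((k : ℝ) + 1) * L * W ≤ T) (hlog : Z * (1 + Real.log T) ≤ T ^ 3) :
    ∫ x in Z..(2 * Z), M1 B W T L k x ≤ (2 + 6 * 4 ^ k * V1 B W k) * (T / L) * Z := by
  have hZ0 := h.hZ0
  have hL1 : 1 ≤ L := by
    have := h.hL
    omega
  have hT1 : 1 ≤ T := by
    have h1 := h.hL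
    have h2 := h.hLT
    omega
  have hL0 : (0 : ℝ) < L := by exact_mod_cast hL1
  have hT0 : (0 : ℝ) < T := by exact_mod_cast hT1
  have hLT : (L : ℝ) ≤ T := by exact_mod_cast h.hLT
  have h1 := variance h k 1 hk (le_refl 1) (Nat.coprime_one_left W) (by
    push_cast
    rw [one_mul]
    exact hbig) hlog (Ioc T (2 * T)) (Finset.Subset.refl _) 0
  set m0 : ℝ := ∫ y in (0 : ℝ)..1, wk L k y with hm0
  have hm1 : 1 / (6 * 4 ^ k * L) ≤ m0 := wk_mean_ge L k hL1
  have hm2 : m0 ≤ 1 / L := wk_mean_le L k hL1 hk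
  have h2 : ∀ x : ℝ, (∑ t ∈ Ioc T (2 * T), Wf B W L k 1 0 t x) -
      (Ioc T (2 * T)).card * m0 / ((1 : ℕ) : ℝ) = M1 B W T L k x - T * m0 := by
    intro x
    unfold Wf M1
    have h3 : ((Ioc T (2 * T)).card : ℝ) = T := by
      rw [Nat.card_Ioc]
      have : 2 * T - T = T := by omega
      rw [this]
    rw [h3]
    simp only [wk_triv, mul_one, Nat.cast_one, div_one]
  simp_rw [h2] at h1
  rw [Nat.cast_one, mul_one] at h1
  set m : ℝ := T * m0 with hm
  have hm0pos : 0 < m0 := lt_of_lt_of_le (by positivity) hm1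
  have hmpos : 0 < m := by rw [hm]; positivity
  have hcont : ContinuousOn (M1 B W T L k) (Set.uIcc Z (2 * Z)) := by
    unfold M1
    apply continuousOn_finsetSum
    intro t _
    exact (wk_cont L k).comp_continuousOn (((gt_cont B W t Z hZ0).sub continuousOn_const).div_const _)
  have h3 : ∫ x in Z..(2 * Z), M1 B W T L k x ≤
      ∫ x in Z..(2 * Z), (2 * m + 1 / m * (M1 B W T L k x - m) ^ 2) := by
    apply intervalIntegral.integral_mono_on (by linarith)
    · exact ContinuousOn.intervalIntegrable hcont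
    · apply ContinuousOn.intervalIntegrable
      exact continuousOn_const.add (continuousOn_const.mul ((hcont.sub continuousOn_const).pow 2))
    · intro x _
      have h4 : 1 / m * (M1 B W T L k x - m) ^ 2 + m ≥ M1 B W T L k x - m := by
        have h5 : 1 / m * (M1 B W T L k x - m) ^ 2 + m - (M1 B W T L k x - m) =
            (1 / m) * (((M1 B W T L k x - m) - m / 2) ^ 2 + 3 / 4 * m ^ 2) := by
          field_simp
          ring
        have h6 : 0 ≤ (1 / m) * (((M1 B W T L k x - m) - m / 2) ^ 2 + 3 / 4 * m ^ 2) := by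
          positivity
        linarith
      linarith
  refine h3.trans ?_
  rw [intervalIntegral.integral_add, intervalIntegral.integral_const,
    intervalIntegral.integral_const_mul]
  · have h4 : 1 / m * ∫ x in Z..(2 * Z), (M1 B W T L k x - m) ^ 2 ≤
        1 / m * (V1 B W k * (T / L) * Z) := by gcongr
    have h5 : 1 / m ≤ 6 * 4 ^ k := by
      rw [div_le_iff₀ hmpos, hm]
      have h6 : (6 : ℝ) * 4 ^ k * (T * m0) ≥ 6 * 4 ^ k * (T * (1 / (6 * 4 ^ k * L))) := by gcongr
      have h7 : (6 : ℝ) * 4 ^ k * (T * (1 / (6 * 4 ^ k * L))) = T / L := by field_simp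
      have h8 : (1 : ℝ) ≤ T / L := by
        rw [le_div_iff₀ hL0]
        linarith
      linarith
    have hV := V1_nonneg B W k
    have h6 : 1 / m * (V1 B W k * (T / L) * Z) ≤ 6 * 4 ^ k * (V1 B W k * (T / L) * Z) := by
      gcongr
    have h7 : m ≤ T / L := by
      rw [hm]
      calc (T : ℝ) * m0 ≤ T * (1 / L) := by gcongr
        _ = _ := by ring
    rw [smul_eq_mul]
    have h8 : (2 * Z - Z) * (2 * m) ≤ 2 * (T / L) * Z := by
      have : (2 * Z - Z) = Z := by ring
      rw [this]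
      calc Z * (2 * m) ≤ Z * (2 * (T / L)) := by gcongr
        _ = _ := by ring
    linarith
  · exact intervalIntegrable_const
  · apply IntervalIntegrable.const_mul
    apply ContinuousOn.intervalIntegrable
    exact (hcont.sub continuousOn_const).pow 2

lemma M1_meas (B W T L k : ℕ) : Measurable (M1 B W T L k) := by
  unfold M1
  apply Finset.measurable_fun_sum
  intro t _
  exact (wk_cont L k).measurable.comp (((gt_meas B W t).sub_const _).div_const _)

lemma Phi2_meas (B W T L k : ℕ) (P : Finset ℕ) (D : ℕ) (c : Finset ℕ → ℝ) (c1 c0 Δ : ℝ)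
    (D' N : ℕ) : Measurable (Phi2 B W T L k P D c c1 c0 Δ D' N) := by
  unfold Phi2 Ef2
  apply Measurable.add
  · apply Measurable.add
    · exact (((Mf_meas B W T L k P D c).sub_const _).pow_const 2).const_mul _
    · apply Measurable.const_mul
      apply Finset.measurable_fun_sum
      intro q _
      exact measurable_const.indicator (Iset2_meas B W _ q)
  · exact (M1_meas B W T L k).const_mul _

theorem Phi2_int {B W T L : ℕ} {Z : ℝ} (h : Par B W T L Z) (k D N D' : ℕ) (hk : 1 ≤ k)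
    (hN : N = ⌊3 * Z⌋₊) (hD : 1 ≤ D) (hD' : 1 ≤ D')
    (P : Finset ℕ) (hP : ∀ p ∈ P, p.Prime ∧ Nat.Coprime p W) (c : Finset ℕ → ℝ)
    (c1 : ℝ) (hc1 : ∀ S, |c S| ≤ c1) (hc : ∀ S ⊆ P, c S ≠ 0 → ∏ p ∈ S, p ≤ D)
    (hbig : ((k : ℝ) + 1) * L * (D * W) ≤ T) (hlog : Z * (1 + Real.log T) ≤ T ^ 3)
    (Δ : ℝ) (hΔ : 0 ≤ Δ) (c0 : ℝ) (hc0 : 0 < c0) :
    Integrable (Phi2 B W T L k P D c c1 c0 Δ D' N) (volume.restrict (Set.Ioc Z (2 * Z))) ∧
    ∫ x in Set.Ioc Z (2 * Z), Phi2 B W T L k P D c c1 c0 Δ D' N x ≤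
      16 / c0 ^ 2 * (c1 ^ 2 * D ^ 7 * (V1 B W k * (T / L) * Z)) +
      4 / c0 * ((15 * T * Z / (W * D') + 4 * T ^ 2 + 3 * T * Real.sqrt (6 * Z)) * (8 * (W * Δ))) +
      4 / c0 * (c1 * D ^ 2 * (4 * Real.pi * (W * Δ))) *
        ((2 + 6 * 4 ^ k * V1 B W k) * (T / L) * Z) := by
  have hZ0 := h.hZ0
  have hW1 : 1 ≤ W := by
    have := h.hW
    omega
  have hW0 : (0 : ℝ) < W := by exact_mod_cast hW1
  have hD0 : (1 : ℝ) ≤ D := by exact_mod_cast hD
  have hD0' : (0 : ℝ) < D' := by exact_mod_cast hD'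
  have hc10 : 0 ≤ c1 := (abs_nonneg _).trans (hc1 ∅)
  have hpi := Real.pi_pos
  have hle : Z ≤ 2 * Z := by linarith
  have hi1 : Integrable (fun x => (Mf B W T L k P D c x - Mm B W T L k P c) ^ 2)
      (volume.restrict (Set.Ioc Z (2 * Z))) := by
    have : IntervalIntegrable (fun x => (Mf B W T L k P D c x - Mm B W T L k P c) ^ 2)
        volume Z (2 * Z) :=
      ContinuousOn.intervalIntegrable (((Mf_cont B W T L k P D c Z hZ0).sub continuousOn_const).pow 2)
    exact (intervalIntegrable_iff_integrableOn_Ioc_of_le hle).mp this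
  have hi2 : ∀ q : ℕ × ℕ, Integrable (fun x => (Iset2 B W (W * Δ) q).indicator (fun _ => (1 : ℝ)) x)
      (volume.restrict (Set.Ioc Z (2 * Z))) := by
    intro q
    exact (integrable_const (1 : ℝ)).indicator (Iset2_meas B W _ q)
  have hi3 : Integrable (fun x => Ef2 D' B W N T (W * Δ) x)
      (volume.restrict (Set.Ioc Z (2 * Z))) := by
    unfold Ef2
    apply integrable_finsetSum
    intro q _
    exact hi2 q
  have hcontM : ContinuousOn (M1 B W T L k) (Set.uIcc Z (2 * Z)) := by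
    unfold M1
    apply continuousOn_finsetSum
    intro t _
    exact (wk_cont L k).comp_continuousOn (((gt_cont B W t Z hZ0).sub continuousOn_const).div_const _)
  have hi4 : Integrable (fun x => M1 B W T L k x) (volume.restrict (Set.Ioc Z (2 * Z))) := by
    have : IntervalIntegrable (fun x => M1 B W T L k x) volume Z (2 * Z) :=
      ContinuousOn.intervalIntegrable hcontM
    exact (intervalIntegrable_iff_integrableOn_Ioc_of_le hle).mp this
  have hiP : Integrable (Phi2 B W T L k P D c c1 c0 Δ D' N)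
      (volume.restrict (Set.Ioc Z (2 * Z))) := by
    unfold Phi2
    exact ((hi1.const_mul _).add (hi3.const_mul _)).add (hi4.const_mul _)
  refine ⟨hiP, ?_⟩
  have hE : ∫ x in Set.Ioc Z (2 * Z), Ef2 D' B W N T (W * Δ) x ≤
      (15 * T * Z / (W * D') + 4 * T ^ 2 + 3 * T * Real.sqrt (6 * Z)) * (8 * (W * Δ)) := by
    unfold Ef2
    rw [integral_finsetSum]
    · have hNr : (N : ℝ) ≤ 3 * Z := by
        rw [hN]
        exact Nat.floor_le (by positivity)
      calc ∑ q ∈ BadS2 D' B W N T, ∫ x in Set.Ioc Z (2 * Z),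
            (Iset2 B W (W * Δ) q).indicator (fun _ => (1 : ℝ)) x ≤
          ∑ q ∈ BadS2 D' B W N T, 8 * (W * Δ) := by
            apply Finset.sum_le_sum
            intro q hq
            apply Iset2_vol h _ (by positivity)
            classical
            unfold BadS2 at hq
            rw [Finset.mem_filter, Finset.mem_product] at hq
            exact hq.1.2
        _ = (BadS2 D' B W N T).card * (8 * (W * Δ)) := by
            rw [Finset.sum_const, nsmul_eq_mul]
        _ ≤ (5 * T * N / (W * D') + 4 * T ^ 2 + 3 * T * Real.sqrt (2 * N)) * (8 * (W * Δ)) := by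
            have := bad_card2 B W N T D' hW1 hD'
            gcongr
        _ ≤ (5 * T * (3 * Z) / (W * D') + 4 * T ^ 2 + 3 * T * Real.sqrt (2 * (3 * Z))) *
            (8 * (W * Δ)) := by gcongr
        _ = _ := by
            rw [show 2 * (3 * Z) = 6 * Z by ring]
            ring
    · intro q _
      exact hi2 q
  have hV : ∫ x in Set.Ioc Z (2 * Z), (Mf B W T L k P D c x - Mm B W T L k P c) ^ 2 ≤
      c1 ^ 2 * D ^ 7 * (V1 B W k * (T / L) * Z) := by
    rw [← intervalIntegral.integral_of_le hle]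
    exact Mf_var h k hk P hP D c c1 hc1 hc hbig hlog
  have hM : ∫ x in Set.Ioc Z (2 * Z), M1 B W T L k x ≤
      (2 + 6 * 4 ^ k * V1 B W k) * (T / L) * Z := by
    rw [← intervalIntegral.integral_of_le hle]
    apply M1_int h k hk _ hlog
    refine le_trans ?_ hbig
    calc ((k : ℝ) + 1) * L * W = ((k : ℝ) + 1) * L * (1 * W) := by ring
      _ ≤ _ := by gcongr
  have heq : ∫ x in Set.Ioc Z (2 * Z), Phi2 B W T L k P D c c1 c0 Δ D' N x =
      16 / c0 ^ 2 * (∫ x in Set.Ioc Z (2 * Z),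
        (Mf B W T L k P D c x - Mm B W T L k P c) ^ 2) +
      4 / c0 * (∫ x in Set.Ioc Z (2 * Z), Ef2 D' B W N T (W * Δ) x) +
      4 / c0 * (c1 * D ^ 2 * (4 * Real.pi * (W * Δ))) *
        (∫ x in Set.Ioc Z (2 * Z), M1 B W T L k x) := by
    unfold Phi2
    have hi12 : Integrable (fun x => 16 / c0 ^ 2 *
        (Mf B W T L k P D c x - Mm B W T L k P c) ^ 2 + 4 / c0 * Ef2 D' B W N T (W * Δ) x)
        (volume.restrict (Set.Ioc Z (2 * Z))) := (hi1.const_mul _).add (hi3.const_mul _)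
    rw [integral_add hi12 (hi4.const_mul _),
      integral_add (hi1.const_mul _) (hi3.const_mul _), integral_const_mul, integral_const_mul,
      integral_const_mul]
  rw [heq]
  gcongr

/-- the mean is large -/
lemma Mm_ge {B W T L : ℕ} {Z : ℝ} (h : Par B W T L Z) (k z0 J b : ℕ) (hb : 1 ≤ b) (hz0 : 6 ≤ z0)
    (cP : ℝ) (hcP0 : 0 ≤ cP) (hcP : cP / 8 ^ J ≤ ∏ p ∈ Pz z0 J, (1 - 3 / (p : ℝ)))
    (c : Finset ℕ → ℝ)
    (hV : ∀ g : ℕ → ℝ, (∀ p ∈ Pz z0 J, 0 ≤ g p ∧ g p ≤ (3 : ℕ) / ((p : ℝ) - 1)) →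
      (1 - (1 / 2 : ℝ) ^ b) * ∏ p ∈ Pz z0 J, (1 - g p) ≤ VV (Pz z0 J) c g) :
    (T / L) * (cP / (12 * 4 ^ k)) / 8 ^ J ≤ Mm B W T L k (Pz z0 J) c := by
  have hL1 : 1 ≤ L := by
    have := h.hL
    omega
  have hL0 : (0 : ℝ) < L := by exact_mod_cast hL1
  have hm1 := wk_mean_ge L k hL1
  have hlow : ∀ t ∈ Ioc T (2 * T), (1 / 2) * (cP / 8 ^ J) ≤
      VV (Pz z0 J) c (fun p => ((Rz (vn B W t) p).card : ℝ) / p) := by
    intro t _
    have hp3 : ∀ p ∈ Pz z0 J, (6 : ℝ) ≤ p ∧ p.Prime := by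
      intro p hp
      rw [Pz_mem] at hp
      exact ⟨by exact_mod_cast (by omega : 6 ≤ p), hp.2.1⟩
    have hg : ∀ p ∈ Pz z0 J, ((Rz (vn B W t) p).card : ℝ) / p ≤ 3 / p := by
      intro p hp
      have h1 := Rz_prime (vn B W t) p (hp3 p hp).2
      have h2 : ((Rz (vn B W t) p).card : ℝ) ≤ 3 := by exact_mod_cast h1
      have h3 := (hp3 p hp).1
      gcongr
    have h1 := hV (fun p => ((Rz (vn B W t) p).card : ℝ) / p) (by
      intro p hp
      have h3 := (hp3 p hp).1
      refine ⟨by positivity, (hg p hp).trans ?_⟩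
      push_cast
      apply div_le_div_of_nonneg_left (by norm_num) (by linarith) (by linarith))
    refine le_trans ?_ h1
    have h2 : (1 / 2 : ℝ) ≤ 1 - (1 / 2 : ℝ) ^ b := by
      have : (1 / 2 : ℝ) ^ b ≤ (1 / 2 : ℝ) ^ 1 :=
        pow_le_pow_of_le_one (by norm_num) (by norm_num) hb
      linarith
    have h3 : ∏ p ∈ Pz z0 J, (1 - 3 / (p : ℝ)) ≤
        ∏ p ∈ Pz z0 J, (1 - ((Rz (vn B W t) p).card : ℝ) / p) := by
      apply Finset.prod_le_prod
      · intro p hp
        have h4 := (hp3 p hp).1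
        have h5 : 3 / (p : ℝ) ≤ 1 := by
          rw [div_le_one (by linarith)]
          linarith
        linarith
      · intro p hp
        have := hg p hp
        linarith
    have h4 : 0 ≤ cP / 8 ^ J := by positivity
    calc (1 / 2) * (cP / 8 ^ J) ≤ (1 - (1 / 2 : ℝ) ^ b) *
        ∏ p ∈ Pz z0 J, (1 - ((Rz (vn B W t) p).card : ℝ) / p) := by
          have h5 := hcP.trans h3
          gcongr
      _ = _ := rfl
  unfold Mm
  have hsum : (T : ℝ) * ((1 / 2) * (cP / 8 ^ J)) ≤ ∑ t ∈ Ioc T (2 * T),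
      VV (Pz z0 J) c (fun p => ((Rz (vn B W t) p).card : ℝ) / p) := by
    calc (T : ℝ) * ((1 / 2) * (cP / 8 ^ J)) = ∑ t ∈ Ioc T (2 * T), (1 / 2) * (cP / 8 ^ J) := by
          rw [Finset.sum_const, Nat.card_Ioc, nsmul_eq_mul]
          have : 2 * T - T = T := by omega
          rw [this]
      _ ≤ _ := Finset.sum_le_sum hlow
  have hm0 : 0 ≤ ∫ y in (0 : ℝ)..1, wk L k y := le_trans (by positivity) hm1
  calc (T / L) * (cP / (12 * 4 ^ k)) / 8 ^ J =
      (1 / (6 * 4 ^ k * L)) * ((T : ℝ) * ((1 / 2) * (cP / 8 ^ J))) := by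
        field_simp
        ring
    _ ≤ _ := by gcongr

end Pool.Agent.Q148.PS
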