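import Pool.Agent.Q148.CN.Core

set_option autoImplicit false

/-! # Nonnegative kernels -/

namespace Pool.Agent.Q148.PS

open Finset MeasureTheory Pool.Agent.Q148.CN

/-- the kernel: a power of the Fejér kernel, with value `1` at the integers -/
noncomputable def wk (L k : ℕ) (y : ℝ) : ℝ := (‖Dk L y‖ / L) ^ (2 * k)

lemma wk_nonneg (L k : ℕ) (y : ℝ) : 0 ≤ wk L k y := by
  unfold wk
  positivity

lemma wk_base (L : ℕ) (y : ℝ) : ‖Dk L y‖ / L ≤ 1 := by
  rcases Nat.eq_zero_or_pos L with h | h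
  · subst h
    simp
  · have hL0 : (0 : ℝ) < L := by exact_mod_cast h
    rw [div_le_one hL0]
    exact Dk_norm_le L y

lemma wk_le_one (L k : ℕ) (y : ℝ) : wk L k y ≤ 1 := by
  unfold wk
  exact pow_le_one₀ (by positivity) (wk_base L y)

lemma wk_cont (L k : ℕ) : Continuous (wk L k) := by
  unfold wk
  have := Dk_cont L
  fun_prop

lemma Dk_int (L : ℕ) (m : ℤ) : Dk L m = L := by
  unfold Dk
  have h1 : ∀ k ∈ range L, ex ((k : ℝ) * (m : ℝ)) = 1 := by
    intro k _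
    have h2 : (k : ℝ) * (m : ℝ) = (((k : ℤ) * m : ℤ) : ℝ) := by push_cast; ring
    rw [h2, ex_int]
  rw [Finset.sum_congr rfl h1]
  simp

lemma wk_int (L k : ℕ) (hL : 1 ≤ L) (m : ℤ) : wk L k m = 1 := by
  unfold wk
  rw [Dk_int]
  have : (L : ℝ) ≠ 0 := by
    have : (0 : ℝ) < L := by exact_mod_cast hL
    exact this.ne'
  rw [Complex.norm_natCast, div_self this, one_pow]

lemma sin_dist (y : ℝ) (Δ : ℝ) (hΔ : 0 ≤ Δ) (hy : ∀ m : ℤ, Δ ≤ |y - m|) :
    (2 * Δ) ^ 2 ≤ Real.sin (Real.pi * y) ^ 2 := by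
  have h1 := hy (round y)
  have h2 : |y - round y| ≤ 1 / 2 := abs_sub_round y
  set r : ℝ := y - round y with hr
  have h3 : Real.sin (Real.pi * y) ^ 2 = Real.sin (Real.pi * |r|) ^ 2 := by
    have h4 : y = r + (round y : ℤ) := by rw [hr]; ring
    have h5 : Real.sin (Real.pi * y) ^ 2 = Real.sin (Real.pi * r) ^ 2 := by
      rw [h4]
      rw [show Real.pi * (r + ((round y : ℤ) : ℝ)) = Real.pi * r + (round y : ℤ) * Real.pi by ring]
      rw [Real.sin_add_int_mul_pi, mul_pow]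
      have h6 : ((-1 : ℝ) ^ (round y)) ^ 2 = 1 := by
        rw [← zpow_natCast, ← zpow_mul]
        exact Even.neg_one_zpow ⟨round y, by push_cast; ring⟩
      rw [h6, one_mul]
    rw [h5]
    rcases abs_cases r with ⟨h7, _⟩ | ⟨h7, _⟩
    · rw [h7]
    · rw [h7, mul_neg, Real.sin_neg, neg_sq]
  rw [h3]
  have h4 : 2 * Δ ≤ Real.sin (Real.pi * |r|) := by
    have h5 : 2 / Real.pi * (Real.pi * |r|) ≤ Real.sin (Real.pi * |r|) := by
      apply Real.mul_le_sin
      · positivity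
      · have := Real.pi_pos
        nlinarith
    have h6 : 2 / Real.pi * (Real.pi * |r|) = 2 * |r| := by
      have := Real.pi_ne_zero
      field_simp
    rw [h6] at h5
    linarith
  gcongr

lemma wk_tail (L k : ℕ) (hL : 1 ≤ L) (y Δ : ℝ) (hΔ : 0 < Δ) (hy : ∀ m : ℤ, Δ ≤ |y - m|) :
    wk L k y ≤ (1 / (2 * L * Δ)) ^ (2 * k) := by
  have hL0 : (0 : ℝ) < L := by exact_mod_cast hL
  unfold wk
  have h1 := Dk_sin L y
  have h2 := sin_dist y Δ hΔ.le hy
  have h3 : (‖Dk L y‖ * (2 * Δ)) ^ 2 ≤ 1 ^ 2 := by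
    calc (‖Dk L y‖ * (2 * Δ)) ^ 2 = ‖Dk L y‖ ^ 2 * (2 * Δ) ^ 2 := by ring
      _ ≤ ‖Dk L y‖ ^ 2 * Real.sin (Real.pi * y) ^ 2 := by gcongr
      _ ≤ 1 := h1
      _ = _ := by norm_num
  have h4 : ‖Dk L y‖ * (2 * Δ) ≤ 1 := le_of_pow_le_pow_left₀ (by norm_num) (by norm_num) h3
  have h5 : ‖Dk L y‖ / L ≤ 1 / (2 * L * Δ) := by
    rw [div_le_div_iff₀ hL0 (by positivity)]
    calc ‖Dk L y‖ * (2 * L * Δ) = (‖Dk L y‖ * (2 * Δ)) * L := by ring
      _ ≤ 1 * L := by gcongr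
  gcongr

lemma wk_mean_le (L k : ℕ) (hL : 1 ≤ L) (hk : 1 ≤ k) : ∫ y in (0 : ℝ)..1, wk L k y ≤ 1 / L := by
  have hL0 : (0 : ℝ) < L := by exact_mod_cast hL
  have hc := Dk_cont L
  have h1 : ∫ y in (0 : ℝ)..1, wk L k y ≤ ∫ y in (0 : ℝ)..1, (1 / (L : ℝ) ^ 2) * ‖Dk L y‖ ^ 2 := by
    apply intervalIntegral.integral_mono_on (by norm_num)
    · exact (wk_cont L k).intervalIntegrable _ _
    · apply Continuous.intervalIntegrable
      fun_prop
    · intro y _
      unfold wk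
      have h2 := wk_base L y
      calc (‖Dk L y‖ / L) ^ (2 * k) ≤ (‖Dk L y‖ / L) ^ 2 :=
            pow_le_pow_of_le_one (by positivity) h2 (by omega)
        _ = _ := by rw [div_pow]; ring
  rw [intervalIntegral.integral_const_mul, Dk_two] at h1
  calc _ ≤ _ := h1
    _ = _ := by field_simp

lemma Dk_half (L : ℕ) (hL : 1 ≤ L) (y : ℝ) (hy0 : 0 ≤ y) (hy : y ≤ 1 / (6 * L)) :
    (L : ℝ) / 2 ≤ ‖Dk L y‖ := by
  have hL0 : (0 : ℝ) < L := by exact_mod_cast hL
  have h1 : (Dk L y).re ≤ ‖Dk L y‖ := Complex.re_le_norm _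
  refine le_trans ?_ h1
  have h2 : (Dk L y).re = ∑ k ∈ range L, (ex (k * y)).re := by
    unfold Dk
    rw [Complex.re_sum]
  rw [h2]
  have h3 : ∀ k ∈ range L, (1 : ℝ) / 2 ≤ (ex (k * y)).re := by
    intro k hk
    have hk' := Finset.mem_range.mp hk
    have hkr : (k : ℝ) ≤ L := by exact_mod_cast hk'.le
    have h4 : (ex (k * y)).re = Real.cos (2 * Real.pi * (k * y)) := by
      unfold ex
      rw [show (2 * Real.pi * ((k * y : ℝ) : ℂ) * Complex.I : ℂ) =
        ((2 * Real.pi * (k * y) : ℝ) : ℂ) * Complex.I by push_cast; ring]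
      exact Complex.exp_ofReal_mul_I_re _
    rw [h4, ← Real.cos_pi_div_three]
    have hpi := Real.pi_pos
    apply Real.cos_le_cos_of_nonneg_of_le_pi
    · positivity
    · linarith
    · calc 2 * Real.pi * (k * y) ≤ 2 * Real.pi * (L * (1 / (6 * L))) := by gcongr
        _ = Real.pi / 3 := by field_simp; norm_num
  calc (L : ℝ) / 2 = ∑ k ∈ range L, (1 : ℝ) / 2 := by
        rw [Finset.sum_const, Finset.card_range, nsmul_eq_mul]
        ring
    _ ≤ _ := Finset.sum_le_sum h3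

lemma wk_mean_ge (L k : ℕ) (hL : 1 ≤ L) :
    1 / (6 * 4 ^ k * L) ≤ ∫ y in (0 : ℝ)..1, wk L k y := by
  have hL0 : (1 : ℝ) ≤ L := by exact_mod_cast hL
  have h6 : (1 : ℝ) / (6 * L) ≤ 1 := by
    rw [div_le_one (by positivity)]
    linarith
  have hint : ∀ a b : ℝ, IntervalIntegrable (wk L k) volume a b :=
    fun a b => (wk_cont L k).intervalIntegrable _ _
  have h1 : ∫ y in (0 : ℝ)..(1 / (6 * L)), wk L k y ≤ ∫ y in (0 : ℝ)..1, wk L k y := by
    have h2 := intervalIntegral.integral_add_adjacent_intervals (hint 0 (1 / (6 * L)))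
      (hint (1 / (6 * L)) 1)
    have h3 : 0 ≤ ∫ y in (1 / (6 * (L : ℝ)))..1, wk L k y :=
      intervalIntegral.integral_nonneg h6 (fun y _ => wk_nonneg L k y)
    linarith
  refine le_trans ?_ h1
  have h2 : ∫ y in (0 : ℝ)..(1 / (6 * L)), (1 / 4 : ℝ) ^ k ≤
      ∫ y in (0 : ℝ)..(1 / (6 * L)), wk L k y := by
    apply intervalIntegral.integral_mono_on (by positivity)
    · exact intervalIntegrable_const
    · exact hint _ _
    · intro y hy
      unfold wk
      have h3 := Dk_half L hL y hy.1 hy.2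
      have h4 : (1 : ℝ) / 2 ≤ ‖Dk L y‖ / L := by
        rw [le_div_iff₀ (by linarith)]
        linarith
      calc (1 / 4 : ℝ) ^ k = (1 / 2) ^ (2 * k) := by
            rw [pow_mul]
            norm_num
        _ ≤ _ := by gcongr
  rw [intervalIntegral.integral_const] at h2
  refine le_trans (le_of_eq ?_) h2
  rw [smul_eq_mul, sub_zero, div_pow, one_pow]
  field_simp

/-- the Fourier expansion of the kernel -/
lemma wk_fourier (L k : ℕ) (hL : 1 ≤ L) (hk : 1 ≤ k) : ∃ c : ℕ → ℂ,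
    (∀ y : ℝ, (wk L k y : ℂ) = ∑ j ∈ range (2 * (k * (L - 1)) + 1),
      c j * ex (((j : ℤ) - (k * (L - 1) : ℤ) : ℤ) * y)) ∧
    (∀ j, j < 2 * (k * (L - 1)) + 1 → ‖c j‖ ≤ 1 / L) ∧
    (c (k * (L - 1)) = ((∫ y in (0 : ℝ)..1, wk L k y : ℝ) : ℂ)) := by
  have hL0 : (L : ℂ) ≠ 0 := by
    have : L ≠ 0 := by omega
    exact_mod_cast this
  set Q : Polynomial ℂ := Polynomial.C (1 / (L : ℂ) ^ (2 * k)) * PD L ^ (2 * k) with hQ
  have hdeg : Q.natDegree < 2 * (k * (L - 1)) + 1 := by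
    have h1 : (PD L ^ (2 * k)).natDegree ≤ (2 * k) * (PD L).natDegree :=
      Polynomial.natDegree_pow_le
    have h2 := PD_deg L hL
    have h3 : Q.natDegree ≤ (PD L ^ (2 * k)).natDegree := Polynomial.natDegree_C_mul_le _ _
    have h4 : (2 * k) * (PD L).natDegree ≤ (2 * k) * (L - 1) := Nat.mul_le_mul_left _ h2
    have h5 : (2 * k) * (L - 1) = 2 * (k * (L - 1)) := by ring
    omega
  have hexp : ∀ y : ℝ, (wk L k y : ℂ) =
      ∑ j ∈ range (2 * (k * (L - 1)) + 1), Q.coeff j * ex (((j : ℤ) - (k * (L - 1) : ℤ) : ℤ) * y) := by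
    intro y
    have h1 : ∑ j ∈ range (2 * (k * (L - 1)) + 1),
        Q.coeff j * ex (((j : ℤ) - (k * (L - 1) : ℤ) : ℤ) * y) =
        Q.eval (ex y) * ex (-(k * (L - 1) * y)) := by
      rw [Polynomial.eval_eq_sum_range' hdeg, Finset.sum_mul]
      apply Finset.sum_congr rfl
      intro j _
      rw [← ex_nat, mul_assoc, ← ex_add]
      congr 2
      push_cast
      ring
    have h2 : (starRingEnd ℂ) (Dk L y) = ex (-((L - 1) * y)) * Dk L y := by
      unfold Dk
      rw [map_sum, Finset.mul_sum, ← Finset.sum_range_reflect]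
      apply Finset.sum_congr rfl
      intro k hk
      have hk' := Finset.mem_range.mp hk
      rw [ex_conj, ← ex_add]
      congr 1
      rw [Nat.cast_sub (by omega), Nat.cast_sub (by omega)]
      push_cast
      ring
    have h4 : ((‖Dk L y‖ ^ 2 : ℝ) : ℂ) = ex (-((L - 1) * y)) * (Dk L y) ^ 2 := by
      have h5 : ((‖Dk L y‖ ^ 2 : ℝ) : ℂ) = Dk L y * (starRingEnd ℂ) (Dk L y) := by
        rw [Complex.mul_conj, Complex.normSq_eq_norm_sq]
      rw [h5, h2]
      ring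
    have h6 : (ex (-((L - 1) * y))) ^ k = ex (-(k * (L - 1) * y)) := by
      rw [← ex_nat]
      congr 1
      ring
    rw [h1, hQ, Polynomial.eval_mul, Polynomial.eval_C, Polynomial.eval_pow, PD_eval, ← h6]
    unfold wk
    have h7 : (((‖Dk L y‖ / L) ^ (2 * k) : ℝ) : ℂ) =
        1 / (L : ℂ) ^ (2 * k) * ((‖Dk L y‖ ^ 2 : ℝ) : ℂ) ^ k := by
      push_cast
      rw [div_pow, ← pow_mul]
      ring
    rw [h7, h4, mul_pow, ← pow_mul]
    ring
  have hcoef : ∀ j, j < 2 * (k * (L - 1)) + 1 → Q.coeff j = ∫ y in (0 : ℝ)..1, (wk L k y : ℂ) *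
        ex (-((((j : ℤ) - (k * (L - 1) : ℤ) : ℤ) : ℝ) * y)) := by
    intro j hj
    have h1 := coeff_int (2 * (k * (L - 1)) + 1) (k * (L - 1) : ℤ) Q.coeff j hj
    rw [← h1]
    apply intervalIntegral.integral_congr
    intro y _
    simp only
    rw [hexp y]
  refine ⟨Q.coeff, hexp, ?_, ?_⟩
  · intro j hj
    rw [hcoef j hj]
    calc _ ≤ ∫ y in (0 : ℝ)..1,
          ‖(wk L k y : ℂ) * ex (-((((j : ℤ) - (k * (L - 1) : ℤ) : ℤ) : ℝ) * y))‖ :=
          intervalIntegral.norm_integral_le_integral_norm (by norm_num)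
      _ = ∫ y in (0 : ℝ)..1, wk L k y := by
          apply intervalIntegral.integral_congr
          intro y _
          simp only
          rw [norm_mul, ex_norm, mul_one, Complex.norm_real, Real.norm_eq_abs,
            abs_of_nonneg (wk_nonneg L k y)]
      _ ≤ _ := wk_mean_le L k hL hk
  · have hlt : k * (L - 1) < 2 * (k * (L - 1)) + 1 := by omega
    rw [hcoef _ hlt, ← intervalIntegral.integral_ofReal]
    apply intervalIntegral.integral_congr
    intro y _
    simp only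
    have h2 : (((k * (L - 1) : ℕ) : ℤ) - (k * (L - 1) : ℤ) : ℤ) = 0 := by
      rw [Nat.cast_mul, Nat.cast_sub hL]
      push_cast
      ring
    rw [h2]
    simp [ex_zero]

/-- the Fourier expansion of the kernel, indexed by integers -/
lemma wk_four (L k : ℕ) (hL : 1 ≤ L) (hk : 1 ≤ k) : ∃ c : ℤ → ℂ,
    (∀ y : ℝ, (wk L k y : ℂ) = ∑ h ∈ Icc (-((k * (L - 1) : ℕ) : ℤ)) ((k * (L - 1) : ℕ) : ℤ),
      c h * ex ((h : ℝ) * y)) ∧
    (∀ h, ‖c h‖ ≤ 1 / L) ∧
    (c 0 = ((∫ y in (0 : ℝ)..1, wk L k y : ℝ) : ℂ)) := by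
  obtain ⟨c, h1, h2, h3⟩ := wk_fourier L k hL hk
  set m : ℕ := k * (L - 1) with hm
  have hmc : ((k : ℤ) * ((L : ℤ) - 1)) = (m : ℤ) := by
    rw [hm, Nat.cast_mul, Nat.cast_sub hL]
    push_cast
    ring
  refine ⟨fun h => if -(m : ℤ) ≤ h ∧ h ≤ m then c (h + m).toNat else 0, ?_, ?_, ?_⟩
  · intro y
    rw [h1 y]
    apply Finset.sum_nbij' (fun j : ℕ => (j : ℤ) - m) (fun h : ℤ => (h + m).toNat)
    · intro j hj
      rw [Finset.mem_range] at hj
      rw [Finset.mem_Icc]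
      omega
    · intro h hh
      rw [Finset.mem_Icc] at hh
      rw [Finset.mem_range]
      omega
    · intro j hj
      simp
    · intro h hh
      rw [Finset.mem_Icc] at hh
      omega
    · intro j hj
      rw [Finset.mem_range] at hj
      have h4 : -(m : ℤ) ≤ (j : ℤ) - m ∧ (j : ℤ) - m ≤ m := by omega
      have h5 : ((j : ℤ) - m + m).toNat = j := by simp
      show _ = (if -(m : ℤ) ≤ (j : ℤ) - m ∧ (j : ℤ) - m ≤ m then c ((j : ℤ) - m + m).toNat
        else 0) * _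
      rw [if_pos h4, h5, hmc]
  · intro h
    have hL0 : (0 : ℝ) < L := by exact_mod_cast (by omega : 0 < L)
    simp only
    split_ifs with h4
    · apply h2
      omega
    · rw [norm_zero]
      positivity
  · simp only
    rw [if_pos (by omega)]
    have h5 : ((0 : ℤ) + m).toNat = m := by simp
    rw [h5]
    exact h3

/-! ### the soft residue class -/

lemma wk_mean_one (d : ℕ) (hd : 1 ≤ d) : ∫ y in (0 : ℝ)..1, wk d 1 y = 1 / d := by
  have hd0 : (0 : ℝ) < d := by exact_mod_cast hd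
  unfold wk
  have h1 : ∀ y : ℝ, (‖Dk d y‖ / d) ^ (2 * 1) = (1 / (d : ℝ) ^ 2) * ‖Dk d y‖ ^ 2 := by
    intro y
    rw [mul_one, div_pow]
    ring
  simp_rw [h1]
  rw [intervalIntegral.integral_const_mul, Dk_two]
  field_simp

lemma Dk_res (d : ℕ) (hd : 1 ≤ d) (h : ℤ) (hh : ¬ (d : ℤ) ∣ h) : Dk d ((h : ℝ) / d) = 0 := by
  have hd0 : (d : ℝ) ≠ 0 := by
    have : (0 : ℝ) < d := by exact_mod_cast hd
    exact this.ne'
  have h1 : Dk d ((h : ℝ) / d) * (ex ((h : ℝ) / d) - 1) = ex (d * ((h : ℝ) / d)) - 1 := by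
    unfold Dk
    simp_rw [ex_nat]
    exact geom_sum_mul (ex _) d
  have h2 : (d : ℝ) * ((h : ℝ) / d) = ((h : ℤ) : ℝ) := by field_simp
  rw [h2, ex_int, sub_self] at h1
  rcases mul_eq_zero.mp h1 with h3 | h3
  · exact h3
  · exfalso
    have h4 : ex ((h : ℝ) / d) = 1 := by linear_combination h3
    unfold ex at h4
    rw [Complex.exp_eq_one_iff] at h4
    obtain ⟨n, hn⟩ := h4
    have h5 : ((h : ℂ) / d) = n := by
      have h6 : (2 * Real.pi * Complex.I : ℂ) ≠ 0 := by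
        have : (Real.pi : ℂ) ≠ 0 := by exact_mod_cast Real.pi_ne_zero
        simp [this]
      have h7 : (2 * Real.pi * Complex.I : ℂ) * ((h : ℂ) / d) = (2 * Real.pi * Complex.I : ℂ) * n := by
        push_cast at hn
        linear_combination hn
      exact mul_left_cancel₀ h6 h7
    have hdc : (d : ℂ) ≠ 0 := by exact_mod_cast hd0
    rw [div_eq_iff hdc] at h5
    have h6 : h = n * d := by exact_mod_cast h5
    exact hh ⟨n, by rw [h6]; ring⟩

/-- the soft residue class at integers -/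
lemma chi_int (d : ℕ) (hd : 1 ≤ d) (u a : ℤ) :
    wk d 1 (((u : ℝ) - a) / d) = if (d : ℤ) ∣ u - a then 1 else 0 := by
  have hd0 : (d : ℝ) ≠ 0 := by
    have : (0 : ℝ) < d := by exact_mod_cast hd
    exact this.ne'
  split_ifs with h
  · obtain ⟨m, hm⟩ := h
    have h1 : ((u : ℝ) - a) / d = ((m : ℤ) : ℝ) := by
      rw [div_eq_iff hd0]
      have h2 : ((u - a : ℤ) : ℝ) = ((d * m : ℤ) : ℝ) := by exact_mod_cast hm
      push_cast at h2
      linarith
    rw [h1, wk_int d 1 hd]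
  · have h1 := Dk_res d hd (u - a) h
    push_cast at h1
    unfold wk
    rw [h1]
    simp

lemma ex_lip (x y : ℝ) : ‖ex x - ex y‖ ≤ 2 * Real.pi * |x - y| := by
  have h1 : ex x - ex y = ex y * (ex (x - y) - 1) := by
    rw [mul_sub, ← ex_add, mul_one]
    congr 2
    ring
  rw [h1, norm_mul, ex_norm, one_mul, norm_ex_sub_one]
  have h2 : |Real.sin (Real.pi * (x - y))| ≤ |Real.pi * (x - y)| := Real.abs_sin_le_abs
  rw [abs_mul, abs_of_pos Real.pi_pos] at h2
  linarith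

lemma chi_lip (d : ℕ) (hd : 1 ≤ d) (y z a : ℝ) :
    |wk d 1 ((y - a) / d) - wk d 1 ((z - a) / d)| ≤ 4 * Real.pi * |y - z| := by
  have hd0 : (0 : ℝ) < d := by exact_mod_cast hd
  set x := (y - a) / d with hx
  set x' := (z - a) / d with hx'
  have h1 : ‖Dk d x - Dk d x'‖ ≤ d * (2 * Real.pi * |y - z|) := by
    unfold Dk
    rw [← Finset.sum_sub_distrib]
    calc ‖∑ k ∈ range d, (ex (k * x) - ex (k * x'))‖ ≤ ∑ k ∈ range d, ‖ex (k * x) - ex (k * x')‖ :=
          norm_sum_le _ _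
      _ ≤ ∑ k ∈ range d, 2 * Real.pi * |y - z| := by
          apply Finset.sum_le_sum
          intro k hk
          have hk' := Finset.mem_range.mp hk
          have hkr : (k : ℝ) ≤ d := by exact_mod_cast hk'.le
          refine (ex_lip _ _).trans ?_
          have h2 : (k : ℝ) * x - k * x' = (k / d) * (y - z) := by
            rw [hx, hx']
            field_simp
            ring
          rw [h2, abs_mul, abs_of_nonneg (by positivity : (0 : ℝ) ≤ k / d)]
          have h3 : (k : ℝ) / d ≤ 1 := by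
            rw [div_le_one hd0]
            exact hkr
          have hpi := Real.pi_pos
          have h4 : (k : ℝ) / d * |y - z| ≤ 1 * |y - z| := by gcongr
          rw [one_mul] at h4
          gcongr
      _ = _ := by rw [Finset.sum_const, Finset.card_range, nsmul_eq_mul]
  have h2 : |‖Dk d x‖ - ‖Dk d x'‖| ≤ d * (2 * Real.pi * |y - z|) := (abs_norm_sub_norm_le _ _).trans h1
  unfold wk
  have h3 : (‖Dk d x‖ / d) ^ (2 * 1) - (‖Dk d x'‖ / d) ^ (2 * 1) =
      ((‖Dk d x‖ - ‖Dk d x'‖) / d) * (‖Dk d x‖ / d + ‖Dk d x'‖ / d) := by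
    rw [mul_one]
    ring
  rw [h3, abs_mul, abs_div, abs_of_pos hd0]
  have h4 : |‖Dk d x‖ - ‖Dk d x'‖| / d ≤ 2 * Real.pi * |y - z| := by
    rw [div_le_iff₀ hd0]
    linarith
  have h5 : |‖Dk d x‖ / d + ‖Dk d x'‖ / d| ≤ 2 := by
    rw [abs_of_nonneg (by positivity)]
    have := wk_base d x
    have := wk_base d x'
    linarith
  have hpi := Real.pi_pos
  calc |‖Dk d x‖ - ‖Dk d x'‖| / d * |‖Dk d x‖ / d + ‖Dk d x'‖ / d| ≤
      (2 * Real.pi * |y - z|) * 2 := by gcongr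
    _ = _ := by ring

end Pool.Agent.Q148.PS
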