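import Pool.Agent.Q148.PS.Core

set_option autoImplicit false

/-! # The function to which Markov's inequality is applied -/

namespace Pool.Agent.Q148.PS

open Finset MeasureTheory Pool.Agent.Q148.CN Pool.Agent.Y882

/-- the points near which the pair `q` counts -/
def Iset2 (B W : ℕ) (δ : ℝ) (q : ℕ × ℕ) : Set ℝ := {y | |gt B W q.2 y - q.1| ≤ δ}

/-- the number of bad pairs near `x` -/
noncomputable def Ef2 (D B W N T : ℕ) (δ x : ℝ) : ℝ :=
  ∑ q ∈ BadS2 D B W N T, (Iset2 B W δ q).indicator (fun _ => (1 : ℝ)) x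

/-- the unsifted count -/
noncomputable def M1 (B W T L k : ℕ) (x : ℝ) : ℝ :=
  ∑ t ∈ Ioc T (2 * T), wk L k ((gt B W t x - 1) / W)

/-- the inner sum over the sieve weights -/
noncomputable def In (B W : ℕ) (P : Finset ℕ) (D : ℕ) (c : Finset ℕ → ℝ) (t : ℕ) (y : ℝ) : ℝ :=
  ∑ S ∈ Qs P D, c S * ∑ a ∈ Rz (vn B W t) (dS S), wk (dS S) 1 ((y - ((a : ℕ) : ℤ)) / dS S)

lemma Mf_eq (B W T L k : ℕ) (P : Finset ℕ) (D : ℕ) (c : Finset ℕ → ℝ) (x : ℝ) :
    Mf B W T L k P D c x = ∑ t ∈ Ioc T (2 * T), wk L k ((gt B W t x - 1) / W) *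
      In B W P D c t (gt B W t x) := by
  unfold Mf In Wf
  apply Finset.sum_congr rfl
  intro t _
  rw [Finset.mul_sum]
  apply Finset.sum_congr rfl
  intro S _
  rw [← Finset.mul_sum]
  ring

lemma Qs_le (P : Finset ℕ) (D : ℕ) (S : Finset ℕ) (hS : S ∈ Qs P D) : dS S ≤ D := by
  unfold Qs at hS
  rw [Finset.mem_filter] at hS
  exact hS.2

lemma Rz_le (v d D : ℕ) (h : d ≤ D) : ((Rz v d).card : ℝ) ≤ D := by
  have : (Rz v d).card ≤ D := by
    refine (Finset.card_filter_le _ _).trans ?_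
    rw [Finset.card_range]
    exact h
  exact_mod_cast this

lemma In_triv (B W : ℕ) (P : Finset ℕ) (hP : ∀ p ∈ P, p.Prime) (D : ℕ) (c : Finset ℕ → ℝ)
    (c1 : ℝ) (hc1 : ∀ S, |c S| ≤ c1) (t : ℕ) (y : ℝ) :
    In B W P D c t y ≤ c1 * D ^ 2 := by
  have hc10 : 0 ≤ c1 := (abs_nonneg _).trans (hc1 ∅)
  have hq : ((Qs P D).card : ℝ) ≤ D := by
    exact_mod_cast Pool.Agent.TH423.SH.FLIP.card_le P hP D
  unfold In
  calc _ ≤ ∑ S ∈ Qs P D, c1 * D := by
        apply Finset.sum_le_sum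
        intro S hS
        have h1 : 0 ≤ ∑ a ∈ Rz (vn B W t) (dS S), wk (dS S) 1 ((y - ((a : ℕ) : ℤ)) / dS S) :=
          Finset.sum_nonneg (fun a _ => wk_nonneg _ _ _)
        have h2 : ∑ a ∈ Rz (vn B W t) (dS S), wk (dS S) 1 ((y - ((a : ℕ) : ℤ)) / dS S) ≤ D := by
          calc _ ≤ ∑ a ∈ Rz (vn B W t) (dS S), (1 : ℝ) :=
                Finset.sum_le_sum (fun a _ => wk_le_one _ _ _)
            _ = ((Rz (vn B W t) (dS S)).card : ℝ) := by simp
            _ ≤ D := Rz_le _ _ _ (Qs_le P D S hS)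
        calc c S * ∑ a ∈ Rz (vn B W t) (dS S), wk (dS S) 1 ((y - ((a : ℕ) : ℤ)) / dS S) ≤
            |c S| * ∑ a ∈ Rz (vn B W t) (dS S), wk (dS S) 1 ((y - ((a : ℕ) : ℤ)) / dS S) := by
              gcongr
              exact le_abs_self _
          _ ≤ c1 * D := by
              have := hc1 S
              gcongr
    _ = (Qs P D).card * (c1 * D) := by rw [Finset.sum_const, nsmul_eq_mul]
    _ ≤ D * (c1 * D) := by gcongr
    _ = _ := by ring

lemma In_near (B W : ℕ) (P : Finset ℕ) (hP : ∀ p ∈ P, p.Prime) (D : ℕ) (c : Finset ℕ → ℝ)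
    (c1 : ℝ) (hc1 : ∀ S, |c S| ≤ c1) (hc : ∀ S ⊆ P, c S ≠ 0 → ∏ p ∈ S, p ≤ D) (t u : ℕ) (y δ : ℝ)
    (hy : |y - u| ≤ δ) (hu : vn B W t ≤ u) :
    In B W P D c t y ≤ VV P c (fun p => if p ∣ u * ((u - vn B W t) * (u + vn B W t)) then 1 else 0) +
      c1 * D ^ 2 * (4 * Real.pi * δ) := by
  have hc10 : 0 ≤ c1 := (abs_nonneg _).trans (hc1 ∅)
  have hδ0 : 0 ≤ δ := (abs_nonneg _).trans hy
  have hpi := Real.pi_pos
  have hq : ((Qs P D).card : ℝ) ≤ D := by
    exact_mod_cast Pool.Agent.TH423.SH.FLIP.card_le P hP D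
  rw [VV_ind P hP c, sum_Qs P D c hc]
  have h1 : In B W P D c t y - ∑ S ∈ Qs P D, c S *
      (if ∏ p ∈ S, p ∣ u * ((u - vn B W t) * (u + vn B W t)) then 1 else 0) ≤
      c1 * D ^ 2 * (4 * Real.pi * δ) := by
    unfold In
    rw [← Finset.sum_sub_distrib]
    calc _ ≤ ∑ S ∈ Qs P D, c1 * (D * (4 * Real.pi * δ)) := by
          apply Finset.sum_le_sum
          intro S hS
          have hd := dS_pos P hP D S hS
          have h2 := root_sum (vn B W t) (dS S) u hd hu
          have h3 : (if ∏ p ∈ S, p ∣ u * ((u - vn B W t) * (u + vn B W t)) then (1 : ℝ) else 0) =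
              ∑ a ∈ Rz (vn B W t) (dS S), wk (dS S) 1 (((u : ℝ) - ((a : ℕ) : ℤ)) / dS S) := by
            rw [h2]
            rfl
          rw [h3, ← mul_sub, ← Finset.sum_sub_distrib]
          have h4 : ∀ X Y : ℕ → ℝ, (∀ a, |X a - Y a| ≤ 4 * Real.pi * δ) →
              |∑ a ∈ Rz (vn B W t) (dS S), (X a - Y a)| ≤ D * (4 * Real.pi * δ) := by
            intro X Y hXY
            calc _ ≤ ∑ a ∈ Rz (vn B W t) (dS S), |X a - Y a| := Finset.abs_sum_le_sum_abs _ _
              _ ≤ ∑ a ∈ Rz (vn B W t) (dS S), 4 * Real.pi * δ :=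
                  Finset.sum_le_sum (fun a _ => hXY a)
              _ = ((Rz (vn B W t) (dS S)).card : ℝ) * (4 * Real.pi * δ) := by
                  rw [Finset.sum_const, nsmul_eq_mul]
              _ ≤ _ := by
                  have := Rz_le (vn B W t) (dS S) D (Qs_le P D S hS)
                  gcongr
          have h5 := h4 (fun a => wk (dS S) 1 ((y - ((a : ℕ) : ℤ)) / dS S))
            (fun a => wk (dS S) 1 (((u : ℝ) - ((a : ℕ) : ℤ)) / dS S)) (by
              intro a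
              refine (chi_lip (dS S) hd y u _).trans ?_
              gcongr)
          refine (le_abs_self _).trans ?_
          rw [abs_mul]
          have := hc1 S
          gcongr
      _ = (Qs P D).card * (c1 * (D * (4 * Real.pi * δ))) := by
          rw [Finset.sum_const, nsmul_eq_mul]
      _ ≤ D * (c1 * (D * (4 * Real.pi * δ))) := by gcongr
      _ = _ := by ring
  linarith

/-- the function to which Markov's inequality is applied -/
noncomputable def Phi2 (B W T L k : ℕ) (P : Finset ℕ) (D : ℕ) (c : Finset ℕ → ℝ) (c1 c0 Δ : ℝ)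
    (D' N : ℕ) (x : ℝ) : ℝ :=
  16 / c0 ^ 2 * (Mf B W T L k P D c x - Mm B W T L k P c) ^ 2 +
    4 / c0 * Ef2 D' B W N T (W * Δ) x +
    4 / c0 * (c1 * D ^ 2 * (4 * Real.pi * (W * Δ))) * M1 B W T L k x

lemma key2 {B W T L : ℕ} {Z : ℝ} (h : Par B W T L Z) (k z0 J D N : ℕ) (hN : N = ⌊3 * Z⌋₊)
    (hB : Squarefree B) (hBW : B ∣ W) (h2 : 2 ∣ W) (hWp : ∀ p : ℕ, p.Prime → p ≤ z0 → p ∣ W)
    (c : Finset ℕ → ℝ) (c1 : ℝ) (hc1 : ∀ S, |c S| ≤ c1)
    (hc : ∀ S ⊆ Pz z0 J, c S ≠ 0 → ∏ p ∈ S, p ≤ D)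
    (hVV : ∀ N : ℕ, VV (Pz z0 J) c (fun p => if p ∣ N then 1 else 0) ≤
      (if ∀ p ∈ Pz z0 J, ¬ p ∣ N then 1 else 0))
    (Δ : ℝ) (hΔ : 1 / (L : ℝ) ≤ Δ) (hΔ1 : Δ ≤ 1)
    (c0 : ℝ) (hc0 : 0 < c0) (hM : c0 ≤ Mm B W T L k (Pz z0 J) c)
    (htail : T * (c1 * D ^ 2) * (1 / (2 * L * Δ)) ^ (2 * k) ≤ c0 / 4)
    (x : ℝ) (hx : x ∈ Set.Icc Z (2 * Z))
    (hnot : ¬ Good2 B W (2 ^ 2 ^ J) (B * (28 * W * Z ^ 2 * Δ)) x) :
    1 ≤ Phi2 B W T L k (Pz z0 J) D c c1 c0 Δ (2 ^ 2 ^ J - 1) N x := by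
  have hL : (2 : ℝ) ≤ L := by exact_mod_cast h.hL
  have hL1 : 1 ≤ L := by
    have := h.hL
    omega
  have hW1 : 1 ≤ W := by
    have := h.hW
    omega
  have hW0 : (1 : ℝ) ≤ W := by exact_mod_cast hW1
  have hc10 : 0 ≤ c1 := (abs_nonneg _).trans (hc1 ∅)
  have hΔ0 : 0 < Δ := lt_of_lt_of_le (by positivity) hΔ
  have hP : ∀ p ∈ Pz z0 J, p.Prime := fun p hp => ((Pz_mem z0 J p).mp hp).2.1
  have hpi := Real.pi_pos
  set D' : ℕ := 2 ^ 2 ^ J - 1 with hD'
  have hind : ∀ q : ℕ × ℕ, 0 ≤ (Iset2 B W (W * Δ) q).indicator (fun _ => (1 : ℝ)) x := by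
    intro q
    exact Set.indicator_nonneg (fun _ _ => zero_le_one) x
  set τ : ℝ := (1 / (2 * L * Δ)) ^ (2 * k) with hτ
  have hτ0 : 0 ≤ τ := by rw [hτ]; positivity
  have hterm : ∀ t ∈ Ioc T (2 * T), wk L k ((gt B W t x - 1) / W) *
      In B W (Pz z0 J) D c t (gt B W t x) ≤
      ∑ q ∈ (BadS2 D' B W N T).filter (fun q => q.2 = t),
        (Iset2 B W (W * Δ) q).indicator (fun _ => (1 : ℝ)) x +
      (c1 * D ^ 2 * (4 * Real.pi * (W * Δ))) * wk L k ((gt B W t x - 1) / W) +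
      (c1 * D ^ 2) * τ := by
    intro t ht
    have ht' := Finset.mem_Ioc.mp ht
    have hs0 : 0 ≤ ∑ q ∈ (BadS2 D' B W N T).filter (fun q => q.2 = t),
        (Iset2 B W (W * Δ) q).indicator (fun _ => (1 : ℝ)) x :=
      Finset.sum_nonneg (fun q _ => hind q)
    have hw0 := wk_nonneg L k ((gt B W t x - 1) / W)
    have hw1 := wk_le_one L k ((gt B W t x - 1) / W)
    by_cases hnear : ∃ m : ℤ, |(gt B W t x - 1) / W - m| < Δ
    · obtain ⟨m, hm⟩ := hnear
      obtain ⟨u, hu1, hu2, hu3, hu4, hu5⟩ := approx2 h t ht x hx Δ hΔ hΔ1 m hm.le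
      have hmod : u ≡ 1 [MOD W] := by
        apply Nat.ModEq.symm
        rw [Nat.modEq_iff_dvd]
        refine ⟨m, ?_⟩
        push_cast
        linarith
      have hvn : vn B W t < u := by
        unfold vv at hu2
        unfold vn
        exact_mod_cast hu2
      have h3 := In_near B W (Pz z0 J) hP D c c1 hc1 hc t u (gt B W t x) (W * Δ) hu4 hvn.le
      have h4 := hVV (u * ((u - vn B W t) * (u + vn B W t)))
      have h5 : (if ∀ p ∈ Pz z0 J, ¬ p ∣ u * ((u - vn B W t) * (u + vn B W t)) then (1 : ℝ)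
          else 0) ≤ ∑ q ∈ (BadS2 D' B W N T).filter (fun q => q.2 = t),
          (Iset2 B W (W * Δ) q).indicator (fun _ => (1 : ℝ)) x := by
        by_cases hcop : ∀ p ∈ Pz z0 J, ¬ p ∣ u * ((u - vn B W t) * (u + vn B W t))
        · rw [if_pos hcop]
          have hbad : BadP2 D' B W u t := by
            by_contra hg
            apply hnot
            obtain ⟨m', hm1, hm2, hm3, hm4, hm5⟩ := arith2 B W u t z0 J hB hBW h2 hW1
              (by omega) hmod hvn hWp hcop hg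
            refine ⟨m', hm2, hm3, hm4, hm5, ?_⟩
            rw [hm1, ← mul_sub, abs_mul, abs_of_nonneg (by positivity : (0 : ℝ) ≤ B)]
            gcongr
          have hmem : (u, t) ∈ (BadS2 D' B W N T).filter (fun q => q.2 = t) := by
            classical
            unfold BadS2
            rw [Finset.mem_filter, Finset.mem_filter, Finset.mem_product, Finset.mem_range]
            refine ⟨⟨⟨?_, ht⟩, hmod, hvn, hbad⟩, rfl⟩
            have : u ≤ N := by
              rw [hN]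
              exact Nat.le_floor hu3
            omega
          have hone : (Iset2 B W (W * Δ) (u, t)).indicator (fun _ => (1 : ℝ)) x = 1 := by
            rw [Set.indicator_of_mem]
            exact hu4
          have h6 := Finset.single_le_sum (f := fun q => (Iset2 B W (W * Δ) q).indicator
            (fun _ => (1 : ℝ)) x) (fun q _ => hind q) hmem
          rw [hone] at h6
          exact h6
        · rw [if_neg hcop]
          exact hs0
      have h6 : In B W (Pz z0 J) D c t (gt B W t x) ≤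
          ∑ q ∈ (BadS2 D' B W N T).filter (fun q => q.2 = t),
            (Iset2 B W (W * Δ) q).indicator (fun _ => (1 : ℝ)) x +
          c1 * D ^ 2 * (4 * Real.pi * (W * Δ)) := by linarith
      calc wk L k ((gt B W t x - 1) / W) * In B W (Pz z0 J) D c t (gt B W t x) ≤
          wk L k ((gt B W t x - 1) / W) *
          (∑ q ∈ (BadS2 D' B W N T).filter (fun q => q.2 = t),
            (Iset2 B W (W * Δ) q).indicator (fun _ => (1 : ℝ)) x +
          c1 * D ^ 2 * (4 * Real.pi * (W * Δ))) := by gcongr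
        _ = wk L k ((gt B W t x - 1) / W) *
          (∑ q ∈ (BadS2 D' B W N T).filter (fun q => q.2 = t),
            (Iset2 B W (W * Δ) q).indicator (fun _ => (1 : ℝ)) x) +
          c1 * D ^ 2 * (4 * Real.pi * (W * Δ)) * wk L k ((gt B W t x - 1) / W) := by ring
        _ ≤ 1 * (∑ q ∈ (BadS2 D' B W N T).filter (fun q => q.2 = t),
            (Iset2 B W (W * Δ) q).indicator (fun _ => (1 : ℝ)) x) +
          c1 * D ^ 2 * (4 * Real.pi * (W * Δ)) * wk L k ((gt B W t x - 1) / W) := by gcongr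
        _ ≤ _ := by
            have : 0 ≤ (c1 * D ^ 2) * τ := by positivity
            linarith
    · push Not at hnear
      have h3 := wk_tail L k hL1 _ Δ hΔ0 hnear
      have h4 := In_triv B W (Pz z0 J) hP D c c1 hc1 t (gt B W t x)
      have h5 : wk L k ((gt B W t x - 1) / W) * In B W (Pz z0 J) D c t (gt B W t x) ≤
          (c1 * D ^ 2) * τ := by
        calc _ ≤ wk L k ((gt B W t x - 1) / W) * (c1 * D ^ 2) := by gcongr
          _ ≤ τ * (c1 * D ^ 2) := by gcongr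
          _ = _ := by ring
      have h6 : 0 ≤ (c1 * D ^ 2 * (4 * Real.pi * (W * Δ))) * wk L k ((gt B W t x - 1) / W) := by
        positivity
      linarith
  have hsum : Mf B W T L k (Pz z0 J) D c x ≤ Ef2 D' B W N T (W * Δ) x +
      (c1 * D ^ 2 * (4 * Real.pi * (W * Δ))) * M1 B W T L k x + T * (c1 * D ^ 2) * τ := by
    rw [Mf_eq]
    refine (Finset.sum_le_sum hterm).trans (le_of_eq ?_)
    rw [Finset.sum_add_distrib, Finset.sum_add_distrib, ← Finset.mul_sum, Finset.sum_const,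
      Nat.card_Ioc, nsmul_eq_mul]
    have h3 : ∑ t ∈ Ioc T (2 * T), ∑ q ∈ (BadS2 D' B W N T).filter (fun q => q.2 = t),
        (Iset2 B W (W * Δ) q).indicator (fun _ => (1 : ℝ)) x = Ef2 D' B W N T (W * Δ) x := by
      unfold Ef2
      apply Finset.sum_fiberwise_of_maps_to
      intro q hq
      classical
      unfold BadS2 at hq
      rw [Finset.mem_filter, Finset.mem_product] at hq
      exact hq.1.2
    rw [h3]
    have h4 : ((2 * T - T : ℕ) : ℝ) = T := by
      have : 2 * T - T = T := by omega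
      rw [this]
    rw [h4]
    unfold M1
    ring
  have hE0 : 0 ≤ Ef2 D' B W N T (W * Δ) x := Finset.sum_nonneg (fun q _ => hind q)
  have hM10 : 0 ≤ M1 B W T L k x := Finset.sum_nonneg (fun t _ => wk_nonneg _ _ _)
  by_contra hcon
  push Not at hcon
  unfold Phi2 at hcon
  set X1 : ℝ := Mf B W T L k (Pz z0 J) D c x - Mm B W T L k (Pz z0 J) c with hX1
  set X2 : ℝ := Ef2 D' B W N T (W * Δ) x with hX2
  set K : ℝ := c1 * D ^ 2 * (4 * Real.pi * (W * Δ)) with hK
  have hK0 : 0 ≤ K := by rw [hK]; positivity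
  set X3 : ℝ := M1 B W T L k x with hX3
  have a1 : 0 ≤ 16 / c0 ^ 2 * X1 ^ 2 := by positivity
  have a2 : 0 ≤ 4 / c0 * X2 := by positivity
  have a3 : 0 ≤ 4 / c0 * K * X3 := by positivity
  have b1 : 16 / c0 ^ 2 * X1 ^ 2 < 1 := by linarith
  have b2 : 4 / c0 * X2 < 1 := by linarith
  have b3 : 4 / c0 * K * X3 < 1 := by linarith
  have d1 : X1 ^ 2 < (c0 / 4) ^ 2 := by
    rw [div_mul_eq_mul_div, div_lt_one (by positivity)] at b1
    nlinarith
  have d2 : X2 < c0 / 4 := by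
    rw [div_mul_eq_mul_div, div_lt_one hc0] at b2
    linarith
  have d3 : K * X3 < c0 / 4 := by
    rw [show 4 / c0 * K * X3 = 4 * (K * X3) / c0 by ring, div_lt_one hc0] at b3
    linarith
  have e1 := (abs_lt.mp (abs_lt_of_sq_lt_sq d1 (by positivity))).1
  linarith

end Pool.Agent.Q148.PS
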