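import Mathlib

set_option autoImplicit false

/-! # The numerical inequality -/

namespace Pool.Agent.Q148.PS

open Finset

/-- the constant -/
noncomputable def Kc (W c2 V V2 : ℝ) : ℝ :=
  4 * 589824 * V / c2 ^ 2 + 245760 / c2 + 98304 * W / c2 + 98304 * V2 * W / c2 + 768 / c2

lemma num (E0 E : ℕ) (hE : 36 * E0 + 7 ≤ E) (W c2 V V2 y j T L Z c1 D D' c0 Δ : ℝ)
    (hy : 2 ≤ y) (hj : 1 ≤ j) (hW : 1 ≤ W) (hc1 : 0 ≤ c1) (hc1' : c1 ≤ 3 * j)
    (hD : D = y ^ (4 * E0)) (hD' : y ^ 4 / 2 ≤ D') (hc2 : 0 < c2)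
    (hc0 : c0 = (T / L) * c2 / (64 * j ^ 3)) (hV : 0 ≤ V) (hV2 : 0 ≤ V2) (hΔ : Δ = y / L)
    (hT : y ^ E ≤ T) (hL : 0 < L) (hTL : y ^ (28 * E0 + 3) ≤ T / L)
    (hLT : T / L ≤ 2 * y ^ (28 * E0 + 3)) (hZ0 : 0 < Z) (hTZ : T ^ 2 ≤ Z)
    (hK : Kc W c2 V V2 * j ^ 8 ≤ y) :
    16 / c0 ^ 2 * (c1 ^ 2 * D ^ 7 * (V * (T / L) * Z)) +
      4 / c0 * ((15 * T * Z / (W * D') + 4 * T ^ 2 + 3 * T * Real.sqrt (6 * Z)) * (8 * (W * Δ))) +
      4 / c0 * (c1 * D ^ 2 * (4 * Real.pi * (W * Δ))) * (V2 * (T / L) * Z) ≤ Z / y := by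
  have hy0 : 0 < y := by linarith
  have hj0 : 0 < j := by linarith
  have hyE : 0 < y ^ E := by positivity
  have hT0 : 0 < T := lt_of_lt_of_le hyE hT
  have hD0 : 0 < D' := lt_of_lt_of_le (by positivity) hD'
  set q : ℝ := T / L with hq
  have hq0 : 0 < q := by rw [hq]; positivity
  have hLq : L = T / q := by
    rw [hq]
    field_simp
  have hj8 : 1 ≤ j ^ 8 := one_le_pow₀ hj
  have hKa : 4 * 589824 * V / c2 ^ 2 * j ^ 8 ≤ y := by
    refine le_trans ?_ hK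
    gcongr
    unfold Kc
    have : 0 ≤ 245760 / c2 + 98304 * W / c2 + 98304 * V2 * W / c2 + 768 / c2 := by positivity
    linarith
  have hKb : 245760 / c2 * j ^ 8 ≤ y := by
    refine le_trans ?_ hK
    gcongr
    unfold Kc
    have : 0 ≤ 4 * 589824 * V / c2 ^ 2 + 98304 * W / c2 + 98304 * V2 * W / c2 + 768 / c2 := by
      positivity
    linarith
  have hKd : 98304 * W / c2 * j ^ 8 ≤ y := by
    refine le_trans ?_ hK
    gcongr
    unfold Kc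
    have : 0 ≤ 4 * 589824 * V / c2 ^ 2 + 245760 / c2 + 98304 * V2 * W / c2 + 768 / c2 := by
      positivity
    linarith
  have hKe : 98304 * V2 * W / c2 * j ^ 8 ≤ y := by
    refine le_trans ?_ hK
    gcongr
    unfold Kc
    have : 0 ≤ 4 * 589824 * V / c2 ^ 2 + 245760 / c2 + 98304 * W / c2 + 768 / c2 := by
      positivity
    linarith
  have hj38 : j ^ 3 ≤ j ^ 8 := pow_le_pow_right₀ hj (by norm_num)
  have hj48 : j ^ 4 ≤ j ^ 8 := pow_le_pow_right₀ hj (by norm_num)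
  have hyy : y ≤ y ^ 2 := by nlinarith
  -- part 1
  have g1 : 16 / c0 ^ 2 * (c1 ^ 2 * D ^ 7 * (V * q * Z)) ≤ Z / (4 * y) := by
    have h1 : 16 / c0 ^ 2 * (c1 ^ 2 * D ^ 7 * (V * q * Z)) =
        (65536 * V / c2 ^ 2) * (c1 ^ 2 * j ^ 6) * (y ^ (28 * E0) / q) * Z := by
      rw [hc0, hD, ← pow_mul]
      have h2 : 4 * E0 * 7 = 28 * E0 := by ring
      rw [h2]
      field_simp
      ring
    rw [h1]
    have h2 : c1 ^ 2 * j ^ 6 ≤ 9 * j ^ 8 := by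
      calc c1 ^ 2 * j ^ 6 ≤ (3 * j) ^ 2 * j ^ 6 := by gcongr
        _ = _ := by ring
    have h3 : y ^ (28 * E0) / q ≤ 1 / y ^ 3 := by
      rw [div_le_div_iff₀ hq0 (by positivity), one_mul, ← pow_add]
      exact hTL
    calc (65536 * V / c2 ^ 2) * (c1 ^ 2 * j ^ 6) * (y ^ (28 * E0) / q) * Z ≤
        (65536 * V / c2 ^ 2) * (9 * j ^ 8) * (1 / y ^ 3) * Z := by gcongr
      _ = (4 * 589824 * V / c2 ^ 2 * j ^ 8) / 4 * (1 / y ^ 3) * Z := by ring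
      _ ≤ y / 4 * (1 / y ^ 3) * Z := by gcongr
      _ = Z / (4 * y ^ 2) := by field_simp
      _ ≤ Z / (4 * y) := by gcongr
  -- part 2
  have g2a : 4 / c0 * ((15 * T * Z / (W * D')) * (8 * (W * Δ))) ≤ Z / (4 * y) := by
    have h1 : 4 / c0 * ((15 * T * Z / (W * D')) * (8 * (W * Δ))) =
        30720 / c2 * j ^ 3 * (y / D') * Z := by
      rw [hc0, hΔ, hLq]
      field_simp
      ring
    rw [h1]
    have h2 : y / D' ≤ 2 / y ^ 3 := by
      rw [div_le_div_iff₀ hD0 (by positivity)]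
      calc y * y ^ 3 = 2 * (y ^ 4 / 2) := by ring
        _ ≤ 2 * D' := by gcongr
    calc 30720 / c2 * j ^ 3 * (y / D') * Z ≤ 30720 / c2 * j ^ 8 * (2 / y ^ 3) * Z := by gcongr
      _ = (245760 / c2 * j ^ 8) * (1 / (4 * y ^ 3)) * Z := by
          field_simp
          ring
      _ ≤ y * (1 / (4 * y ^ 3)) * Z := by gcongr
      _ = Z / (4 * y ^ 2) := by field_simp
      _ ≤ Z / (4 * y) := by gcongr
  have hsZ : T ≤ Real.sqrt Z := Real.le_sqrt_of_sq_le hTZ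
  have hsZ0 : 0 ≤ Real.sqrt Z := Real.sqrt_nonneg _
  have hsZ2 : Real.sqrt Z * Real.sqrt Z = Z := Real.mul_self_sqrt hZ0.le
  have hs6 : Real.sqrt (6 * Z) ≤ 5 / 2 * Real.sqrt Z := by
    rw [Real.sqrt_mul (by norm_num)]
    have : Real.sqrt 6 ≤ 5 / 2 := by
      rw [Real.sqrt_le_left (by norm_num)]
      norm_num
    gcongr
  have hy4 : y ^ 4 ≤ Real.sqrt Z := by
    refine le_trans ?_ (hT.trans hsZ)
    exact pow_le_pow_right₀ (by linarith) (by omega)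
  have g2b : 4 / c0 * ((4 * T ^ 2 + 3 * T * Real.sqrt (6 * Z)) * (8 * (W * Δ))) ≤ Z / (4 * y) := by
    have h1 : 4 / c0 * ((4 * T ^ 2 + 3 * T * Real.sqrt (6 * Z)) * (8 * (W * Δ))) =
        2048 * W / c2 * j ^ 3 * y * (4 * T + 3 * Real.sqrt (6 * Z)) := by
      rw [hc0, hΔ, hLq]
      field_simp
      ring
    rw [h1]
    calc 2048 * W / c2 * j ^ 3 * y * (4 * T + 3 * Real.sqrt (6 * Z)) ≤
        2048 * W / c2 * j ^ 8 * y * (4 * Real.sqrt Z + 3 * (5 / 2 * Real.sqrt Z)) := by gcongr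
      _ ≤ 2048 * W / c2 * j ^ 8 * y * (12 * Real.sqrt Z) := by
          gcongr
          linarith
      _ = (98304 * W / c2 * j ^ 8) * y * Real.sqrt Z / 4 := by ring
      _ ≤ y * y * Real.sqrt Z / 4 := by gcongr
      _ = (y ^ 3 * Real.sqrt Z) / (4 * y) := by field_simp
      _ ≤ (Real.sqrt Z * Real.sqrt Z) / (4 * y) := by
          gcongr
          refine le_trans ?_ hy4
          exact pow_le_pow_right₀ (by linarith) (by norm_num)
      _ = _ := by rw [hsZ2]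
  have g3 : 4 / c0 * (c1 * D ^ 2 * (4 * Real.pi * (W * Δ))) * (V2 * q * Z) ≤ Z / (4 * y) := by
    have hpi : Real.pi ≤ 4 := Real.pi_le_four
    have hpi0 := Real.pi_pos
    have h1 : 4 / c0 * (c1 * D ^ 2 * (4 * Real.pi * (W * Δ))) * (V2 * q * Z) =
        1024 * Real.pi * V2 * W / c2 * (c1 * j ^ 3) * (y ^ (8 * E0 + 1) / L) * Z := by
      rw [hc0, hΔ, hD, ← pow_mul]
      have h2 : 4 * E0 * 2 = 8 * E0 := by ring
      rw [h2]
      field_simp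
      ring
    rw [h1]
    have h2 : c1 * j ^ 3 ≤ 3 * j ^ 8 := by
      calc c1 * j ^ 3 ≤ (3 * j) * j ^ 3 := by gcongr
        _ = 3 * j ^ 4 := by ring
        _ ≤ _ := by gcongr
    have h3 : y ^ (8 * E0 + 1) / L ≤ 2 / y ^ 3 := by
      rw [div_le_div_iff₀ hL (by positivity)]
      have h4 : T ≤ 2 * y ^ (28 * E0 + 3) * L := by
        rw [hq, div_le_iff₀ hL] at hLT
        exact hLT
      have h5 : y ^ (8 * E0 + 1) * y ^ 3 * y ^ (28 * E0 + 3) ≤ T := by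
        rw [← pow_add, ← pow_add]
        refine le_trans ?_ hT
        exact pow_le_pow_right₀ (by linarith) (by omega)
      have h6 : 0 < y ^ (28 * E0 + 3) := by positivity
      have h7 : y ^ (8 * E0 + 1) * y ^ 3 * y ^ (28 * E0 + 3) ≤ 2 * L * y ^ (28 * E0 + 3) := by
        calc _ ≤ T := h5
          _ ≤ _ := h4
          _ = _ := by ring
      exact le_of_mul_le_mul_right h7 h6
    calc 1024 * Real.pi * V2 * W / c2 * (c1 * j ^ 3) * (y ^ (8 * E0 + 1) / L) * Z ≤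
        1024 * 4 * V2 * W / c2 * (3 * j ^ 8) * (2 / y ^ 3) * Z := by gcongr
      _ = (98304 * V2 * W / c2 * j ^ 8) * (1 / (4 * y ^ 3)) * Z := by
          field_simp
          ring
      _ ≤ y * (1 / (4 * y ^ 3)) * Z := by gcongr
      _ = Z / (4 * y ^ 2) := by field_simp
      _ ≤ Z / (4 * y) := by gcongr
  have hsplit : 4 / c0 * ((15 * T * Z / (W * D') + 4 * T ^ 2 + 3 * T * Real.sqrt (6 * Z)) *
      (8 * (W * Δ))) = 4 / c0 * ((15 * T * Z / (W * D')) * (8 * (W * Δ))) +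
      4 / c0 * ((4 * T ^ 2 + 3 * T * Real.sqrt (6 * Z)) * (8 * (W * Δ))) := by ring
  rw [hsplit]
  have hfin : Z / y = Z / (4 * y) + (Z / (4 * y) + Z / (4 * y)) + Z / (4 * y) := by
    field_simp
    norm_num
  rw [hfin]
  linarith

lemma tail_num (E0 E k : ℕ) (hk : k = E + 4 * E0 + 1) (W c2 V V2 y j T L c1 D c0 Δ : ℝ)
    (hy : 2 ≤ y) (hj : 1 ≤ j) (hW : 1 ≤ W) (hc1 : 0 ≤ c1) (hc1' : c1 ≤ 3 * j)
    (hD : D = y ^ (4 * E0)) (hc2 : 0 < c2)
    (hc0 : c0 = (T / L) * c2 / (64 * j ^ 3)) (hV : 0 ≤ V) (hV2 : 0 ≤ V2) (hΔ : Δ = y / L)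
    (hT0 : 0 < T) (hT : T ≤ y ^ (2 * E)) (hL : 0 < L) (hTL : y ^ (28 * E0 + 3) ≤ T / L)
    (hK : Kc W c2 V V2 * j ^ 8 ≤ y) :
    T * (c1 * D ^ 2) * (1 / (2 * L * Δ)) ^ (2 * k) ≤ c0 / 4 := by
  have hy0 : 0 < y := by linarith
  have hj0 : 0 < j := by linarith
  have hKf : 768 / c2 * j ^ 8 ≤ y := by
    refine le_trans ?_ hK
    gcongr
    unfold Kc
    have : 0 ≤ 4 * 589824 * V / c2 ^ 2 + 245760 / c2 + 98304 * W / c2 + 98304 * V2 * W / c2 := by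
      positivity
    linarith
  have hLΔ : 2 * L * Δ = 2 * y := by
    rw [hΔ]
    field_simp
  rw [hLΔ]
  have h1 : (1 / (2 * y)) ^ (2 * k) ≤ 1 / (y ^ (2 * E) * (y ^ (8 * E0) * y ^ 2)) := by
    rw [one_div_pow]
    have h2 : y ^ (2 * E) * (y ^ (8 * E0) * y ^ 2) = y ^ (2 * k) := by
      rw [← pow_add, ← pow_add, hk]
      congr 1
      ring
    rw [h2]
    gcongr
    linarith
  have hc0' : c2 / (64 * j ^ 3) ≤ c0 := by
    rw [hc0]
    have h2 : 1 ≤ T / L := le_trans (one_le_pow₀ (by linarith)) hTL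
    calc c2 / (64 * j ^ 3) = 1 * c2 / (64 * j ^ 3) := by ring
      _ ≤ _ := by gcongr
  calc T * (c1 * D ^ 2) * (1 / (2 * y)) ^ (2 * k) ≤
      y ^ (2 * E) * ((3 * j) * D ^ 2) * (1 / (y ^ (2 * E) * (y ^ (8 * E0) * y ^ 2))) := by gcongr
    _ = 3 * j / y ^ 2 := by
        rw [hD, ← pow_mul]
        have h2 : 4 * E0 * 2 = 8 * E0 := by ring
        rw [h2]
        field_simp
    _ ≤ c2 / (64 * j ^ 3) / 4 := by
        rw [div_div, div_le_div_iff₀ (by positivity) (by positivity)]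
        have h3 : 768 * j ^ 8 ≤ y * c2 := by
          have := hKf
          rw [div_mul_eq_mul_div, div_le_iff₀ hc2] at this
          exact this
        have h4 : j ^ 4 ≤ j ^ 8 := pow_le_pow_right₀ hj (by norm_num)
        have h5 : y ≤ y ^ 2 := by nlinarith
        calc 3 * j * (64 * j ^ 3 * 4) = 768 * j ^ 4 := by ring
          _ ≤ 768 * j ^ 8 := by gcongr
          _ ≤ y * c2 := h3
          _ ≤ y ^ 2 * c2 := by gcongr
          _ = _ := by ring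
    _ ≤ c0 / 4 := by gcongr

lemma exp_beats (K : ℝ) : ∃ i₀ : ℕ, ∀ i : ℕ, i₀ ≤ i → K * ((2 : ℝ) ^ i) ^ 8 ≤ 2 ^ (2 ^ i) := by
  have h1 : Filter.Tendsto (fun n : ℕ => (n : ℝ) ^ 8 / 2 ^ n) Filter.atTop (nhds 0) :=
    tendsto_pow_const_div_const_pow_of_one_lt 8 (by norm_num : (1 : ℝ) < 2)
  have h2 : Filter.Tendsto (fun i : ℕ => 2 ^ i) Filter.atTop Filter.atTop :=
    tendsto_pow_atTop_atTop_of_one_lt (by norm_num : 1 < 2)
  have h3 := h1.comp h2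
  have h4 : (0 : ℝ) < 1 / (|K| + 1) := by positivity
  have h5 := (h3.eventually (gt_mem_nhds h4))
  rw [Filter.eventually_atTop] at h5
  obtain ⟨i₀, hi₀⟩ := h5
  refine ⟨i₀, ?_⟩
  intro i hi
  have h6 := hi₀ i hi
  simp only [Function.comp] at h6
  rw [div_lt_div_iff₀ (by positivity) (by positivity), one_mul] at h6
  push_cast at h6
  have h7 : K ≤ |K| + 1 := by
    have := le_abs_self K
    linarith
  calc K * ((2 : ℝ) ^ i) ^ 8 ≤ (|K| + 1) * ((2 : ℝ) ^ i) ^ 8 := by gcongr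
    _ = ((2 : ℝ) ^ i) ^ 8 * (|K| + 1) := by ring
    _ ≤ _ := h6.le

end Pool.Agent.Q148.PS
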