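import Pool.Agent.Q148.PS.Int
import Pool.Agent.Q148.PS.Num
import Pool.Agent.Q148.CN.Asy

set_option autoImplicit false

/-! # The exceptional set in a block -/

namespace Pool.Agent.Q148.PS

open Finset MeasureTheory Pool.Agent.Q148.CN Pool.Agent.Y882

lemma two_pow_pow_four (i : ℕ) : 2 ^ 2 ^ (i + 2) = (2 ^ 2 ^ i) ^ 4 := by
  rw [← pow_mul]
  congr 1
  rw [pow_add]
  norm_num

lemma two_pow_pow_two (i E : ℕ) : (2 ^ 2 ^ (i + 1)) ^ E = (2 ^ 2 ^ i) ^ (2 * E) := by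
  rw [pow_mul (2 ^ 2 ^ i) 2 E]
  congr 1
  rw [← pow_mul]
  congr 1

lemma add_three_le (n : ℕ) : n + 3 ≤ 3 * 2 ^ n := by
  induction n with
  | zero => norm_num
  | succ n ih =>
    rw [pow_succ]
    omega

lemma choose_i (E i₀ T : ℕ) (hE : 1 ≤ E) (hT : (2 ^ 2 ^ i₀) ^ E ≤ T) :
    ∃ i : ℕ, i₀ ≤ i ∧ (2 ^ 2 ^ i) ^ E ≤ T ∧ T < (2 ^ 2 ^ i) ^ (2 * E) := by
  have hbig : ∀ i : ℕ, i < (2 ^ 2 ^ i) ^ E := by
    intro i
    calc i < 2 ^ i := Nat.lt_two_pow_self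
      _ ≤ 2 ^ 2 ^ i := Nat.pow_le_pow_right (by norm_num) (Nat.lt_two_pow_self).le
      _ = (2 ^ 2 ^ i) ^ 1 := by ring
      _ ≤ (2 ^ 2 ^ i) ^ E := Nat.pow_le_pow_right (by positivity) hE
  have hi₀T : i₀ ≤ T := ((hbig i₀).trans_le hT).le
  set i := Nat.findGreatest (fun i => (2 ^ 2 ^ i) ^ E ≤ T) T with hi
  refine ⟨i, Nat.le_findGreatest hi₀T hT, Nat.findGreatest_spec (P := fun i => (2 ^ 2 ^ i) ^ E ≤ T)
    hi₀T hT, ?_⟩
  rw [← two_pow_pow_two]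
  by_contra hcon
  push Not at hcon
  have h1 : i + 1 ≤ T := ((hbig (i + 1)).trans_le hcon).le
  exact Nat.findGreatest_is_greatest (P := fun i => (2 ^ 2 ^ i) ^ E ≤ T) (Nat.lt_succ_self i) h1 hcon

theorem loc : ∃ E0 zmin : ℕ, ∀ z0 B W E : ℕ, zmin ≤ z0 → Squarefree B → B ∣ W → 2 ∣ W → 2 ≤ W →
    (∀ p : ℕ, p.Prime → (p ≤ z0 ↔ p ∣ W)) → 36 * E0 + 7 ≤ E →
    ∃ T₀ : ℝ, 1 ≤ T₀ ∧ ∀ (T : ℕ) (Z : ℝ), T₀ ≤ T → 0 < Z → (T : ℝ) ^ 7 ≤ Z ^ 3 →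
      Z ^ 3 ≤ 128 * (T : ℝ) ^ 7 →
      ∃ i : ℕ, (2 ^ 2 ^ i) ^ E ≤ T ∧ T < (2 ^ 2 ^ i) ^ (2 * E) ∧
        ∃ Ms : Set ℝ, MeasurableSet Ms ∧
          volume.real (Ms ∩ Set.Ioc Z (2 * Z)) ≤ Z / 2 ^ 2 ^ i ∧
          ∀ x ∈ Set.Icc Z (2 * Z), ¬ Good2 B W ((2 ^ 2 ^ i) ^ 4)
            (56 * B * W * Z ^ 2 * (2 ^ 2 ^ i) ^ (28 * E0 + 4) / T) x → x ∈ Ms := by
  obtain ⟨C, hC1, HF⟩ := flw
  obtain ⟨cP, hcP0, hcP⟩ := prod_ge
  set b : ℕ := C * 4 with hb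
  set E0 : ℕ := C * b with hE0
  refine ⟨E0, C * 4 + 6, ?_⟩
  intro z0 B W E hz0 hB hBW h2W hW hWp hE
  have hB1 : 1 ≤ B := Nat.one_le_iff_ne_zero.mpr hB.ne_zero
  have hB0 : (1 : ℝ) ≤ B := by exact_mod_cast hB1
  have hW0 : (2 : ℝ) ≤ W := by exact_mod_cast hW
  have hb1 : 1 ≤ b := by omega
  set k : ℕ := E + 4 * E0 + 1 with hk
  have hk1 : 1 ≤ k := by omega
  set c2 : ℝ := cP / (12 * 4 ^ k) with hc2
  have hc20 : 0 < c2 := by rw [hc2]; positivity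
  set V : ℝ := V1 B W k with hV
  have hV0 : 0 ≤ V := V1_nonneg B W k
  set V2 : ℝ := 2 + 6 * 4 ^ k * V with hV2
  have hV20 : 0 ≤ V2 := by rw [hV2]; positivity
  obtain ⟨i₀, hi₀⟩ := exp_beats (Kc W c2 V V2 + (k + 1) * W)
  have hKc0 : 0 ≤ Kc W c2 V V2 := by unfold Kc; positivity
  refine ⟨(10 : ℝ) ^ 15 * (B : ℝ) ^ 18 * W ^ 36 + 2 ^ 20 + (2 ^ 2 ^ i₀) ^ E, ?_, ?_⟩
  · have h1 : 0 ≤ (10 : ℝ) ^ 15 * (B : ℝ) ^ 18 * W ^ 36 := by positivity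
    have h2 : (0 : ℝ) ≤ (2 ^ 2 ^ i₀) ^ E := by positivity
    linarith
  intro T Z hT hZ0 hZ1 hZ2
  have t1 : 0 ≤ (10 : ℝ) ^ 15 * (B : ℝ) ^ 18 * W ^ 36 := by positivity
  have t2 : (0 : ℝ) ≤ (2 ^ 2 ^ i₀) ^ E := by positivity
  have hTr : (2 : ℝ) ^ 20 ≤ T := by linarith
  have hTi₀ : (2 ^ 2 ^ i₀) ^ E ≤ T := by
    have : (2 ^ 2 ^ i₀ : ℝ) ^ E ≤ T := by linarith
    exact_mod_cast this
  obtain ⟨i, hi, hiT, hiT2⟩ := choose_i E i₀ T (by omega) hTi₀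
  refine ⟨i, hiT, hiT2, ?_⟩
  have hKi := hi₀ i hi
  set yn : ℕ := 2 ^ 2 ^ i with hyn
  set y : ℝ := 2 ^ 2 ^ i with hy
  have hyr : (yn : ℝ) = y := by rw [hyn, hy]; push_cast; rfl
  set j : ℝ := 2 ^ i with hj
  have hj1 : 1 ≤ j := one_le_pow₀ (by norm_num)
  have hyn2 : 2 ≤ yn := by
    rw [hyn]
    calc 2 = 2 ^ 1 := by norm_num
      _ ≤ 2 ^ 2 ^ i := Nat.pow_le_pow_right (by norm_num) Nat.one_le_two_pow
  have hy2 : 2 ≤ y := by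
    rw [← hyr]
    exact_mod_cast hyn2
  have hy0 : 0 < y := by linarith
  have hK1 : Kc W c2 V V2 * j ^ 8 ≤ y := by
    refine le_trans ?_ hKi
    gcongr
    have : 0 ≤ ((k : ℝ) + 1) * W := by positivity
    linarith
  have hK2 : ((k : ℝ) + 1) * W ≤ y := by
    refine le_trans ?_ hKi
    have h1 : 1 ≤ j ^ 8 := one_le_pow₀ hj1
    have h2 : 0 ≤ (Kc W c2 V V2 + (k + 1) * W) := by positivity
    calc ((k : ℝ) + 1) * W ≤ (Kc W c2 V V2 + (k + 1) * W) * 1 := by linarith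
      _ ≤ _ := by gcongr
  -- the length
  set A : ℕ := 28 * E0 + 3 with hA
  set L : ℕ := T / yn ^ A with hL
  have hynA : 0 < yn ^ A := by positivity
  have hyL : yn ≤ L := by
    rw [hL, Nat.le_div_iff_mul_le hynA]
    calc yn * yn ^ A = yn ^ (A + 1) := by ring
      _ ≤ yn ^ E := Nat.pow_le_pow_right (by omega) (by omega)
      _ ≤ T := hiT
  have hL2 : 2 ≤ L := hyn2.trans hyL
  have hL0 : (0 : ℝ) < L := by exact_mod_cast (by omega : 0 < L)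
  have hLT : L ≤ T := Nat.div_le_self _ _
  have hpar : Par B W T L Z := ⟨hB1, hW, hL2, hLT, hZ0, hZ1, hZ2, by linarith⟩
  have hTL1 : y ^ A ≤ T / L := by
    rw [le_div_iff₀ hL0]
    have h1 := Nat.div_mul_le_self T (yn ^ A)
    rw [← hL] at h1
    have h2 : ((L * yn ^ A : ℕ) : ℝ) ≤ T := by exact_mod_cast h1
    push_cast at h2
    rw [hyr] at h2
    linarith
  have hTL2 : (T : ℝ) / L ≤ 2 * y ^ A := by
    rw [div_le_iff₀ hL0]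
    have h1 := Nat.lt_div_mul_add (a := T) (b := yn ^ A) hynA
    rw [← hL] at h1
    have h2 : (T : ℝ) < ((L * yn ^ A + yn ^ A : ℕ) : ℝ) := by exact_mod_cast h1
    push_cast at h2
    rw [hyr] at h2
    have h3 : y ^ A ≤ L * y ^ A := by
      have : (1 : ℝ) ≤ L := by exact_mod_cast (by omega : 1 ≤ L)
      have h4 : 0 ≤ y ^ A := by positivity
      nlinarith
    linarith
  have hT1 : (1 : ℝ) ≤ T := by linarith
  have hTpos : (0 : ℝ) < T := by linarith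
  have hTZ : (T : ℝ) ^ 2 ≤ Z := by
    have h1 : ((T : ℝ) ^ 2) ^ 3 ≤ Z ^ 3 := by
      calc ((T : ℝ) ^ 2) ^ 3 = (T : ℝ) ^ 6 := by ring
        _ ≤ (T : ℝ) ^ 7 := pow_le_pow_right₀ hT1 (by norm_num)
        _ ≤ _ := hZ1
    exact le_of_pow_le_pow_left₀ (by norm_num) hZ0.le h1
  -- the sieve
  set J : ℕ := i + 2 with hJ
  have hzJ : 2 ^ 2 ^ J = yn ^ 4 := by rw [hJ, hyn]; exact two_pow_pow_four i
  set D : ℕ := (2 ^ 2 ^ J) ^ (C * b) with hD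
  have hDy : (D : ℝ) = y ^ (4 * E0) := by
    rw [hD, hzJ, ← pow_mul, hE0]
    push_cast
    rw [hyr]
  obtain ⟨cU, cL, hc1, hc2', hc3, hc4⟩ := HF 3 b J z0 (Pz z0 J) (le_refl _) (by omega) (by
    intro p hp
    rw [Pz_mem] at hp
    exact ⟨hp.2.1, hp.2.2, hp.1.le⟩)
  set c1 : ℝ := (J : ℝ) + 1 with hc1def
  have hc10 : 0 ≤ c1 := by rw [hc1def]; positivity
  have hc1j : c1 ≤ 3 * j := by
    rw [hc1def, hj, hJ]
    have h1 := add_three_le i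
    have h2 : ((i + 3 : ℕ) : ℝ) ≤ ((3 * 2 ^ i : ℕ) : ℝ) := by exact_mod_cast h1
    push_cast at h2 ⊢
    linarith
  have hcL1 : ∀ S, |cL S| ≤ c1 := fun S => (hc1 S).2
  have hcL2 : ∀ S ⊆ Pz z0 J, cL S ≠ 0 → ∏ p ∈ S, p ≤ D := fun S hS h => hc2' S hS (Or.inr h)
  have hPW : ∀ p ∈ Pz z0 J, p.Prime ∧ Nat.Coprime p W := by
    intro p hp
    rw [Pz_mem] at hp
    refine ⟨hp.2.1, ?_⟩
    rw [hp.2.1.coprime_iff_not_dvd, ← hWp p hp.2.1]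
    omega
  have h8J : (8 : ℝ) ^ J = 64 * j ^ 3 := by
    rw [hJ, hj, pow_add, ← pow_mul, mul_comm i 3, pow_mul]
    norm_num
    ring
  set c0 : ℝ := (T / L) * c2 / (64 * j ^ 3) with hc0
  have hc00 : 0 < c0 := by rw [hc0]; positivity
  have hMm : c0 ≤ Mm B W T L k (Pz z0 J) cL := by
    have h1 := Mm_ge hpar k z0 J b hb1 (by omega) cP hcP0.le (hcP z0 J (by omega)) cL
      (fun g hg => (hc4 g hg).1)
    rw [h8J] at h1
    exact h1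
  set Δ : ℝ := y / L with hΔ
  have hyLr : y ≤ L := by
    rw [← hyr]
    exact_mod_cast hyL
  have hΔ1 : 1 / (L : ℝ) ≤ Δ := by
    rw [hΔ]
    gcongr
    linarith
  have hΔ2 : Δ ≤ 1 := by
    rw [hΔ, div_le_one hL0]
    exact hyLr
  have hyE : y ^ E ≤ T := by
    rw [← hyr]
    exact_mod_cast hiT
  have hTy : (T : ℝ) ≤ y ^ (2 * E) := by
    rw [← hyr]
    exact_mod_cast hiT2.le
  have htail := tail_num E0 E k hk W c2 V V2 y j T L c1 D c0 Δ hy2 hj1 (by linarith) hc10 hc1j hDy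
    hc20 hc0 hV0 hV20 hΔ hTpos hTy hL0 hTL1 hK1
  set N : ℕ := ⌊3 * Z⌋₊ with hN
  set D' : ℕ := 2 ^ 2 ^ J - 1 with hD'
  have hzJ1 : 16 ≤ 2 ^ 2 ^ J := by
    rw [hzJ]
    calc 16 = 2 ^ 4 := by norm_num
      _ ≤ yn ^ 4 := Nat.pow_le_pow_left hyn2 4
  have hD'1 : 1 ≤ D' := by omega
  have hD'2 : y ^ 4 / 2 ≤ D' := by
    have h1 : 2 ^ 2 ^ J ≤ 2 * D' := by omega
    rw [hzJ] at h1
    have h2 : ((yn ^ 4 : ℕ) : ℝ) ≤ ((2 * D' : ℕ) : ℝ) := by exact_mod_cast h1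
    push_cast at h2
    rw [hyr] at h2
    linarith
  have hbig : ((k : ℝ) + 1) * L * (D * W) ≤ T := by
    rw [hDy]
    have h1 : y * y ^ (4 * E0) ≤ y ^ A := by
      calc y * y ^ (4 * E0) = y ^ (4 * E0 + 1) := by ring
        _ ≤ y ^ A := pow_le_pow_right₀ (by linarith) (by omega)
    calc ((k : ℝ) + 1) * L * (y ^ (4 * E0) * W) = (((k : ℝ) + 1) * W) * y ^ (4 * E0) * L := by ring
      _ ≤ y * y ^ (4 * E0) * L := by gcongr
      _ ≤ y ^ A * L := by gcongr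
      _ ≤ (T / L) * L := by gcongr
      _ = T := by field_simp
  have hlog : Z * (1 + Real.log T) ≤ T ^ 3 := by
    have h1 := log_sqrt T hT1
    have h2 : (Z * (2 * Real.sqrt T)) ^ 6 ≤ ((T : ℝ) ^ 3) ^ 6 := by
      have h5 : Real.sqrt (T : ℝ) ^ 6 = (T : ℝ) ^ 3 := by
        calc Real.sqrt (T : ℝ) ^ 6 = (Real.sqrt (T : ℝ) ^ 2) ^ 3 := by ring
          _ = _ := by rw [Real.sq_sqrt (by linarith)]
      calc (Z * (2 * Real.sqrt T)) ^ 6 = 64 * ((Z ^ 3) ^ 2 * Real.sqrt (T : ℝ) ^ 6) := by ring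
        _ ≤ 64 * ((128 * (T : ℝ) ^ 7) ^ 2 * (T : ℝ) ^ 3) := by
            rw [h5]
            gcongr
        _ = 2 ^ 20 * (T : ℝ) ^ 17 := by ring
        _ ≤ T * (T : ℝ) ^ 17 := by gcongr
        _ = _ := by ring
    have h3 := le_of_pow_le_pow_left₀ (by norm_num) (by positivity) h2
    calc Z * (1 + Real.log T) ≤ Z * (2 * Real.sqrt T) := by gcongr
      _ ≤ _ := h3
  obtain ⟨hint, hle⟩ := Phi2_int hpar k D N D' hk1 hN (by
    rw [hD]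
    exact Nat.one_le_pow _ _ (by omega)) hD'1 (Pz z0 J) hPW cL c1 hcL1 hcL2 hbig hlog Δ
    (by rw [hΔ]; positivity) c0 hc00
  have hnum := num E0 E hE W c2 V V2 y j T L Z c1 D D' c0 Δ hy2 hj1 (by linarith) hc10 hc1j hDy
    hD'2 hc20 hc0 hV0 hV20 hΔ hyE hL0 hTL1 hTL2 hZ0 hTZ hK1
  have hPhi0 : ∀ x, 0 ≤ Phi2 B W T L k (Pz z0 J) D cL c1 c0 Δ D' N x := by
    intro x
    unfold Phi2
    have hE0' : 0 ≤ Ef2 D' B W N T (W * Δ) x :=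
      Finset.sum_nonneg (fun q _ => Set.indicator_nonneg (fun _ _ => zero_le_one) x)
    have hM10 : 0 ≤ M1 B W T L k x := Finset.sum_nonneg (fun t _ => wk_nonneg _ _ _)
    have hpi := Real.pi_pos
    have hΔ0 : 0 ≤ Δ := by rw [hΔ]; positivity
    positivity
  refine ⟨{x | 1 ≤ Phi2 B W T L k (Pz z0 J) D cL c1 c0 Δ D' N x},
    measurableSet_le measurable_const (Phi2_meas _ _ _ _ _ _ _ _ _ _ _ _ _), ?_, ?_⟩
  · have h3 := mul_meas_ge_le_integral_of_nonneg (μ := volume.restrict (Set.Ioc Z (2 * Z)))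
      (Filter.Eventually.of_forall hPhi0) hint 1
    rw [one_mul, measureReal_restrict_apply (measurableSet_le measurable_const
      (Phi2_meas _ _ _ _ _ _ _ _ _ _ _ _ _))] at h3
    exact h3.trans (hle.trans hnum)
  · intro x hx hnot
    apply key2 hpar k z0 J D N hN hB hBW h2W (fun p hp hpz => (hWp p hp).mp hpz) cL c1 hcL1 hcL2
      (fun N => (hc3 N).1) Δ hΔ1 hΔ2 c0 hc00 hMm htail x hx
    rintro ⟨m, hm1, hm2, hm3, hm4, hm5⟩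
    apply hnot
    refine ⟨m, hm1, hm2, hm3, ?_, ?_⟩
    · intro p hp hpm
      rw [← hzJ]
      exact hm4 p hp hpm
    · refine hm5.trans ?_
      have h1 : Δ ≤ y * (2 * y ^ A) / T := by
        rw [hΔ, div_le_div_iff₀ hL0 hTpos]
        rw [div_le_iff₀ hL0] at hTL2
        calc y * (T : ℝ) ≤ y * (2 * y ^ A * L) := by gcongr
          _ = _ := by ring
      calc (B : ℝ) * (28 * W * Z ^ 2 * Δ) ≤ B * (28 * W * Z ^ 2 * (y * (2 * y ^ A) / T)) := by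
            gcongr
        _ = _ := by
            rw [hA]
            ring

end Pool.Agent.Q148.PS
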