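import Pool.Agent.Y882.FLW
import Pool.Agent.Q148.PS.Ker

set_option autoImplicit false

/-! # The sieve weights and the congruences -/

namespace Pool.Agent.Q148.PS

open Finset Pool.Agent.Y882 Pool.Agent.Helper112.LP Pool.Agent.Helper112.LP.Kba
  Pool.Agent.Helper112.LP.Kbh

/-- the cubic form -/
def Fz (a v : ℤ) : ℤ := a * (a ^ 2 - v ^ 2)

lemma Fz_cong (d a b v w : ℤ) (hab : a ≡ b [ZMOD d]) (hvw : v ≡ w [ZMOD d]) :
    d ∣ Fz a v ↔ d ∣ Fz b w := by
  have h1 : Fz a v ≡ Fz b w [ZMOD d] := by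
    unfold Fz
    exact hab.mul ((hab.pow 2).sub (hvw.pow 2))
  rw [← Int.modEq_zero_iff_dvd, ← Int.modEq_zero_iff_dvd]
  exact ⟨fun h => h1.symm.trans h, fun h => h1.trans h⟩

/-- the roots -/
def Rz (v d : ℕ) : Finset ℕ := (range d).filter (fun a => (d : ℤ) ∣ Fz a v)

lemma Rz_congr (v w d : ℕ) (h : v ≡ w [MOD d]) : Rz v d = Rz w d := by
  unfold Rz
  apply Finset.filter_congr
  intro a _
  exact Fz_cong d a a v w (Int.ModEq.refl _) ((Int.natCast_modEq_iff).mpr h)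

lemma Rz_mul (v m n : ℕ) (hm : 1 ≤ m) (hn : 1 ≤ n) (h : m.Coprime n) :
    (Rz v (m * n)).card = (Rz v m).card * (Rz v n).card := by
  have hcop : IsCoprime (m : ℤ) (n : ℤ) := Nat.isCoprime_iff_coprime.mpr h
  rw [← Finset.card_product]
  apply Finset.card_bij (fun a _ => (a % m, a % n))
  · intro a ha
    unfold Rz at ha
    rw [Finset.mem_filter] at ha
    rw [Finset.mem_product]
    unfold Rz
    rw [Finset.mem_filter, Finset.mem_filter, Finset.mem_range, Finset.mem_range]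
    have h1 : (m : ℤ) ∣ Fz a v := by
      refine dvd_trans ?_ ha.2
      push_cast
      exact dvd_mul_right _ _
    have h2 : (n : ℤ) ∣ Fz a v := by
      refine dvd_trans ?_ ha.2
      push_cast
      exact dvd_mul_left _ _
    refine ⟨⟨Nat.mod_lt _ hm, ?_⟩, ⟨Nat.mod_lt _ hn, ?_⟩⟩
    · rw [← Fz_cong m a (a % m : ℕ) v v ((Int.natCast_modEq_iff).mpr (Nat.mod_modEq a m).symm)
        (Int.ModEq.refl _)]
      exact h1
    · rw [← Fz_cong n a (a % n : ℕ) v v ((Int.natCast_modEq_iff).mpr (Nat.mod_modEq a n).symm)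
        (Int.ModEq.refl _)]
      exact h2
  · intro a ha b hb hab
    unfold Rz at ha hb
    rw [Finset.mem_filter, Finset.mem_range] at ha hb
    simp only [Prod.mk.injEq] at hab
    have h1 : a ≡ b [MOD m * n] := (Nat.modEq_and_modEq_iff_modEq_mul h).mp ⟨hab.1, hab.2⟩
    unfold Nat.ModEq at h1
    rwa [Nat.mod_eq_of_lt ha.1, Nat.mod_eq_of_lt hb.1] at h1
  · rintro ⟨x, y⟩ hxy
    rw [Finset.mem_product] at hxy
    unfold Rz at hxy
    rw [Finset.mem_filter, Finset.mem_filter, Finset.mem_range, Finset.mem_range] at hxy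
    simp only at hxy
    set z := Nat.chineseRemainder h x y with hz
    have hz1 : (z : ℕ) ≡ x [MOD m] := z.2.1
    have hz2 : (z : ℕ) ≡ y [MOD n] := z.2.2
    have hz3 : (z : ℕ) < m * n := Nat.chineseRemainder_lt_mul h x y (by omega) (by omega)
    refine ⟨z, ?_, ?_⟩
    · unfold Rz
      rw [Finset.mem_filter, Finset.mem_range]
      refine ⟨hz3, ?_⟩
      push_cast
      apply hcop.mul_dvd
      · rw [Fz_cong m _ x v v ((Int.natCast_modEq_iff).mpr hz1) (Int.ModEq.refl _)]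
        exact hxy.1.2
      · rw [Fz_cong n _ y v v ((Int.natCast_modEq_iff).mpr hz2) (Int.ModEq.refl _)]
        exact hxy.2.2
    · simp only [Prod.mk.injEq]
      constructor
      · unfold Nat.ModEq at hz1
        rw [hz1, Nat.mod_eq_of_lt hxy.1.1]
      · unfold Nat.ModEq at hz2
        rw [hz2, Nat.mod_eq_of_lt hxy.2.1]

lemma Rz_one (v : ℕ) : (Rz v 1).card = 1 := by
  unfold Rz
  simp

lemma Rz_prod (v : ℕ) (S : Finset ℕ) (hS : ∀ p ∈ S, p.Prime) :
    (Rz v (∏ p ∈ S, p)).card = ∏ p ∈ S, (Rz v p).card := by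
  classical
  induction S using Finset.induction_on with
  | empty =>
    rw [Finset.prod_empty, Finset.prod_empty, Rz_one]
  | insert p S hp ih =>
    rw [Finset.prod_insert hp, Finset.prod_insert hp]
    have h1 : ∀ q ∈ S, q.Prime := fun q hq => hS q (Finset.mem_insert_of_mem hq)
    have h2 := hS p (Finset.mem_insert_self p S)
    rw [Rz_mul v p _ h2.one_lt.le, ih h1]
    · exact Nat.one_le_iff_ne_zero.mpr (Finset.prod_ne_zero_iff.mpr fun q hq => (h1 q hq).ne_zero)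
    · apply Nat.Coprime.prod_right
      intro q hq
      rw [Nat.coprime_primes h2 (h1 q hq)]
      intro h3
      exact hp (h3 ▸ hq)

lemma Rz_prime (v p : ℕ) (hp : p.Prime) : (Rz v p).card ≤ 3 := by
  have hsub : Rz v p ⊆ {0, v % p, (p - v % p) % p} := by
    intro a ha
    unfold Rz at ha
    rw [Finset.mem_filter, Finset.mem_range] at ha
    obtain ⟨h1, h2⟩ := ha
    have hpp : Prime (p : ℤ) := Nat.prime_iff_prime_int.mp hp
    rw [Finset.mem_insert, Finset.mem_insert, Finset.mem_singleton]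
    unfold Fz at h2
    have h3 : ((a : ℤ) ^ 2 - (v : ℤ) ^ 2) = (a - v) * (a + v) := by ring
    rw [h3] at h2
    have hvp : v % p < p := Nat.mod_lt _ hp.pos
    rcases hpp.dvd_or_dvd h2 with h4 | h4
    · left
      have h5 : p ∣ a := by exact_mod_cast h4
      exact Nat.eq_zero_of_dvd_of_lt h5 h1
    · rcases hpp.dvd_or_dvd h4 with h5 | h5
      · right; left
        have h6 : v ≡ a [MOD p] := Nat.modEq_iff_dvd.mpr h5
        unfold Nat.ModEq at h6
        rw [h6, Nat.mod_eq_of_lt h1]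
      · right; right
        have h6 : p ∣ a + v := by exact_mod_cast h5
        have h7 : (a + v) % p = 0 := Nat.mod_eq_zero_of_dvd h6
        have h8 : (a + v % p) % p = 0 := by
          rw [Nat.add_mod, Nat.mod_mod, ← Nat.add_mod]
          exact h7
        have h9 : p ∣ a + v % p := Nat.dvd_of_mod_eq_zero h8
        obtain ⟨c, hc⟩ := h9
        have h10 : c < 2 := by
          by_contra hcon
          push Not at hcon
          have : p * 2 ≤ p * c := Nat.mul_le_mul_left p hcon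
          omega
        interval_cases c
        · have h11 : a = 0 := by omega
          have h12 : v % p = 0 := by omega
          rw [h11, h12, Nat.sub_zero, Nat.mod_self]
        · have h11 : a = p - v % p := by omega
          rw [← h11, Nat.mod_eq_of_lt h1]
  refine (Finset.card_le_card hsub).trans ?_
  exact Finset.card_le_three

lemma VV_root (P : Finset ℕ) (hP : ∀ p ∈ P, p.Prime) (c : Finset ℕ → ℝ) (v : ℕ) :
    VV P c (fun p => ((Rz v p).card : ℝ) / p) =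
      ∑ S ∈ P.powerset, c S * (((Rz v (∏ p ∈ S, p)).card : ℝ) / ((∏ p ∈ S, p : ℕ) : ℝ)) := by
  unfold VV
  apply Finset.sum_congr rfl
  intro S hS
  rw [Finset.mem_powerset] at hS
  rw [Rz_prod v S (fun p hp => hP p (hS hp)), Finset.prod_div_distrib]
  push_cast
  rfl

lemma prod_dvd_iff (S : Finset ℕ) (hS : ∀ p ∈ S, p.Prime) (N : ℕ) :
    ∏ p ∈ S, p ∣ N ↔ ∀ p ∈ S, p ∣ N := by
  constructor
  · intro h p hp
    exact (Finset.dvd_prod_of_mem _ hp).trans h
  · intro h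
    exact Finset.prod_primes_dvd N (fun p hp => (hS p hp).prime) h

lemma VV_ind (P : Finset ℕ) (hP : ∀ p ∈ P, p.Prime) (c : Finset ℕ → ℝ) (N : ℕ) :
    VV P c (fun p => if p ∣ N then 1 else 0) =
      ∑ S ∈ P.powerset, c S * (if ∏ p ∈ S, p ∣ N then 1 else 0) := by
  classical
  unfold VV
  apply Finset.sum_congr rfl
  intro S hS
  rw [Finset.mem_powerset] at hS
  congr 1
  rw [Finset.prod_ite_zero]
  have h1 := prod_dvd_iff S (fun p hp => hP p (hS hp)) N
  by_cases h2 : ∏ p ∈ S, p ∣ N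
  · rw [if_pos h2, if_pos (h1.mp h2)]
    simp
  · rw [if_neg h2, if_neg (fun h3 => h2 (h1.mpr h3))]

/-- the indicator of divisibility by the soft residue classes -/
lemma root_sum (v d u : ℕ) (hd : 1 ≤ d) (hv : v ≤ u) :
    ∑ a ∈ Rz v d, wk d 1 (((u : ℝ) - ((a : ℕ) : ℤ)) / d) =
      if d ∣ u * ((u - v) * (u + v)) then 1 else 0 := by
  have h1 : ∀ a ∈ Rz v d, wk d 1 (((u : ℝ) - ((a : ℕ) : ℤ)) / d) =
      if a = u % d then 1 else 0 := by
    intro a ha
    unfold Rz at ha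
    rw [Finset.mem_filter, Finset.mem_range] at ha
    have h2 := chi_int d hd (u : ℤ) ((a : ℕ) : ℤ)
    rw [Int.cast_natCast] at h2
    rw [h2]
    apply if_congr _ rfl rfl
    rw [← Nat.modEq_iff_dvd]
    unfold Nat.ModEq
    rw [Nat.mod_eq_of_lt ha.1]
  rw [Finset.sum_congr rfl h1, Finset.sum_ite_eq']
  apply if_congr _ rfl rfl
  unfold Rz
  rw [Finset.mem_filter, Finset.mem_range]
  have h3 : ((u * ((u - v) * (u + v)) : ℕ) : ℤ) = Fz u v := by
    unfold Fz
    push_cast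
    rw [Nat.cast_sub hv]
    ring
  rw [← Fz_cong d u ((u % d : ℕ) : ℤ) v v ((Int.natCast_modEq_iff).mpr (Nat.mod_modEq u d).symm)
    (Int.ModEq.refl _), ← h3]
  constructor
  · rintro ⟨_, h4⟩
    exact_mod_cast h4
  · intro h4
    exact ⟨Nat.mod_lt _ hd, by exact_mod_cast h4⟩

/-- the sifting primes -/
def Pz (z0 J : ℕ) : Finset ℕ := (range (2 ^ 2 ^ J)).filter (fun p => p.Prime ∧ z0 < p)

lemma Pz_mem (z0 J p : ℕ) : p ∈ Pz z0 J ↔ p < 2 ^ 2 ^ J ∧ p.Prime ∧ z0 < p := by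
  unfold Pz
  rw [Finset.mem_filter, Finset.mem_range]

lemma split_group (J : ℕ) (f : ℕ → ℝ) :
    ∑ l ∈ (range (2 ^ 2 ^ (J + 1))).filter Nat.Prime, f l =
      ∑ l ∈ (range (2 ^ 2 ^ J)).filter Nat.Prime, f l + ∑ l ∈ Gj (J + 1), f l := by
  have hle : 2 ^ 2 ^ J ≤ 2 ^ 2 ^ (J + 1) :=
    Nat.pow_le_pow_right (by norm_num) (Nat.pow_le_pow_right (by norm_num) (by omega))
  have hU : (range (2 ^ 2 ^ (J + 1))).filter Nat.Prime =
      (range (2 ^ 2 ^ J)).filter Nat.Prime ∪ Gj (J + 1) := by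
    ext l
    simp only [Gj, mem_filter, mem_range, mem_union, mem_Ico, Nat.add_sub_cancel]
    constructor
    · rintro ⟨h1, h2⟩
      rcases lt_or_ge l (2 ^ 2 ^ J) with h | h
      · exact Or.inl ⟨h, h2⟩
      · exact Or.inr ⟨⟨h, h1⟩, h2⟩
    · rintro (⟨h1, h2⟩ | ⟨⟨h1, h3⟩, h2⟩)
      · exact ⟨lt_of_lt_of_le h1 hle, h2⟩
      · exact ⟨h3, h2⟩
  have hD : Disjoint ((range (2 ^ 2 ^ J)).filter Nat.Prime) (Gj (J + 1)) := by
    rw [Finset.disjoint_left]
    intro l h1 h2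
    simp only [Gj, mem_filter, mem_range, mem_Ico, Nat.add_sub_cancel] at h1 h2
    omega
  rw [hU, Finset.sum_union hD]

lemma recip_le : ∃ C : ℝ, 0 < C ∧ ∀ J : ℕ,
    ∑ l ∈ (range (2 ^ 2 ^ J)).filter Nat.Prime, (1 : ℝ) / l ≤ J * Real.log 2 + C := by
  obtain ⟨C, hC, h⟩ := mertens_group
  refine ⟨C, hC, ?_⟩
  have key : ∀ J : ℕ,
      ∑ l ∈ (range (2 ^ 2 ^ J)).filter Nat.Prime, (1 : ℝ) / l ≤
        J * Real.log 2 + C * (1 - 1 / 2 ^ J) := by
    intro J
    induction J with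
    | zero =>
      have : (range (2 ^ 2 ^ 0)).filter Nat.Prime = ∅ := by decide
      rw [this, Finset.sum_empty]
      simp
    | succ J ih =>
      rw [split_group]
      have h1 := (abs_le.1 (h (J + 1) (by omega))).2
      have e1 : C / (2 : ℝ) ^ (J + 1) = C * (1 / 2 ^ J) / 2 := by
        rw [pow_succ]
        field_simp
      have e2 : (1 : ℝ) / 2 ^ (J + 1) = 1 / 2 ^ J / 2 := by
        rw [pow_succ]
        field_simp
      rw [e1] at h1
      rw [e2]
      push_cast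
      linarith
  intro J
  refine (key J).trans ?_
  have h1 : 0 ≤ C * (1 / 2 ^ J) := by positivity
  linarith

lemma log_ge (x : ℝ) (h1 : x ≤ 1 / 2) : -x - 2 * x ^ 2 ≤ Real.log (1 - x) := by
  have h2 : 1 - 1 / (1 - x) ≤ Real.log (1 - x) := by
    have := Real.one_sub_inv_le_log_of_pos (by linarith : 0 < 1 - x)
    rw [one_div]
    exact this
  refine le_trans ?_ h2
  have h3 : (0 : ℝ) < 1 - x := by linarith
  have h4 : 1 / (1 - x) ≤ 1 + x + 2 * x ^ 2 := by
    rw [div_le_iff₀ h3]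
    have h5 : (1 + x + 2 * x ^ 2) * (1 - x) = 1 + x ^ 2 * (1 - 2 * x) := by ring
    rw [h5]
    have h6 : 0 ≤ x ^ 2 * (1 - 2 * x) := mul_nonneg (by positivity) (by linarith)
    linarith
  linarith

lemma prod_ge : ∃ c : ℝ, 0 < c ∧ ∀ z0 J : ℕ, 6 ≤ z0 →
    c / 8 ^ J ≤ ∏ p ∈ Pz z0 J, (1 - 3 / (p : ℝ)) := by
  obtain ⟨C, hC, h⟩ := recip_le
  refine ⟨Real.exp (-3 * C - 3), Real.exp_pos _, ?_⟩
  intro z0 J hz0
  have hpos : ∀ p ∈ Pz z0 J, 0 < 1 - 3 / (p : ℝ) ∧ 3 / (p : ℝ) ≤ 1 / 2 := by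
    intro p hp
    rw [Pz_mem] at hp
    have h1 : (6 : ℝ) ≤ p := by exact_mod_cast (by omega : 6 ≤ p)
    have h2 : 3 / (p : ℝ) ≤ 1 / 2 := by
      rw [div_le_div_iff₀ (by linarith) (by norm_num)]
      linarith
    exact ⟨by linarith, h2⟩
  have hprod : 0 < ∏ p ∈ Pz z0 J, (1 - 3 / (p : ℝ)) := Finset.prod_pos (fun p hp => (hpos p hp).1)
  have h1 : Real.exp (-3 * C - 3) / 8 ^ J = Real.exp (-3 * C - 3 - 3 * (J * Real.log 2)) := by
    rw [Real.exp_sub (-3 * C - 3)]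
    congr 1
    have h2 : (3 : ℝ) * (J * Real.log 2) = J * Real.log 8 := by
      rw [show (8 : ℝ) = 2 ^ 3 by norm_num, Real.log_pow]
      push_cast
      ring
    rw [h2, ← Real.log_pow, Real.exp_log (by positivity)]
  rw [h1, ← Real.le_log_iff_exp_le hprod, Real.log_prod (fun p hp => (hpos p hp).1.ne')]
  have h2 : ∀ p ∈ Pz z0 J, -3 * (1 / (p : ℝ)) - 18 * (1 / (p : ℝ) ^ 2) ≤
      Real.log (1 - 3 / (p : ℝ)) := by
    intro p hp
    have h3 := log_ge (3 / (p : ℝ)) (hpos p hp).2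
    refine le_trans (le_of_eq ?_) h3
    rw [div_pow]
    ring
  refine le_trans ?_ (Finset.sum_le_sum h2)
  rw [Finset.sum_sub_distrib, ← Finset.mul_sum, ← Finset.mul_sum]
  have h3 : ∑ p ∈ Pz z0 J, 1 / (p : ℝ) ≤ J * Real.log 2 + C := by
    refine le_trans ?_ (h J)
    apply Finset.sum_le_sum_of_subset_of_nonneg
    · intro p hp
      rw [Pz_mem] at hp
      rw [Finset.mem_filter, Finset.mem_range]
      exact ⟨hp.1, hp.2.1⟩
    · intro p _ _
      positivity
  have h4 : ∑ p ∈ Pz z0 J, 1 / (p : ℝ) ^ 2 ≤ 1 / (z0 : ℝ) := by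
    refine le_trans ?_ (Pool.Agent.Q148.CN.sum_inv_sq z0 (2 ^ 2 ^ J) (by omega))
    apply Finset.sum_le_sum_of_subset_of_nonneg
    · intro p hp
      rw [Pz_mem] at hp
      rw [Finset.mem_Ioc]
      exact ⟨hp.2.2, hp.1.le⟩
    · intro p _ _
      positivity
  have h5 : (1 : ℝ) / z0 ≤ 1 / 6 := by
    have : (6 : ℝ) ≤ z0 := by exact_mod_cast hz0
    gcongr
  linarith

end Pool.Agent.Q148.PS
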