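import Pool.Agent.Q148.PS.Var
import Pool.Agent.Q148.PS.Siv
import Pool.Agent.TH423.SH.FLIP

set_option autoImplicit false

/-! # The sifted count -/

namespace Pool.Agent.Q148.PS

open Finset MeasureTheory Pool.Agent.Q148.CN Pool.Agent.Y882

/-- `v_t` as a natural number -/
def vn (B W t : ℕ) : ℕ := B * W ^ 2 * t ^ 2

/-- the modulus of a set of primes -/
def dS (S : Finset ℕ) : ℕ := ∏ p ∈ S, p

/-- the sets of primes with bounded product -/
def Qs (P : Finset ℕ) (D : ℕ) : Finset (Finset ℕ) := P.powerset.filter (fun S => ∏ p ∈ S, p ≤ D)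

/-- the sifted count -/
noncomputable def Mf (B W T L k : ℕ) (P : Finset ℕ) (D : ℕ) (c : Finset ℕ → ℝ) (x : ℝ) : ℝ :=
  ∑ t ∈ Ioc T (2 * T), ∑ S ∈ Qs P D, c S * ∑ a ∈ Rz (vn B W t) (dS S),
    Wf B W L k (dS S) ((a : ℕ) : ℤ) t x

/-- its mean -/
noncomputable def Mm (B W T L k : ℕ) (P : Finset ℕ) (c : Finset ℕ → ℝ) : ℝ :=
  (∫ y in (0 : ℝ)..1, wk L k y) *
    ∑ t ∈ Ioc T (2 * T), VV P c (fun p => ((Rz (vn B W t) p).card : ℝ) / p)

/-- the index set -/
def Idx (B W : ℕ) (P : Finset ℕ) (D : ℕ) : Finset (Σ _ : Finset ℕ, Σ _ : ℕ, ℕ) :=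
  (Qs P D).sigma (fun S => (range (dS S)).sigma (fun r => Rz (vn B W r) (dS S)))

/-- a single deviation -/
noncomputable def Xf (B W T L k : ℕ) (i : Σ _ : Finset ℕ, Σ _ : ℕ, ℕ) (x : ℝ) : ℝ :=
  (∑ t ∈ (Ioc T (2 * T)).filter (fun t => t % dS i.1 = i.2.1),
    Wf B W L k (dS i.1) ((i.2.2 : ℕ) : ℤ) t x) -
  ((Ioc T (2 * T)).filter (fun t => t % dS i.1 = i.2.1)).card *
    (∫ y in (0 : ℝ)..1, wk L k y) / dS i.1

lemma dS_pos (P : Finset ℕ) (hP : ∀ p ∈ P, p.Prime) (D : ℕ) (S : Finset ℕ) (hS : S ∈ Qs P D) :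
    1 ≤ dS S := by
  unfold Qs at hS
  rw [Finset.mem_filter, Finset.mem_powerset] at hS
  exact Nat.one_le_iff_ne_zero.mpr (Finset.prod_ne_zero_iff.mpr fun q hq => (hP q (hS.1 hq)).ne_zero)

lemma sum_Qs (P : Finset ℕ) (D : ℕ) (c : Finset ℕ → ℝ)
    (hc : ∀ S ⊆ P, c S ≠ 0 → ∏ p ∈ S, p ≤ D) (f : Finset ℕ → ℝ) :
    ∑ S ∈ P.powerset, c S * f S = ∑ S ∈ Qs P D, c S * f S := by
  unfold Qs
  rw [Finset.sum_filter]
  apply Finset.sum_congr rfl
  intro S hS
  rw [Finset.mem_powerset] at hS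
  by_cases h : ∏ p ∈ S, p ≤ D
  · rw [if_pos h]
  · rw [if_neg h]
    have : c S = 0 := by
      by_contra h2
      exact h (hc S hS h2)
    rw [this, zero_mul]

lemma regroup (B W T : ℕ) (d : ℕ) (hd : 1 ≤ d) (f : ℕ → ℕ → ℝ) :
    ∑ t ∈ Ioc T (2 * T), ∑ a ∈ Rz (vn B W t) d, f a t =
      ∑ r ∈ range d, ∑ a ∈ Rz (vn B W r) d,
        ∑ t ∈ (Ioc T (2 * T)).filter (fun t => t % d = r), f a t := by
  have h1 : ∑ t ∈ Ioc T (2 * T), ∑ a ∈ Rz (vn B W t) d, f a t =
      ∑ r ∈ range d, ∑ t ∈ (Ioc T (2 * T)).filter (fun t => t % d = r),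
        ∑ a ∈ Rz (vn B W t) d, f a t := by
    rw [Finset.sum_fiberwise_of_maps_to]
    intro t _
    rw [Finset.mem_range]
    exact Nat.mod_lt _ hd
  rw [h1]
  apply Finset.sum_congr rfl
  intro r _
  rw [Finset.sum_comm' (s := (Ioc T (2 * T)).filter (fun t => t % d = r))
    (t := fun t => Rz (vn B W t) d)
    (t' := Rz (vn B W r) d) (s' := fun _ => (Ioc T (2 * T)).filter (fun t => t % d = r))]
  intro t a
  rw [Finset.mem_filter]
  constructor
  · rintro ⟨⟨h2, h3⟩, h4⟩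
    refine ⟨⟨h2, h3⟩, ?_⟩
    rwa [Rz_congr (vn B W r) (vn B W t) d]
    unfold vn
    apply Nat.ModEq.mul_left
    apply Nat.ModEq.pow
    rw [← h3]
    exact Nat.mod_modEq _ _
  · rintro ⟨⟨h2, h3⟩, h4⟩
    refine ⟨⟨h2, h3⟩, ?_⟩
    rwa [Rz_congr (vn B W t) (vn B W r) d]
    unfold vn
    apply Nat.ModEq.mul_left
    apply Nat.ModEq.pow
    rw [← h3]
    exact (Nat.mod_modEq _ _).symm

lemma dev (B W T L k : ℕ) (P : Finset ℕ) (hP : ∀ p ∈ P, p.Prime) (D : ℕ) (c : Finset ℕ → ℝ)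
    (hc : ∀ S ⊆ P, c S ≠ 0 → ∏ p ∈ S, p ≤ D) (x : ℝ) :
    Mf B W T L k P D c x - Mm B W T L k P c = ∑ i ∈ Idx B W P D, c i.1 * Xf B W T L k i x := by
  unfold Idx
  rw [Finset.sum_sigma]
  have h1 : ∀ S ∈ Qs P D, ∑ j ∈ (range (dS S)).sigma (fun r => Rz (vn B W r) (dS S)),
      c S * Xf B W T L k ⟨S, j⟩ x =
      c S * ((∑ t ∈ Ioc T (2 * T), ∑ a ∈ Rz (vn B W t) (dS S),
        Wf B W L k (dS S) ((a : ℕ) : ℤ) t x) -
        (∫ y in (0 : ℝ)..1, wk L k y) *
        ∑ t ∈ Ioc T (2 * T), ((Rz (vn B W t) (dS S)).card : ℝ) / dS S) := by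
    intro S hS
    have hd := dS_pos P hP D S hS
    rw [← Finset.mul_sum, Finset.sum_sigma]
    congr 1
    rw [regroup B W T (dS S) hd (fun a t => Wf B W L k (dS S) ((a : ℕ) : ℤ) t x)]
    have h2 : ∑ t ∈ Ioc T (2 * T), ((Rz (vn B W t) (dS S)).card : ℝ) / dS S =
        ∑ r ∈ range (dS S), ∑ a ∈ Rz (vn B W r) (dS S),
        ∑ t ∈ (Ioc T (2 * T)).filter (fun t => t % dS S = r), 1 / (dS S : ℝ) := by
      rw [← regroup B W T (dS S) hd (fun a t => 1 / (dS S : ℝ))]
      apply Finset.sum_congr rfl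
      intro t _
      rw [Finset.sum_const, nsmul_eq_mul]
      ring
    rw [h2, Finset.mul_sum, ← Finset.sum_sub_distrib]
    apply Finset.sum_congr rfl
    intro r _
    rw [Finset.mul_sum, ← Finset.sum_sub_distrib]
    apply Finset.sum_congr rfl
    intro a _
    unfold Xf
    rw [Finset.sum_const, nsmul_eq_mul]
    simp only
    ring
  rw [Finset.sum_congr rfl h1]
  unfold Mf Mm
  have h3 : ∀ t ∈ Ioc T (2 * T), VV P c (fun p => ((Rz (vn B W t) p).card : ℝ) / p) =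
      ∑ S ∈ Qs P D, c S * (((Rz (vn B W t) (dS S)).card : ℝ) / dS S) := by
    intro t _
    rw [VV_root P hP c, sum_Qs P D c hc]
    rfl
  rw [Finset.sum_congr rfl h3, Finset.sum_comm, Finset.sum_comm (s := Ioc T (2 * T))
    (t := Qs P D), Finset.mul_sum, ← Finset.sum_sub_distrib]
  apply Finset.sum_congr rfl
  intro S _
  rw [← Finset.mul_sum, ← Finset.mul_sum]
  ring

lemma Idx_card (B W : ℕ) (P : Finset ℕ) (hP : ∀ p ∈ P, p.Prime) (D : ℕ) :
    (Idx B W P D).card ≤ D ^ 3 := by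
  unfold Idx
  rw [Finset.card_sigma]
  have hq : (Qs P D).card ≤ D := Pool.Agent.TH423.SH.FLIP.card_le P hP D
  calc ∑ S ∈ Qs P D, ((range (dS S)).sigma (fun r => Rz (vn B W r) (dS S))).card ≤
      ∑ S ∈ Qs P D, D ^ 2 := by
        apply Finset.sum_le_sum
        intro S hS
        have hSD : dS S ≤ D := by
          unfold Qs at hS
          rw [Finset.mem_filter] at hS
          exact hS.2
        rw [Finset.card_sigma]
        calc ∑ r ∈ range (dS S), (Rz (vn B W r) (dS S)).card ≤ ∑ r ∈ range (dS S), D := by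
              apply Finset.sum_le_sum
              intro r _
              refine (Finset.card_filter_le _ _).trans ?_
              rw [Finset.card_range]
              exact hSD
          _ = dS S * D := by rw [Finset.sum_const, Finset.card_range, smul_eq_mul]
          _ ≤ D * D := Nat.mul_le_mul_right _ hSD
          _ = D ^ 2 := by ring
    _ = (Qs P D).card * D ^ 2 := by rw [Finset.sum_const, smul_eq_mul]
    _ ≤ D * D ^ 2 := Nat.mul_le_mul_right _ hq
    _ = D ^ 3 := by ring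

lemma Wf_cont (B W L k d : ℕ) (a : ℤ) (t : ℕ) (Z : ℝ) (hZ0 : 0 < Z) :
    ContinuousOn (Wf B W L k d a t) (Set.uIcc Z (2 * Z)) := by
  have h := gt_cont B W t Z hZ0
  unfold Wf
  apply ContinuousOn.mul
  · exact (wk_cont L k).comp_continuousOn ((h.sub continuousOn_const).div_const _)
  · exact (wk_cont d 1).comp_continuousOn ((h.sub continuousOn_const).div_const _)

lemma Wf_meas (B W L k d : ℕ) (a : ℤ) (t : ℕ) : Measurable (Wf B W L k d a t) := by
  have h := gt_meas B W t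
  unfold Wf
  apply Measurable.mul
  · exact (wk_cont L k).measurable.comp ((h.sub_const _).div_const _)
  · exact (wk_cont d 1).measurable.comp ((h.sub_const _).div_const _)

lemma Xf_cont (B W T L k : ℕ) (i : Σ _ : Finset ℕ, Σ _ : ℕ, ℕ) (Z : ℝ) (hZ0 : 0 < Z) :
    ContinuousOn (Xf B W T L k i) (Set.uIcc Z (2 * Z)) := by
  unfold Xf
  apply ContinuousOn.sub _ continuousOn_const
  apply continuousOn_finsetSum
  intro t _
  exact Wf_cont _ _ _ _ _ _ _ Z hZ0

lemma Mf_cont (B W T L k : ℕ) (P : Finset ℕ) (D : ℕ) (c : Finset ℕ → ℝ) (Z : ℝ) (hZ0 : 0 < Z) :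
    ContinuousOn (Mf B W T L k P D c) (Set.uIcc Z (2 * Z)) := by
  unfold Mf
  apply continuousOn_finsetSum
  intro t _
  apply continuousOn_finsetSum
  intro S _
  apply ContinuousOn.mul continuousOn_const
  apply continuousOn_finsetSum
  intro a _
  exact Wf_cont _ _ _ _ _ _ _ Z hZ0

lemma Mf_meas (B W T L k : ℕ) (P : Finset ℕ) (D : ℕ) (c : Finset ℕ → ℝ) :
    Measurable (Mf B W T L k P D c) := by
  unfold Mf
  apply Finset.measurable_fun_sum
  intro t _
  apply Finset.measurable_fun_sum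
  intro S _
  apply Measurable.const_mul
  apply Finset.measurable_fun_sum
  intro a _
  exact Wf_meas _ _ _ _ _ _ _

/-- the variance of the sifted count -/
theorem Mf_var {B W T L : ℕ} {Z : ℝ} (h : Par B W T L Z) (k : ℕ) (hk : 1 ≤ k)
    (P : Finset ℕ) (hP : ∀ p ∈ P, p.Prime ∧ Nat.Coprime p W) (D : ℕ) (c : Finset ℕ → ℝ)
    (c1 : ℝ) (hc1 : ∀ S, |c S| ≤ c1) (hc : ∀ S ⊆ P, c S ≠ 0 → ∏ p ∈ S, p ≤ D)
    (hbig : ((k : ℝ) + 1) * L * (D * W) ≤ T) (hlog : Z * (1 + Real.log T) ≤ T ^ 3) :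
    ∫ x in Z..(2 * Z), (Mf B W T L k P D c x - Mm B W T L k P c) ^ 2 ≤
      c1 ^ 2 * D ^ 7 * (V1 B W k * (T / L) * Z) := by
  have hZ0 := h.hZ0
  have hc10 : 0 ≤ c1 := (abs_nonneg _).trans (hc1 ∅)
  have hP1 : ∀ p ∈ P, p.Prime := fun p hp => (hP p hp).1
  have hL0 : (0 : ℝ) < L := by
    have := h.hL
    exact_mod_cast (by omega : 0 < L)
  have hV := V1_nonneg B W k
  have hX : ∀ i ∈ Idx B W P D, ∫ x in Z..(2 * Z), Xf B W T L k i x ^ 2 ≤
      V1 B W k * (T / L) * D * Z := by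
    intro i hi
    unfold Idx at hi
    rw [Finset.mem_sigma] at hi
    have h1 := dS_pos P hP1 D i.1 hi.1
    have h2 := hi.1
    unfold Qs at h2
    rw [Finset.mem_filter, Finset.mem_powerset] at h2
    have h3 : Nat.Coprime (dS i.1) W := by
      unfold dS
      apply Nat.Coprime.prod_left
      intro p hp
      exact (hP p (h2.1 hp)).2
    have h4 : ((dS i.1 : ℕ) : ℝ) ≤ D := by exact_mod_cast h2.2
    have h5 : ((k : ℝ) + 1) * L * (dS i.1 * W) ≤ T := by
      refine le_trans ?_ hbig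
      gcongr
    have h6 := variance h k (dS i.1) hk h1 h3 h5 hlog
      ((Ioc T (2 * T)).filter (fun t => t % dS i.1 = i.2.1)) (Finset.filter_subset _ _)
      ((i.2.2 : ℕ) : ℤ)
    unfold Xf
    refine h6.trans ?_
    gcongr
  have hint : ∀ i ∈ Idx B W P D, IntervalIntegrable (fun x => Xf B W T L k i x ^ 2)
      volume Z (2 * Z) := by
    intro i _
    exact ContinuousOn.intervalIntegrable ((Xf_cont B W T L k i Z hZ0).pow 2)
  have hcard : ((Idx B W P D).card : ℝ) ≤ D ^ 3 := by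
    exact_mod_cast Idx_card B W P hP1 D
  calc ∫ x in Z..(2 * Z), (Mf B W T L k P D c x - Mm B W T L k P c) ^ 2 ≤
      ∫ x in Z..(2 * Z), ∑ i ∈ Idx B W P D, (D ^ 3 * c1 ^ 2) * Xf B W T L k i x ^ 2 := by
        apply intervalIntegral.integral_mono_on (by linarith)
        · exact ContinuousOn.intervalIntegrable
            (((Mf_cont B W T L k P D c Z hZ0).sub continuousOn_const).pow 2)
        · apply ContinuousOn.intervalIntegrable
          apply continuousOn_finsetSum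
          intro i _
          exact continuousOn_const.mul ((Xf_cont B W T L k i Z hZ0).pow 2)
        · intro x _
          rw [dev B W T L k P hP1 D c hc x]
          refine (sq_sum_le_card_mul_sum_sq).trans ?_
          rw [← Finset.mul_sum, mul_assoc]
          have h1 : ∑ i ∈ Idx B W P D, (c i.1 * Xf B W T L k i x) ^ 2 ≤
              c1 ^ 2 * ∑ i ∈ Idx B W P D, Xf B W T L k i x ^ 2 := by
            rw [Finset.mul_sum]
            apply Finset.sum_le_sum
            intro i _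
            rw [mul_pow]
            have h2 : c i.1 ^ 2 ≤ c1 ^ 2 := by
              rw [← sq_abs]
              have := hc1 i.1
              gcongr
            gcongr
          gcongr
    _ = ∑ i ∈ Idx B W P D, (D ^ 3 * c1 ^ 2) * ∫ x in Z..(2 * Z), Xf B W T L k i x ^ 2 := by
        rw [intervalIntegral.integral_finsetSum]
        · apply Finset.sum_congr rfl
          intro i _
          rw [intervalIntegral.integral_const_mul]
        · intro i hi
          exact (hint i hi).const_mul _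
    _ ≤ ∑ i ∈ Idx B W P D, (D ^ 3 * c1 ^ 2) * (V1 B W k * (T / L) * D * Z) := by
        apply Finset.sum_le_sum
        intro i hi
        have := hX i hi
        gcongr
    _ = (Idx B W P D).card * ((D ^ 3 * c1 ^ 2) * (V1 B W k * (T / L) * D * Z)) := by
        rw [Finset.sum_const, nsmul_eq_mul]
    _ ≤ D ^ 3 * ((D ^ 3 * c1 ^ 2) * (V1 B W k * (T / L) * D * Z)) := by
        have h1 : 0 ≤ (D ^ 3 * c1 ^ 2) * (V1 B W k * (T / L) * D * Z) := by positivity
        gcongr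
    _ = _ := by ring

end Pool.Agent.Q148.PS
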