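import Pool.Agent.Q148.PS.Ker

set_option autoImplicit false

/-! # Pairs of frequencies -/

namespace Pool.Agent.Q148.PS

open Finset MeasureTheory Pool.Agent.Q148.CN

/-- the approximate inverse function of `u ↦ u³ - v_t² u` (as a function of the cube root) -/
noncomputable def gt (B W t : ℕ) (x : ℝ) : ℝ :=
  ph 1 ((vv B W t) ^ 2 / 3) (-(vv B W t) ^ 6 / 81) ((vv B W t) ^ 8 / 243) 0 x

lemma gt_comb (B W t t' : ℕ) (a b x : ℝ) :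
    a * gt B W t x - b * gt B W t' x =
      ph (a - b) ((a * (vv B W t) ^ 2 - b * (vv B W t') ^ 2) / 3)
        (-(a * (vv B W t) ^ 6 - b * (vv B W t') ^ 6) / 81)
        ((a * (vv B W t) ^ 8 - b * (vv B W t') ^ 8) / 243) 0 x := by
  unfold gt ph
  ring

/-- distinct frequencies -/
lemma pair_A (B W T t t' : ℕ) (Z a b Λ ρ : ℝ) (n : ℕ) (hT : 1 ≤ T) (hρ : 0 < ρ)
    (hΛ : Λ ≤ ρ * T) (hZ : (T : ℝ) ^ 7 ≤ Z ^ 3)
    (hT0 : (10 : ℝ) ^ 15 * (B : ℝ) ^ 6 * W ^ 12 ≤ T) (hZ0 : 0 < Z)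
    (ht : t ∈ Ioc T (2 * T)) (ht' : t' ∈ Ioc T (2 * T)) (hn : 1 ≤ n) (hab : |a - b| = ρ * n)
    (ha : |a| ≤ Λ) (hb : |b| ≤ Λ) :
    ‖∫ x in Z..(2 * Z), ex (a * gt B W t x - b * gt B W t' x)‖ ≤ 8 / ρ +
      13 * Real.sqrt (Z / ρ) * wt (22 * (B : ℝ) ^ 2 * W ^ 4 * Λ * T ^ 4 / (ρ * Z ^ 2)) n := by
  simp_rw [gt_comb]
  have hT1 : (1 : ℝ) ≤ T := by exact_mod_cast hT
  have hΛ0 : 0 ≤ Λ := (abs_nonneg a).trans ha
  have hv := vv_sq B W T t ht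
  have hv' := vv_sq B W T t' ht'
  have hw := vv_two B W T t Z ht hT hZ0 hZ hT0
  have hw' := vv_two B W T t' Z ht' hT hZ0 hZ hT0
  have hx := vv_six B W T t Z ht hT hZ hT0
  have hx' := vv_six B W T t' Z ht' hT hZ hT0
  have hc : ∀ (s : ℕ) (g : ℝ), |g| ≤ Λ → T * ((vv B W s) ^ 2) ^ 3 ≤ Z ^ 6 / 10 ^ 8 →
      |g * (vv B W s) ^ 6| ≤ ρ * (Z ^ 6 / 10 ^ 8) := by
    intro s g hg hs
    rw [show (vv B W s) ^ 6 = ((vv B W s) ^ 2) ^ 3 by ring, abs_mul,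
      abs_of_nonneg (by positivity : 0 ≤ ((vv B W s) ^ 2) ^ 3)]
    calc _ ≤ Λ * ((vv B W s) ^ 2) ^ 3 := by gcongr
      _ ≤ (ρ * T) * ((vv B W s) ^ 2) ^ 3 := by gcongr
      _ = ρ * (T * ((vv B W s) ^ 2) ^ 3) := by ring
      _ ≤ _ := by gcongr
  have he : ∀ (s : ℕ) (g : ℝ), |g| ≤ Λ → T * ((vv B W s) ^ 2) ^ 3 ≤ Z ^ 6 / 10 ^ 8 →
      (vv B W s) ^ 2 ≤ Z ^ 2 / 400 →
      |g * (vv B W s) ^ 8| ≤ ρ * (Z ^ 8 / 10 ^ 8) := by
    intro s g hg hs hs2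
    rw [show g * (vv B W s) ^ 8 = (g * (vv B W s) ^ 6) * (vv B W s) ^ 2 by ring,
      abs_mul, abs_of_nonneg (by positivity : 0 ≤ (vv B W s) ^ 2)]
    calc _ ≤ (ρ * (Z ^ 6 / 10 ^ 8)) * (Z ^ 2 / 400) := by
          have := hc s g hg hs
          gcongr
      _ = (1 / 400) * (ρ * (Z ^ 8 / 10 ^ 8)) := by ring
      _ ≤ 1 * (ρ * (Z ^ 8 / 10 ^ 8)) := by gcongr; norm_num
      _ = _ := by ring
  have hγ : |-(a * (vv B W t) ^ 6 - b * (vv B W t') ^ 6) / 81| ≤ ρ * Z ^ 6 / 4000 := by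
    rw [abs_div, abs_neg, abs_of_pos (by norm_num : (0 : ℝ) < 81), div_le_iff₀ (by norm_num)]
    have h2 : 0 ≤ ρ * Z ^ 6 := by positivity
    calc _ ≤ |a * (vv B W t) ^ 6| + |b * (vv B W t') ^ 6| := abs_sub _ _
      _ ≤ ρ * (Z ^ 6 / 10 ^ 8) + ρ * (Z ^ 6 / 10 ^ 8) := by
          have := hc t a ha hx
          have := hc t' b hb hx'
          gcongr
      _ ≤ _ := by linarith
  have hε : |(a * (vv B W t) ^ 8 - b * (vv B W t') ^ 8) / 243| ≤ ρ * Z ^ 8 / 8000 := by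
    rw [abs_div, abs_of_pos (by norm_num : (0 : ℝ) < 243), div_le_iff₀ (by norm_num)]
    have h2 : 0 ≤ ρ * Z ^ 8 := by positivity
    calc _ ≤ |a * (vv B W t) ^ 8| + |b * (vv B W t') ^ 8| := abs_sub _ _
      _ ≤ ρ * (Z ^ 8 / 10 ^ 8) + ρ * (Z ^ 8 / 10 ^ 8) := by
          have := he t a ha hx hw
          have := he t' b hb hx' hw'
          gcongr
      _ ≤ _ := by linarith
  have hn1 : (1 : ℝ) ≤ n := by exact_mod_cast hn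
  have hα1 : ρ ≤ |a - b| := by
    rw [hab]
    nlinarith
  have hα0 : 0 < |a - b| := lt_of_lt_of_le hρ hα1
  set D : ℝ := 22 * (B : ℝ) ^ 2 * W ^ 4 * Λ * T ^ 4 / (ρ * Z ^ 2) with hD
  have hwt := wt_nonneg D n
  by_cases hβ : |(a * (vv B W t) ^ 2 - b * (vv B W t') ^ 2) / 3| ≤ |a - b| * Z ^ 2 / 2
  · have h1 := osc_A1 Z _ _
      (-(a * (vv B W t) ^ 6 - b * (vv B W t') ^ 6) / 81)
      ((a * (vv B W t) ^ 8 - b * (vv B W t') ^ 8) / 243) 0 hZ0 hα0 hβ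
      (hγ.trans (by
        calc ρ * Z ^ 6 / 4000 ≤ |a - b| * Z ^ 6 / 4000 := by gcongr
          _ ≤ |a - b| * Z ^ 6 / 1000 := by gcongr; norm_num))
      (hε.trans (by
        calc ρ * Z ^ 8 / 8000 ≤ |a - b| * Z ^ 8 / 8000 := by gcongr
          _ ≤ |a - b| * Z ^ 8 / 1000 := by gcongr; norm_num))
    refine h1.trans ?_
    have h2 : 8 / |a - b| ≤ 8 / ρ := by gcongr
    have h3 : 0 ≤ 13 * Real.sqrt (Z / ρ) * wt D n := by positivity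
    linarith
  · push Not at hβ
    have h1 := osc_A2 Z _ _
      (-(a * (vv B W t) ^ 6 - b * (vv B W t') ^ 6) / 81)
      ((a * (vv B W t) ^ 8 - b * (vv B W t') ^ 8) / 243) 0 hZ0 hα0 hβ.le
      (hγ.trans (by gcongr)) (hε.trans (by gcongr))
    refine h1.trans ?_
    have hDn : (n : ℝ) ≤ D := by
      rw [hab, abs_div, abs_of_pos (by norm_num : (0 : ℝ) < 3)] at hβ
      have h2 : |a * (vv B W t) ^ 2 - b * (vv B W t') ^ 2| ≤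
          2 * Λ * (16 * (B : ℝ) ^ 2 * W ^ 4 * T ^ 4) := by
        have h3 : ∀ (s : ℕ) (g : ℝ), |g| ≤ Λ →
            (vv B W s) ^ 2 ≤ 16 * (B : ℝ) ^ 2 * W ^ 4 * T ^ 4 →
            |g * (vv B W s) ^ 2| ≤ Λ * (16 * (B : ℝ) ^ 2 * W ^ 4 * T ^ 4) := by
          intro s g hg hs
          rw [abs_mul, abs_of_nonneg (by positivity : 0 ≤ (vv B W s) ^ 2)]
          gcongr
        calc _ ≤ |a * (vv B W t) ^ 2| + |b * (vv B W t') ^ 2| := abs_sub _ _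
          _ ≤ Λ * (16 * (B : ℝ) ^ 2 * W ^ 4 * T ^ 4) +
              Λ * (16 * (B : ℝ) ^ 2 * W ^ 4 * T ^ 4) := by
              gcongr
              · exact h3 t a ha hv
              · exact h3 t' b hb hv'
          _ = _ := by ring
      rw [lt_div_iff₀ (by norm_num)] at hβ
      rw [hD, le_div_iff₀ (by positivity)]
      have h5 : 0 ≤ (B : ℝ) ^ 2 * W ^ 4 * Λ * T ^ 4 := by positivity
      nlinarith
    have hwt1 : wt D n = 1 / Real.sqrt n := by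
      unfold wt
      rw [if_pos hDn]
    rw [hwt1, hab]
    have h2 : Real.sqrt (ρ * n / (10 * Z)) = Real.sqrt n / Real.sqrt (10 * (Z / ρ)) := by
      rw [← Real.sqrt_div (by positivity)]
      congr 1
      field_simp
    have h3 : Real.sqrt (10 * (Z / ρ)) = Real.sqrt 10 * Real.sqrt (Z / ρ) := by
      rw [Real.sqrt_mul (by norm_num)]
    have h4 : Real.sqrt 10 ≤ 13 / 4 := by
      rw [Real.sqrt_le_left (by norm_num)]
      norm_num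
    have h5 : 0 < Real.sqrt (n : ℝ) := Real.sqrt_pos.mpr (by linarith)
    have h6 : 0 ≤ Real.sqrt (Z / ρ) := Real.sqrt_nonneg _
    rw [h2, div_div_eq_mul_div, h3]
    have h7 : 4 * (Real.sqrt 10 * Real.sqrt (Z / ρ)) / Real.sqrt n ≤
        4 * (13 / 4 * Real.sqrt (Z / ρ)) / Real.sqrt n := by gcongr
    have h8 : 4 * (13 / 4 * Real.sqrt (Z / ρ)) / Real.sqrt n =
        13 * Real.sqrt (Z / ρ) * (1 / Real.sqrt n) := by ring
    have h9 : 0 ≤ 8 / ρ := by positivity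
    linarith

/-- equal frequencies, distinct sequences -/
lemma pair_B (B W T t t' : ℕ) (Z a ρ : ℝ) (hB : 1 ≤ B) (hW : 1 ≤ W) (hT : 1 ≤ T) (hρ : 0 < ρ)
    (hZ : (T : ℝ) ^ 7 ≤ Z ^ 3) (hT0 : (10 : ℝ) ^ 15 * (B : ℝ) ^ 6 * W ^ 12 ≤ T) (hZ0 : 0 < Z)
    (ht : t ∈ Ioc T (2 * T)) (ht' : t' ∈ Ioc T (2 * T)) (hne : t ≠ t') (ha : ρ ≤ |a|) :
    ‖∫ x in Z..(2 * Z), ex (a * gt B W t x - a * gt B W t' x)‖ ≤
      30 * Z ^ 2 / (ρ * T ^ 3) * (1 / |(t : ℝ) - t'|) := by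
  simp_rw [gt_comb]
  have hW0 : (1 : ℝ) ≤ W := by exact_mod_cast hW
  have hB0 : (1 : ℝ) ≤ B := by exact_mod_cast hB
  have hT1 : (1 : ℝ) ≤ T := by exact_mod_cast hT
  have hw := vv_two B W T t Z ht hT hZ0 hZ hT0
  have hw' := vv_two B W T t' Z ht' hT hZ0 hZ hT0
  have hd : 0 < |(t : ℝ) - t'| := by
    apply abs_pos.mpr
    intro h0
    apply hne
    exact_mod_cast sub_eq_zero.mp h0
  set β : ℝ := (a * (vv B W t) ^ 2 - a * (vv B W t') ^ 2) / 3 with hβ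
  have hβ1 : |β| = |a| * |(vv B W t) ^ 2 - (vv B W t') ^ 2| / 3 := by
    rw [hβ, abs_div, abs_of_pos (by norm_num : (0 : ℝ) < 3), ← abs_mul]
    congr 2
    ring
  have hv : 4 * (T : ℝ) ^ 3 * |(t : ℝ) - t'| ≤ |(vv B W t) ^ 2 - (vv B W t') ^ 2| := by
    have h1 := four_diff T t t' ht ht'
    have h2 : (vv B W t) ^ 2 - (vv B W t') ^ 2 = (B : ℝ) ^ 2 * W ^ 4 * (t ^ 4 - t' ^ 4) := by
      unfold vv
      ring
    rw [h2, abs_mul, abs_of_nonneg (by positivity : (0 : ℝ) ≤ (B : ℝ) ^ 2 * W ^ 4)]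
    have h3 : (1 : ℝ) ≤ (B : ℝ) ^ 2 := one_le_pow₀ hB0
    have h4 : (1 : ℝ) ≤ (W : ℝ) ^ 4 := one_le_pow₀ hW0
    calc 4 * (T : ℝ) ^ 3 * |(t : ℝ) - t'| = 1 * 1 * (4 * (T : ℝ) ^ 3 * |(t : ℝ) - t'|) := by ring
      _ ≤ (B : ℝ) ^ 2 * W ^ 4 * |(t : ℝ) ^ 4 - t' ^ 4| := by gcongr
  have hβ2 : 4 / 3 * (ρ * (T : ℝ) ^ 3 * |(t : ℝ) - t'|) ≤ |β| := by
    rw [hβ1]
    calc 4 / 3 * (ρ * (T : ℝ) ^ 3 * |(t : ℝ) - t'|) = ρ * (4 * (T : ℝ) ^ 3 * |(t : ℝ) - t'|) / 3 := by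
          ring
      _ ≤ |a| * |(vv B W t) ^ 2 - (vv B W t') ^ 2| / 3 := by gcongr
  have hβ0 : 0 < |β| := lt_of_lt_of_le (by positivity) hβ2
  have hβne : β ≠ 0 := abs_pos.mp hβ0
  have hγ : |-(a * (vv B W t) ^ 6 - a * (vv B W t') ^ 6) / 81| ≤ |β| * Z ^ 4 / 1000 := by
    have h1 : -(a * (vv B W t) ^ 6 - a * (vv B W t') ^ 6) / 81 =
        -β * (((vv B W t) ^ 2) ^ 2 + (vv B W t) ^ 2 * (vv B W t') ^ 2 + ((vv B W t') ^ 2) ^ 2) /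
          27 := by
      rw [hβ]
      ring
    rw [h1, abs_div, abs_mul, abs_neg, abs_of_pos (by norm_num : (0 : ℝ) < 27)]
    have h2 : |((vv B W t) ^ 2) ^ 2 + (vv B W t) ^ 2 * (vv B W t') ^ 2 + ((vv B W t') ^ 2) ^ 2| ≤
        Z ^ 4 / 1000 := by
      rw [abs_of_nonneg (by positivity)]
      have h4 : 0 ≤ Z ^ 4 := by positivity
      calc _ ≤ (Z ^ 2 / 400) ^ 2 + (Z ^ 2 / 400) * (Z ^ 2 / 400) + (Z ^ 2 / 400) ^ 2 := by gcongr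
        _ = 3 / 160000 * Z ^ 4 := by ring
        _ ≤ _ := by linarith
    rw [div_le_div_iff₀ (by norm_num) (by norm_num)]
    have h3 : 0 ≤ |β| * Z ^ 4 := by positivity
    calc _ ≤ |β| * (Z ^ 4 / 1000) * 1000 := by gcongr
      _ ≤ _ := by nlinarith
  have hε : |(a * (vv B W t) ^ 8 - a * (vv B W t') ^ 8) / 243| ≤ |β| * Z ^ 6 / 1000 := by
    have h1 : (a * (vv B W t) ^ 8 - a * (vv B W t') ^ 8) / 243 =
        β * (((vv B W t) ^ 2 + (vv B W t') ^ 2) *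
          (((vv B W t) ^ 2) ^ 2 + ((vv B W t') ^ 2) ^ 2)) / 81 := by
      rw [hβ]
      ring
    rw [h1, abs_div, abs_mul, abs_of_pos (by norm_num : (0 : ℝ) < 81)]
    have h2 : |((vv B W t) ^ 2 + (vv B W t') ^ 2) *
          (((vv B W t) ^ 2) ^ 2 + ((vv B W t') ^ 2) ^ 2)| ≤ Z ^ 6 / 1000 := by
      rw [abs_of_nonneg (by positivity)]
      have h4 : 0 ≤ Z ^ 6 := by positivity
      calc _ ≤ (Z ^ 2 / 400 + Z ^ 2 / 400) * ((Z ^ 2 / 400) ^ 2 + (Z ^ 2 / 400) ^ 2) := by gcongr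
        _ = 4 / 400 ^ 3 * Z ^ 6 := by ring
        _ ≤ _ := by linarith
    rw [div_le_div_iff₀ (by norm_num) (by norm_num)]
    have h3 : 0 ≤ |β| * Z ^ 6 := by positivity
    calc _ ≤ |β| * (Z ^ 6 / 1000) * 1000 := by gcongr
      _ ≤ _ := by nlinarith
  have h1 : a - a = 0 := by ring
  rw [h1]
  refine (osc_B Z β _ _ _ hZ0 hβne hγ hε).trans ?_
  calc 40 * Z ^ 2 / |β| ≤ 40 * Z ^ 2 / (4 / 3 * (ρ * (T : ℝ) ^ 3 * |(t : ℝ) - t'|)) := by gcongr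
    _ = _ := by
        field_simp
        norm_num

lemma gt_cont (B W t : ℕ) (Z : ℝ) (hZ0 : 0 < Z) :
    ContinuousOn (gt B W t) (Set.uIcc Z (2 * Z)) := by
  intro x hx
  rw [Set.uIcc_of_le (by linarith)] at hx
  exact (ph_deriv _ _ _ _ _ x (lt_of_lt_of_le hZ0 hx.1)).continuousAt.continuousWithinAt

lemma gt_meas (B W t : ℕ) : Measurable (gt B W t) := by
  unfold gt ph
  fun_prop

end Pool.Agent.Q148.PS
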