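import Pool.Agent.Q148.PS.Pair

set_option autoImplicit false

/-! # The variance -/

namespace Pool.Agent.Q148.PS

open Finset MeasureTheory Pool.Agent.Q148.CN

lemma inner_wt (d : ℕ) (hd : 1 ≤ d) (c : ℤ) (H : Finset ℤ) (D : ℝ) (hD : 0 ≤ D) :
    ∑ h ∈ H.filter (fun h => (d : ℤ) * h + c ≠ 0), wt D ((d : ℤ) * h + c).natAbs ≤
      4 * Real.sqrt D := by
  set N : ℕ := H.sup (fun h => ((d : ℤ) * h + c).natAbs) with hN
  have hd0 : (0 : ℤ) < d := by exact_mod_cast hd
  have hsub : H.filter (fun h => (d : ℤ) * h + c ≠ 0) =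
      H.filter (fun h => 0 < (d : ℤ) * h + c) ∪ H.filter (fun h => (d : ℤ) * h + c < 0) := by
    ext h
    simp only [Finset.mem_filter, Finset.mem_union]
    constructor
    · rintro ⟨h1, h2⟩
      rcases lt_or_gt_of_ne h2 with h3 | h3
      · exact Or.inr ⟨h1, h3⟩
      · exact Or.inl ⟨h1, h3⟩
    · rintro (⟨h1, h2⟩ | ⟨h1, h2⟩)
      · exact ⟨h1, h2.ne'⟩
      · exact ⟨h1, h2.ne⟩
  have hdisj : Disjoint (H.filter (fun h => 0 < (d : ℤ) * h + c))
      (H.filter (fun h => (d : ℤ) * h + c < 0)) := by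
    rw [Finset.disjoint_left]
    intro x hx hx2
    rw [Finset.mem_filter] at hx hx2
    omega
  rw [hsub, Finset.sum_union hdisj]
  have key : ∀ (p : ℤ → Prop) [DecidablePred p],
      (∀ h, p h → (d : ℤ) * h + c ≠ 0) →
      (∀ h h', p h → p h' → ((d : ℤ) * h + c).natAbs = ((d : ℤ) * h' + c).natAbs → h = h') →
      ∑ h ∈ H.filter p, wt D ((d : ℤ) * h + c).natAbs ≤ 2 * Real.sqrt D := by
    intro p _ hp hinj
    have h1 : ∑ h ∈ H.filter p, wt D ((d : ℤ) * h + c).natAbs =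
        ∑ m ∈ (H.filter p).image (fun h => ((d : ℤ) * h + c).natAbs), wt D m := by
      rw [Finset.sum_image]
      intro x hx y hy hxy
      simp only [Finset.coe_filter, Set.mem_ofPred_eq] at hx hy
      exact hinj x y hx.2 hy.2 hxy
    rw [h1]
    refine le_trans ?_ (sum_wt D hD N)
    apply Finset.sum_le_sum_of_subset_of_nonneg
    · intro m hm
      rw [Finset.mem_image] at hm
      obtain ⟨h, hh, rfl⟩ := hm
      rw [Finset.mem_filter] at hh
      rw [Finset.mem_Icc]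
      refine ⟨Int.natAbs_pos.mpr (hp h hh.2), ?_⟩
      exact Finset.le_sup (f := fun h => ((d : ℤ) * h + c).natAbs) hh.1
    · intro m _ _
      exact wt_nonneg D m
  have hA := key (fun h => 0 < (d : ℤ) * h + c) (fun h hh => hh.ne') (by
    intro h h' h1 h2 h3
    have h4 : (d : ℤ) * h + c = (d : ℤ) * h' + c := by omega
    have h5 : (d : ℤ) * h = d * h' := by linarith
    exact mul_left_cancel₀ hd0.ne' h5)
  have hB := key (fun h => (d : ℤ) * h + c < 0) (fun h hh => hh.ne) (by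
    intro h h' h1 h2 h3
    have h4 : (d : ℤ) * h + c = (d : ℤ) * h' + c := by omega
    have h5 : (d : ℤ) * h = d * h' := by linarith
    exact mul_left_cancel₀ hd0.ne' h5)
  linarith

/-- the weighted count in a residue class -/
noncomputable def Wf (B W L k d : ℕ) (a : ℤ) (t : ℕ) (x : ℝ) : ℝ :=
  wk L k ((gt B W t x - 1) / W) * wk d 1 ((gt B W t x - a) / d)

/-- the integer frequencies -/
def nn (W d : ℕ) (g : ℤ × ℤ) : ℤ := d * g.1 + W * g.2

lemma Wf_four (B W L k d : ℕ) (a : ℤ) (hW : 1 ≤ W) (hL : 1 ≤ L) (hk : 1 ≤ k) (hd : 1 ≤ d)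
    (S : Finset ℕ) : ∃ A : (ℤ × ℤ) × ℕ → ℂ, (∀ i, ‖A i‖ ≤ 1 / ((L : ℝ) * d)) ∧
      ∀ x : ℝ, (((∑ t ∈ S, Wf B W L k d a t x) -
        S.card * (∫ y in (0 : ℝ)..1, wk L k y) / d : ℝ) : ℂ) =
      ∑ i ∈ ((Icc (-((k * (L - 1) : ℕ) : ℤ)) ((k * (L - 1) : ℕ) : ℤ) ×ˢ
        Icc (-((d - 1 : ℕ) : ℤ)) ((d - 1 : ℕ) : ℤ)).erase (0, 0)) ×ˢ S,
        A i * ex ((1 / ((d : ℝ) * W) * (nn W d i.1 : ℤ)) * gt B W i.2 x) := by
  obtain ⟨c, h1, h2, h3⟩ := wk_four L k hL hk
  obtain ⟨c', h1', h2', h3'⟩ := wk_four d 1 hd (le_refl 1)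
  rw [wk_mean_one d hd] at h3'
  simp only [one_mul] at h1'
  have hW0 : (W : ℝ) ≠ 0 := by
    have : (0 : ℝ) < W := by exact_mod_cast hW
    exact this.ne'
  have hd0 : (d : ℝ) ≠ 0 := by
    have : (0 : ℝ) < d := by exact_mod_cast hd
    exact this.ne'
  set H1 := Icc (-((k * (L - 1) : ℕ) : ℤ)) ((k * (L - 1) : ℕ) : ℤ) with hH1
  set H2 := Icc (-((d - 1 : ℕ) : ℤ)) ((d - 1 : ℕ) : ℤ) with hH2
  refine ⟨fun i => c i.1.1 * c' i.1.2 * ex (-((i.1.1 : ℝ) / W) - (i.1.2 : ℝ) * a / d), ?_, ?_⟩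
  · intro i
    rw [norm_mul, norm_mul, ex_norm, mul_one]
    calc ‖c i.1.1‖ * ‖c' i.1.2‖ ≤ (1 / L) * (1 / d) := by
          gcongr
          · exact h2 _
          · exact h2' _
      _ = _ := by rw [one_div_mul_one_div]
  · intro x
    have h0 : ((0 : ℤ), (0 : ℤ)) ∈ H1 ×ˢ H2 := by
      rw [hH1, hH2, Finset.mem_product, Finset.mem_Icc, Finset.mem_Icc]
      simp only
      omega
    have hterm : ∀ t ∈ S, ((Wf B W L k d a t x : ℝ) : ℂ) =
        ∑ g ∈ H1 ×ˢ H2, (c g.1 * c' g.2 * ex (-((g.1 : ℝ) / W) - (g.2 : ℝ) * a / d)) *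
          ex ((1 / ((d : ℝ) * W) * (nn W d g : ℤ)) * gt B W t x) := by
      intro t _
      unfold Wf
      rw [Complex.ofReal_mul, h1, h1', Finset.sum_mul_sum, Finset.sum_product]
      apply Finset.sum_congr rfl
      intro g1 _
      apply Finset.sum_congr rfl
      intro g2 _
      have h4 : ex ((g1 : ℝ) * ((gt B W t x - 1) / W)) * ex ((g2 : ℝ) * ((gt B W t x - a) / d)) =
          ex (-((g1 : ℝ) / W) - (g2 : ℝ) * a / d) *
            ex ((1 / ((d : ℝ) * W) * (nn W d (g1, g2) : ℤ)) * gt B W t x) := by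
        rw [← ex_add, ← ex_add]
        congr 1
        unfold nn
        push_cast
        field_simp
        ring
      calc c g1 * ex ((g1 : ℝ) * ((gt B W t x - 1) / W)) *
            (c' g2 * ex ((g2 : ℝ) * ((gt B W t x - a) / d))) =
          c g1 * c' g2 * (ex ((g1 : ℝ) * ((gt B W t x - 1) / W)) *
            ex ((g2 : ℝ) * ((gt B W t x - a) / d))) := by ring
        _ = _ := by
            rw [h4]
            ring
    rw [Finset.sum_product_right]
    rw [Complex.ofReal_sub, Complex.ofReal_sum]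
    have h5 : ∀ t ∈ S, ((Wf B W L k d a t x : ℝ) : ℂ) =
        (((∫ y in (0 : ℝ)..1, wk L k y) / d : ℝ) : ℂ) +
        ∑ g ∈ (H1 ×ˢ H2).erase (0, 0), (c g.1 * c' g.2 * ex (-((g.1 : ℝ) / W) -
          (g.2 : ℝ) * a / d)) * ex ((1 / ((d : ℝ) * W) * (nn W d g : ℤ)) * gt B W t x) := by
      intro t ht
      rw [hterm t ht, ← Finset.add_sum_erase _ _ h0]
      congr 1
      simp only
      rw [h3, h3']
      have h6 : ex (-(((0 : ℤ) : ℝ) / W) - ((0 : ℤ) : ℝ) * a / d) = 1 := by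
        simp [ex_zero]
      have h7 : ex ((1 / ((d : ℝ) * W) * ((nn W d ((0 : ℤ), (0 : ℤ)) : ℤ) : ℝ)) * gt B W t x) = 1 := by
        unfold nn
        simp [ex_zero]
      rw [h6, h7]
      push_cast
      ring
    rw [Finset.sum_congr rfl h5, Finset.sum_add_distrib, Finset.sum_const, nsmul_eq_mul]
    push_cast
    ring

/-- the parameter of the weight of the frequency differences -/
noncomputable def Dd (B W T L k d : ℕ) (Z : ℝ) : ℝ :=
  22 * (B : ℝ) ^ 2 * W ^ 4 * ((k + 1) * L) * T ^ 4 / (1 / ((d : ℝ) * W) * Z ^ 2)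

lemma row_sum {B W T L : ℕ} {Z : ℝ} (h : Par B W T L Z) (k d : ℕ) (hk : 1 ≤ k) (hd : 1 ≤ d)
    (hcop : Nat.Coprime d W) (hbig : ((k : ℝ) + 1) * L * (d * W) ≤ T)
    (S : Finset ℕ) (hS : S ⊆ Ioc T (2 * T)) (g : ℤ × ℤ) (t : ℕ)
    (hg : g ∈ (Icc (-((k * (L - 1) : ℕ) : ℤ)) ((k * (L - 1) : ℕ) : ℤ) ×ˢ
        Icc (-((d - 1 : ℕ) : ℤ)) ((d - 1 : ℕ) : ℤ)).erase (0, 0)) (ht : t ∈ S) :
    ∑ j ∈ ((Icc (-((k * (L - 1) : ℕ) : ℤ)) ((k * (L - 1) : ℕ) : ℤ) ×ˢ
        Icc (-((d - 1 : ℕ) : ℤ)) ((d - 1 : ℕ) : ℤ)).erase (0, 0)) ×ˢ S,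
      ‖∫ x in Z..(2 * Z), ex ((1 / ((d : ℝ) * W) * (nn W d g : ℤ)) * gt B W t x -
        (1 / ((d : ℝ) * W) * (nn W d j.1 : ℤ)) * gt B W j.2 x)‖ ≤
    2 * d * (16 * k * L * T * (d * W) + 52 * T * Real.sqrt (Z * (d * W)) *
      Real.sqrt (Dd B W T L k d Z) + Z + 60 * (d * W) * Z ^ 2 * (1 + Real.log T) / T ^ 3) := by
  have hZ0 := h.hZ0
  have hT1 : 1 ≤ T := by
    have h1 := h.hL
    have h2 := h.hLT
    omega
  have hTr : (1 : ℝ) ≤ T := by exact_mod_cast hT1
  have hL1 : 1 ≤ L := by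
    have := h.hL
    omega
  have hW1 : 1 ≤ W := by
    have := h.hW
    omega
  have hW0 : (1 : ℝ) ≤ W := by exact_mod_cast hW1
  have hd0 : (1 : ℝ) ≤ d := by exact_mod_cast hd
  have hk0 : (1 : ℝ) ≤ k := by exact_mod_cast hk
  have hL0 : (1 : ℝ) ≤ L := by exact_mod_cast hL1
  set ρ : ℝ := 1 / ((d : ℝ) * W) with hρ
  have hρ0 : 0 < ρ := by rw [hρ]; positivity
  set D : ℝ := Dd B W T L k d Z with hD
  have hD0 : 0 ≤ D := by rw [hD]; unfold Dd; positivity
  set H1 := Icc (-((k * (L - 1) : ℕ) : ℤ)) ((k * (L - 1) : ℕ) : ℤ) with hH1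
  set H2 := Icc (-((d - 1 : ℕ) : ℤ)) ((d - 1 : ℕ) : ℤ) with hH2
  have hΛ : ((k : ℝ) + 1) * L ≤ ρ * T := by
    rw [hρ]
    have h1 : 1 / ((d : ℝ) * W) * T = T / (d * W) := by ring
    rw [h1, le_div_iff₀ (by positivity)]
    exact hbig
  have hlam : ∀ g' : ℤ × ℤ, g' ∈ H1 ×ˢ H2 → |ρ * (nn W d g' : ℤ)| ≤ ((k : ℝ) + 1) * L := by
    intro g' hg'
    rw [hH1, hH2, Finset.mem_product, Finset.mem_Icc, Finset.mem_Icc] at hg'
    have h1 : |(g'.1 : ℝ)| ≤ k * L := by
      have h2 : |g'.1| ≤ ((k * (L - 1) : ℕ) : ℤ) := abs_le.mpr hg'.1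
      have h3 : (((|g'.1| : ℤ)) : ℝ) ≤ ((k * (L - 1) : ℕ) : ℝ) := by exact_mod_cast h2
      rw [Int.cast_abs] at h3
      refine h3.trans ?_
      push_cast
      have h4 : ((L - 1 : ℕ) : ℝ) ≤ L := by
        exact_mod_cast Nat.sub_le _ _
      gcongr
    have h1' : |(g'.2 : ℝ)| ≤ d := by
      have h2 : |g'.2| ≤ ((d - 1 : ℕ) : ℤ) := abs_le.mpr hg'.2
      have h3 : (((|g'.2| : ℤ)) : ℝ) ≤ ((d - 1 : ℕ) : ℝ) := by exact_mod_cast h2
      rw [Int.cast_abs] at h3
      refine h3.trans ?_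
      exact_mod_cast Nat.sub_le _ _
    have h5 : ρ * (nn W d g' : ℤ) = (g'.1 : ℝ) / W + (g'.2 : ℝ) / d := by
      rw [hρ]
      unfold nn
      push_cast
      field_simp
    rw [h5]
    calc |(g'.1 : ℝ) / W + (g'.2 : ℝ) / d| ≤ |(g'.1 : ℝ) / W| + |(g'.2 : ℝ) / d| := abs_add_le _ _
      _ = |(g'.1 : ℝ)| / W + |(g'.2 : ℝ)| / d := by
          rw [abs_div, abs_div, abs_of_pos (by linarith : (0 : ℝ) < W),
            abs_of_pos (by linarith : (0 : ℝ) < d)]
      _ ≤ (k * L) / 1 + d / d := by gcongr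
      _ = k * L + 1 := by
          rw [div_one, div_self (by linarith)]
      _ ≤ _ := by nlinarith
  have hg' : g ∈ H1 ×ˢ H2 := Finset.mem_of_mem_erase hg
  have hgne : nn W d g ≠ 0 := by
    intro h0
    have h1 := Finset.ne_of_mem_erase hg
    apply h1
    have h2 := hg'
    rw [hH1, hH2, Finset.mem_product, Finset.mem_Icc, Finset.mem_Icc] at h2
    have h3 : (d : ℤ) ∣ g.2 := by
      have h4 : (d : ℤ) ∣ W * g.2 := by
        refine ⟨-g.1, ?_⟩
        unfold nn at h0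
        linear_combination h0
      exact (Nat.isCoprime_iff_coprime.mpr hcop).dvd_of_dvd_mul_left h4
    have h4 : g.2 = 0 := by
      apply Int.eq_zero_of_abs_lt_dvd h3
      rw [abs_lt]
      omega
    have h5 : g.1 = 0 := by
      unfold nn at h0
      rw [h4, mul_zero, add_zero] at h0
      rcases mul_eq_zero.mp h0 with h6 | h6
      · exfalso
        have : d = 0 := by exact_mod_cast h6
        omega
      · exact h6
    exact Prod.ext h5 h4
  set KB : ℝ := 30 * Z ^ 2 / (ρ * T ^ 3) with hKB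
  have hKB0 : 0 ≤ KB := by rw [hKB]; positivity
  set KA : ℝ := 13 * Real.sqrt (Z / ρ) with hKA
  have hKA0 : 0 ≤ KA := by rw [hKA]; positivity
  have ht2 := hS ht
  -- the bound for a single pair
  have hpair : ∀ g' ∈ H1 ×ˢ H2, ∀ t' ∈ S,
      ‖∫ x in Z..(2 * Z), ex ((ρ * (nn W d g : ℤ)) * gt B W t x -
        (ρ * (nn W d g' : ℤ)) * gt B W t' x)‖ ≤
      if nn W d g' - nn W d g ≠ 0 then 8 / ρ + KA * wt D (nn W d g' - nn W d g).natAbs
      else (if t' = t then Z else KB * (1 / |(t : ℝ) - t'|)) := by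
    intro g' hg'' t' ht'
    have ht3 := hS ht'
    split_ifs with h1 h2
    · have h2 : |ρ * ((nn W d g : ℤ) : ℝ) - ρ * ((nn W d g' : ℤ) : ℝ)| =
          ρ * ((nn W d g' - nn W d g).natAbs : ℕ) := by
        rw [← mul_sub, abs_mul, abs_of_pos hρ0, Nat.cast_natAbs]
        congr 1
        push_cast
        rw [abs_sub_comm]
      exact pair_A B W T t t' Z _ _ (((k : ℝ) + 1) * L) ρ _ hT1 hρ0 hΛ h.hZ h.hT0 hZ0 ht2 ht3
        (Int.natAbs_pos.mpr h1) h2 (hlam g hg') (hlam g' hg'')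
    · have h3 := triv_int (fun x => (ρ * (nn W d g : ℤ)) * gt B W t x -
        (ρ * (nn W d g' : ℤ)) * gt B W t' x) Z (2 * Z) (by linarith)
      refine h3.trans ?_
      linarith
    · have h3 : nn W d g' = nn W d g := by
        push Not at h1
        linarith
      rw [h3]
      apply pair_B B W T t t' Z _ ρ h.hB hW1 hT1 hρ0 h.hZ h.hT0 hZ0 ht2 ht3 (fun h4 => h2 h4.symm)
      rw [abs_mul, abs_of_pos hρ0]
      have h4 : (1 : ℝ) ≤ |((nn W d g : ℤ) : ℝ)| := by
        have := Int.one_le_abs hgne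
        exact_mod_cast this
      nlinarith
  have hFnn : ∀ g' : ℤ × ℤ, ∀ t' : ℕ,
      0 ≤ if nn W d g' - nn W d g ≠ 0 then 8 / ρ + KA * wt D (nn W d g' - nn W d g).natAbs
      else (if t' = t then Z else KB * (1 / |(t : ℝ) - t'|)) := by
    intro g' t'
    have := wt_nonneg D (nn W d g' - nn W d g).natAbs
    split_ifs
    · positivity
    · exact hZ0.le
    · positivity
  have hcardS : (S.card : ℝ) ≤ T := by
    have h1 := Finset.card_le_card hS
    rw [Nat.card_Ioc] at h1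
    have : S.card ≤ T := by omega
    exact_mod_cast this
  have hharm : ∑ t' ∈ S.erase t, 1 / |(t : ℝ) - t'| ≤ 2 * (1 + Real.log T) := by
    refine le_trans ?_ (harm T t ht2 hT1)
    apply Finset.sum_le_sum_of_subset_of_nonneg
    · exact Finset.erase_subset_erase t hS
    · intro t' _ _
      positivity
  have hlog : 0 ≤ Real.log T := Real.log_nonneg hTr
  have hc1 : ((H1.card : ℕ) : ℝ) ≤ 2 * k * L := by
    rw [hH1, Int.card_Icc]
    have h1 : (((k * (L - 1) : ℕ) : ℤ) + 1 - -((k * (L - 1) : ℕ) : ℤ)).toNat =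
        2 * (k * (L - 1)) + 1 := by omega
    rw [h1]
    push_cast
    rw [Nat.cast_sub hL1]
    push_cast
    nlinarith
  have hc2 : ((H2.card : ℕ) : ℝ) ≤ 2 * d := by
    rw [hH2, Int.card_Icc]
    have h1 : (((d - 1 : ℕ) : ℤ) + 1 - -((d - 1 : ℕ) : ℤ)).toNat = 2 * (d - 1) + 1 := by omega
    rw [h1]
    push_cast
    rw [Nat.cast_sub hd]
    push_cast
    linarith
  calc _ ≤ ∑ j ∈ ((H1 ×ˢ H2).erase (0, 0)) ×ˢ S,
        (if nn W d j.1 - nn W d g ≠ 0 then 8 / ρ + KA * wt D (nn W d j.1 - nn W d g).natAbs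
        else (if j.2 = t then Z else KB * (1 / |(t : ℝ) - j.2|))) := by
        apply Finset.sum_le_sum
        intro j hj
        rw [Finset.mem_product] at hj
        exact hpair j.1 (Finset.mem_of_mem_erase hj.1) j.2 hj.2
    _ ≤ ∑ j ∈ (H1 ×ˢ H2) ×ˢ S,
        (if nn W d j.1 - nn W d g ≠ 0 then 8 / ρ + KA * wt D (nn W d j.1 - nn W d g).natAbs
        else (if j.2 = t then Z else KB * (1 / |(t : ℝ) - j.2|))) := by
        apply Finset.sum_le_sum_of_subset_of_nonneg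
        · apply Finset.product_subset_product_left
          exact Finset.erase_subset _ _
        · intro j _ _
          exact hFnn j.1 j.2
    _ = ∑ g2 ∈ H2, ∑ g1 ∈ H1, ∑ t' ∈ S,
        (if nn W d (g1, g2) - nn W d g ≠ 0 then
          8 / ρ + KA * wt D (nn W d (g1, g2) - nn W d g).natAbs
        else (if t' = t then Z else KB * (1 / |(t : ℝ) - t'|))) := by
        rw [Finset.sum_product, Finset.sum_product, Finset.sum_comm]
    _ ≤ ∑ g2 ∈ H2, (16 * k * L * T * (d * W) + 52 * T * Real.sqrt (Z * (d * W)) *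
      Real.sqrt D + Z + 60 * (d * W) * Z ^ 2 * (1 + Real.log T) / T ^ 3) := by
        apply Finset.sum_le_sum
        intro g2 _
        set c : ℤ := W * g2 - nn W d g with hc
        have hnc : ∀ g1 : ℤ, nn W d (g1, g2) - nn W d g = (d : ℤ) * g1 + c := by
          intro g1
          rw [hc]
          show (d : ℤ) * g1 + W * g2 - nn W d g = _
          ring
        simp_rw [hnc]
        have h1 : ∀ g1 ∈ H1, ∑ t' ∈ S, (if (d : ℤ) * g1 + c ≠ 0 then
            8 / ρ + KA * wt D ((d : ℤ) * g1 + c).natAbs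
            else (if t' = t then Z else KB * (1 / |(t : ℝ) - t'|))) ≤
            (if (d : ℤ) * g1 + c ≠ 0 then T * (8 / ρ) + T * KA * wt D ((d : ℤ) * g1 + c).natAbs
              else 0) +
            (if (d : ℤ) * g1 + c ≠ 0 then 0 else Z + KB * (2 * (1 + Real.log T))) := by
          intro g1 _
          by_cases h2 : (d : ℤ) * g1 + c ≠ 0
          · simp only [if_pos h2]
            rw [Finset.sum_const, nsmul_eq_mul]
            have h3 : 0 ≤ 8 / ρ + KA * wt D ((d : ℤ) * g1 + c).natAbs := by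
              have := wt_nonneg D ((d : ℤ) * g1 + c).natAbs
              positivity
            calc (S.card : ℝ) * (8 / ρ + KA * wt D ((d : ℤ) * g1 + c).natAbs) ≤
                T * (8 / ρ + KA * wt D ((d : ℤ) * g1 + c).natAbs) := by gcongr
              _ = _ := by ring
          · simp only [if_neg h2]
            rw [← Finset.add_sum_erase S _ ht, if_pos rfl, zero_add]
            have h3 : ∀ t' ∈ S.erase t, (if t' = t then Z else KB * (1 / |(t : ℝ) - t'|)) =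
                KB * (1 / |(t : ℝ) - t'|) := by
              intro t' ht'
              rw [if_neg (Finset.ne_of_mem_erase ht')]
            rw [Finset.sum_congr rfl h3, ← Finset.mul_sum]
            gcongr
        refine (Finset.sum_le_sum h1).trans ?_
        rw [Finset.sum_add_distrib]
        have h2 : ∑ g1 ∈ H1, (if (d : ℤ) * g1 + c ≠ 0 then
            T * (8 / ρ) + T * KA * wt D ((d : ℤ) * g1 + c).natAbs else 0) ≤
            (2 * k * L) * (T * (8 / ρ)) + T * KA * (4 * Real.sqrt D) := by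
          rw [← Finset.sum_filter, Finset.sum_add_distrib, Finset.sum_const, nsmul_eq_mul,
            ← Finset.mul_sum]
          have h3 := inner_wt d hd c H1 D hD0
          have h4 : (((H1.filter (fun g1 => (d : ℤ) * g1 + c ≠ 0)).card : ℕ) : ℝ) ≤ 2 * k * L := by
            refine le_trans ?_ hc1
            exact_mod_cast Finset.card_filter_le _ _
          gcongr
        have h3 : ∑ g1 ∈ H1, (if (d : ℤ) * g1 + c ≠ 0 then (0 : ℝ) else
            Z + KB * (2 * (1 + Real.log T))) ≤ Z + KB * (2 * (1 + Real.log T)) := by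
          have h4 : ∀ g1 ∈ H1, (if (d : ℤ) * g1 + c ≠ 0 then (0 : ℝ) else
              Z + KB * (2 * (1 + Real.log T))) = if (d : ℤ) * g1 + c = 0 then
              Z + KB * (2 * (1 + Real.log T)) else 0 := by
            intro g1 _
            by_cases h5 : (d : ℤ) * g1 + c = 0
            · rw [if_neg (not_not.mpr h5), if_pos h5]
            · rw [if_pos h5, if_neg h5]
          rw [Finset.sum_congr rfl h4, ← Finset.sum_filter, Finset.sum_const, nsmul_eq_mul]
          have h5 : (H1.filter (fun g1 => (d : ℤ) * g1 + c = 0)).card ≤ 1 := by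
            rw [Finset.card_le_one]
            intro x hx y hy
            rw [Finset.mem_filter] at hx hy
            have h6 : (d : ℤ) * x = d * y := by linarith [hx.2, hy.2]
            have hd00 : (d : ℤ) ≠ 0 := by
              have : (0 : ℤ) < d := by exact_mod_cast hd
              exact this.ne'
            exact mul_left_cancel₀ hd00 h6
          have h6 : (((H1.filter (fun g1 => (d : ℤ) * g1 + c = 0)).card : ℕ) : ℝ) ≤ 1 := by
            exact_mod_cast h5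
          have h7 : 0 ≤ Z + KB * (2 * (1 + Real.log T)) := by positivity
          calc _ ≤ 1 * (Z + KB * (2 * (1 + Real.log T))) := by gcongr
            _ = _ := one_mul _
        have h4 : 8 / ρ = 8 * (d * W) := by
          rw [hρ]
          field_simp
        have h5 : Z / ρ = Z * (d * W) := by
          rw [hρ]
          field_simp
        have h6 : KB = 30 * (d * W) * Z ^ 2 / T ^ 3 := by
          rw [hKB, hρ]
          field_simp
        rw [hKA, h5, h4] at h2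
        rw [h6] at h3
        have h7 : (2 * k * L) * (T * (8 * ((d : ℝ) * W))) +
            T * (13 * Real.sqrt (Z * (d * W))) * (4 * Real.sqrt D) =
            16 * k * L * T * (d * W) + 52 * T * Real.sqrt (Z * (d * W)) * Real.sqrt D := by ring
        have h8 : Z + 30 * ((d : ℝ) * W) * Z ^ 2 / T ^ 3 * (2 * (1 + Real.log T)) =
            Z + 60 * (d * W) * Z ^ 2 * (1 + Real.log T) / T ^ 3 := by ring
        rw [hKA, h5, h4, h6]
        linarith
    _ = (H2.card : ℝ) * (16 * k * L * T * (d * W) + 52 * T * Real.sqrt (Z * (d * W)) *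
      Real.sqrt D + Z + 60 * (d * W) * Z ^ 2 * (1 + Real.log T) / T ^ 3) := by
        rw [Finset.sum_const, nsmul_eq_mul]
    _ ≤ _ := by
        have h1 : 0 ≤ 16 * k * L * T * (d * W) + 52 * T * Real.sqrt (Z * (d * W)) *
          Real.sqrt D + Z + 60 * (d * W) * Z ^ 2 * (1 + Real.log T) / T ^ 3 := by positivity
        gcongr

/-- the constant of the variance bound -/
noncomputable def V1 (B W k : ℕ) : ℝ :=
  8 * k * (16 * k * W + 260 * (k + 1) * B * W ^ 3 + 1 + 60 * W)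

lemma V1_nonneg (B W k : ℕ) : 0 ≤ V1 B W k := by
  unfold V1
  positivity

lemma row_simple {B W T L : ℕ} {Z : ℝ} (h : Par B W T L Z) (k d : ℕ) (hd : 1 ≤ d)
    (hlog : Z * (1 + Real.log T) ≤ T ^ 3) :
    16 * k * L * T * (d * W) + 52 * T * Real.sqrt (Z * (d * W)) *
      Real.sqrt (Dd B W T L k d Z) + Z + 60 * (d * W) * Z ^ 2 * (1 + Real.log T) / T ^ 3 ≤
    d * Z * (16 * k * W + 260 * (k + 1) * B * W ^ 3 + 1 + 60 * W) := by
  have hZ0 := h.hZ0
  have hT1 : 1 ≤ T := by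
    have h1 := h.hL
    have h2 := h.hLT
    omega
  have hTr : (1 : ℝ) ≤ T := by exact_mod_cast hT1
  have hL1 : 1 ≤ L := by
    have := h.hL
    omega
  have hLT : (L : ℝ) ≤ T := by exact_mod_cast h.hLT
  have hW0 : (0 : ℝ) < W := by
    have := h.hW
    exact_mod_cast (by omega : 0 < W)
  have hd0 : (1 : ℝ) ≤ d := by exact_mod_cast hd
  have hL0 : (1 : ℝ) ≤ L := by exact_mod_cast hL1
  have hTZ : (T : ℝ) ^ 2 ≤ Z := by
    have h1 : ((T : ℝ) ^ 2) ^ 3 ≤ Z ^ 3 := by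
      calc ((T : ℝ) ^ 2) ^ 3 = (T : ℝ) ^ 6 := by ring
        _ ≤ (T : ℝ) ^ 7 := pow_le_pow_right₀ hTr (by norm_num)
        _ ≤ _ := h.hZ
    exact le_of_pow_le_pow_left₀ (by norm_num) hZ0.le h1
  have e1 : 16 * k * L * T * ((d : ℝ) * W) ≤ d * Z * (16 * k * W) := by
    calc 16 * k * L * T * ((d : ℝ) * W) ≤ 16 * k * T * T * ((d : ℝ) * W) := by gcongr
      _ = d * (T : ℝ) ^ 2 * (16 * k * W) := by ring
      _ ≤ _ := by gcongr
  have e2 : T * Real.sqrt (Z * (d * W)) * Real.sqrt (Dd B W T L k d Z) ≤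
      5 * (k + 1) * B * W ^ 3 * d * Z := by
    have h1 : (T : ℝ) = Real.sqrt ((T : ℝ) ^ 2) := by
      rw [Real.sqrt_sq (by positivity)]
    have h2 : T * Real.sqrt (Z * (d * W)) * Real.sqrt (Dd B W T L k d Z) =
        Real.sqrt ((T : ℝ) ^ 2 * (Z * (d * W)) * (Dd B W T L k d Z)) := by
      rw [Real.sqrt_mul (by positivity : (0 : ℝ) ≤ (T : ℝ) ^ 2 * (Z * (d * W))),
        Real.sqrt_mul (by positivity : (0 : ℝ) ≤ (T : ℝ) ^ 2), ← h1]
    rw [h2]
    apply Real.sqrt_le_iff.mpr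
    constructor
    · positivity
    · have h3 : (T : ℝ) ^ 2 * (Z * (d * W)) * (Dd B W T L k d Z) =
          22 * (k + 1) * (B : ℝ) ^ 2 * W ^ 6 * d ^ 2 * (L * T ^ 6 / Z) := by
        unfold Dd
        field_simp
      rw [h3]
      have h4 : (L : ℝ) * T ^ 6 / Z ≤ Z ^ 2 := by
        rw [div_le_iff₀ hZ0]
        calc (L : ℝ) * T ^ 6 ≤ T * T ^ 6 := by gcongr
          _ = (T : ℝ) ^ 7 := by ring
          _ ≤ Z ^ 3 := h.hZ
          _ = _ := by ring
      calc 22 * ((k : ℝ) + 1) * (B : ℝ) ^ 2 * W ^ 6 * d ^ 2 * (L * T ^ 6 / Z) ≤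
          22 * ((k : ℝ) + 1) * (B : ℝ) ^ 2 * W ^ 6 * d ^ 2 * Z ^ 2 := by gcongr
        _ ≤ 25 * (((k : ℝ) + 1) * (k + 1)) * (B : ℝ) ^ 2 * W ^ 6 * d ^ 2 * Z ^ 2 := by
            gcongr
            · norm_num
            · have : (0 : ℝ) ≤ k := by positivity
              nlinarith
        _ = _ := by ring
  have e3 : Z ≤ d * Z * 1 := by nlinarith
  have e4 : 60 * ((d : ℝ) * W) * Z ^ 2 * (1 + Real.log T) / T ^ 3 ≤ d * Z * (60 * W) := by
    rw [div_le_iff₀ (by positivity)]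
    calc 60 * ((d : ℝ) * W) * Z ^ 2 * (1 + Real.log T) =
        60 * ((d : ℝ) * W) * Z * (Z * (1 + Real.log T)) := by ring
      _ ≤ 60 * ((d : ℝ) * W) * Z * T ^ 3 := by gcongr
      _ = _ := by ring
  calc _ ≤ d * Z * (16 * k * W) + 52 * (5 * (k + 1) * B * W ^ 3 * d * Z) + d * Z * 1 +
        d * Z * (60 * W) := by
        have h5 : 52 * T * Real.sqrt (Z * (d * W)) * Real.sqrt (Dd B W T L k d Z) =
            52 * (T * Real.sqrt (Z * (d * W)) * Real.sqrt (Dd B W T L k d Z)) := by ring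
        rw [h5]
        gcongr
    _ = _ := by ring

/-- the variance of the weighted count -/
theorem variance {B W T L : ℕ} {Z : ℝ} (h : Par B W T L Z) (k d : ℕ) (hk : 1 ≤ k) (hd : 1 ≤ d)
    (hcop : Nat.Coprime d W) (hbig : ((k : ℝ) + 1) * L * (d * W) ≤ T)
    (hlog : Z * (1 + Real.log T) ≤ T ^ 3) (S : Finset ℕ) (hS : S ⊆ Ioc T (2 * T)) (a : ℤ) :
    ∫ x in Z..(2 * Z), ((∑ t ∈ S, Wf B W L k d a t x) -
      S.card * (∫ y in (0 : ℝ)..1, wk L k y) / d) ^ 2 ≤ V1 B W k * (T / L) * d * Z := by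
  have hZ0 := h.hZ0
  have hL1 : 1 ≤ L := by
    have := h.hL
    omega
  have hW1 : 1 ≤ W := by
    have := h.hW
    omega
  have hL0 : (0 : ℝ) < L := by exact_mod_cast hL1
  have hd0 : (0 : ℝ) < d := by exact_mod_cast hd
  obtain ⟨A, hA1, hA2⟩ := Wf_four B W L k d a hW1 hL1 hk hd S
  set G := (Icc (-((k * (L - 1) : ℕ) : ℤ)) ((k * (L - 1) : ℕ) : ℤ) ×ˢ
        Icc (-((d - 1 : ℕ) : ℤ)) ((d - 1 : ℕ) : ℤ)).erase (0, 0) with hG
  have h1 : ∀ x : ℝ, ((∑ t ∈ S, Wf B W L k d a t x) -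
      S.card * (∫ y in (0 : ℝ)..1, wk L k y) / d) ^ 2 =
      ‖∑ i ∈ G ×ˢ S, A i * ex ((1 / ((d : ℝ) * W) * (nn W d i.1 : ℤ)) * gt B W i.2 x)‖ ^ 2 := by
    intro x
    rw [← hA2 x, Complex.norm_real, Real.norm_eq_abs, sq_abs]
  simp_rw [h1]
  have h2 := sq_int (G ×ˢ S) A (fun i x => (1 / ((d : ℝ) * W) * (nn W d i.1 : ℤ)) *
    gt B W i.2 x) Z (2 * Z) (by
      intro i _
      exact continuousOn_const.mul (gt_cont B W i.2 Z hZ0))
  refine h2.trans ?_
  set K : ℝ := 16 * k * W + 260 * (k + 1) * B * W ^ 3 + 1 + 60 * W with hK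
  have hK0 : 0 ≤ K := by rw [hK]; positivity
  have h3 : ∀ i ∈ G ×ˢ S, ∑ j ∈ G ×ˢ S, ‖A i‖ * ‖A j‖ *
      ‖∫ x in Z..(2 * Z), ex ((1 / ((d : ℝ) * W) * (nn W d i.1 : ℤ)) * gt B W i.2 x -
        (1 / ((d : ℝ) * W) * (nn W d j.1 : ℤ)) * gt B W j.2 x)‖ ≤
      (1 / ((L : ℝ) * d)) ^ 2 * (2 * d * (d * Z * K)) := by
    intro i hi
    rw [Finset.mem_product] at hi
    have h4 := row_sum h k d hk hd hcop hbig S hS i.1 i.2 hi.1 hi.2
    have h5 := row_simple h k d hd hlog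
    calc _ ≤ ∑ j ∈ G ×ˢ S, (1 / ((L : ℝ) * d)) ^ 2 *
        ‖∫ x in Z..(2 * Z), ex ((1 / ((d : ℝ) * W) * (nn W d i.1 : ℤ)) * gt B W i.2 x -
        (1 / ((d : ℝ) * W) * (nn W d j.1 : ℤ)) * gt B W j.2 x)‖ := by
          apply Finset.sum_le_sum
          intro j _
          rw [pow_two]
          gcongr
          · exact hA1 i
          · exact hA1 j
      _ ≤ _ := by
          rw [← Finset.mul_sum]
          gcongr
          refine h4.trans ?_
          gcongr
  refine (Finset.sum_le_sum h3).trans ?_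
  rw [Finset.sum_const, nsmul_eq_mul, Finset.card_product]
  have hcS : (S.card : ℝ) ≤ T := by
    have h1 := Finset.card_le_card hS
    rw [Nat.card_Ioc] at h1
    have : S.card ≤ T := by omega
    exact_mod_cast this
  have hcG : (G.card : ℝ) ≤ (2 * k * L) * (2 * d) := by
    have h4 : G.card ≤ (2 * k * L) * (2 * d) := by
      rw [hG]
      refine (Finset.card_erase_le).trans ?_
      rw [Finset.card_product, Int.card_Icc, Int.card_Icc]
      have h5 : (((k * (L - 1) : ℕ) : ℤ) + 1 - -((k * (L - 1) : ℕ) : ℤ)).toNat =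
        2 * (k * (L - 1)) + 1 := by omega
      have h6 : (((d - 1 : ℕ) : ℤ) + 1 - -((d - 1 : ℕ) : ℤ)).toNat = 2 * (d - 1) + 1 := by omega
      rw [h5, h6]
      have h7 : 2 * (k * (L - 1)) + 1 ≤ 2 * k * L := by
        obtain ⟨l, rfl⟩ : ∃ l, L = l + 1 := ⟨L - 1, by omega⟩
        rw [Nat.add_sub_cancel]
        nlinarith
      have h8 : 2 * (d - 1) + 1 ≤ 2 * d := by omega
      exact Nat.mul_le_mul h7 h8
    exact_mod_cast h4
  push_cast
  calc (G.card : ℝ) * S.card * ((1 / ((L : ℝ) * d)) ^ 2 * (2 * d * (d * Z * K))) ≤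
      ((2 * k * L) * (2 * d)) * T * ((1 / ((L : ℝ) * d)) ^ 2 * (2 * d * (d * Z * K))) := by
        gcongr
    _ = _ := by
        unfold V1
        rw [hK]
        field_simp
        ring

end Pool.Agent.Q148.PS
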